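import Pool.Agent.Q33.SecL.SecC

/-!
# Locally geometric integral sections of curves mapping to the line minus closed points
-/

set_option autoImplicit false
set_option linter.unusedSectionVars false

namespace Pool.Agent.Q33.SecL

open Polynomial IntermediateField NumberField
open Pool.Agent.W620.SC (root_mem mem_of_fixed unramified)

section fixed

variable {K B : Type} [Field K] [Field B] [Algebra K B]

lemma fix_adjoin {θ : B} {σ : B ≃ₐ[K] B} (h : σ θ = θ) {y : B} (hy : y ∈ K⟮θ⟯) : σ y = y := by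
  have h1 : K⟮θ⟯ ≤ IntermediateField.fixedField (Subgroup.zpowers σ) := by
    rw [adjoin_simple_le_iff, IntermediateField.mem_fixedField_iff]
    intro τ hτ
    obtain ⟨n, rfl⟩ := hτ
    have h2 : σ ∈ MulAction.stabilizer (B ≃ₐ[K] B) θ := h
    exact (Subgroup.zpow_mem _ h2 n : _)
  exact (IntermediateField.mem_fixedField_iff _ _).1 (h1 hy) σ (Subgroup.mem_zpowers σ)

end fixed

section conv

variable {K : Type} [Field K] [NumberField K]

/-- the case of a rational number -/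
lemma Dat.descend {x : ∀ (p : ℕ) [Fact p.Prime], (K →+* PadicAlgCl p) → PadicAlgCl p}
    {F : Type} [Field F] [NumberField F] {jF : K →+* F} {θ : F} (h : Dat x F jF θ)
    (hs : Function.Surjective jF) {c : K} (hc : jF c = θ) : Dat x K (RingHom.id K) c := by
  let e : K ≃+* F := RingEquiv.ofBijective jF ⟨jF.injective, hs⟩
  have he : ∀ z, e z = jF z := fun z => rfl
  have key : ∀ {p : ℕ} [Fact p.Prime] (φ : K →+* PadicAlgCl p),
      (φ.comp (e.symm : F →+* K)).comp jF = φ := by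
    intro p _ φ
    ext z
    change φ (e.symm (jF z)) = φ z
    rw [← he, RingEquiv.symm_apply_apply]
  have key2 : ∀ {p : ℕ} [Fact p.Prime] (φ : K →+* PadicAlgCl p),
      (φ.comp (e.symm : F →+* K)) θ = φ c := by
    intro p _ φ
    change φ (e.symm θ) = φ c
    rw [← hc, ← he, RingEquiv.symm_apply_apply]
  refine ⟨?_, ?_, ?_⟩
  · intro p _ φ
    have h1 := h.ne p (φ.comp (e.symm : F →+* K))
    rw [key, key2] at h1
    exact h1
  · intro N hN
    obtain ⟨a, ha⟩ := h.kum N hN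
    refine ⟨e.symm a, fun p _ φ => ?_⟩
    obtain ⟨u, hu, hu'⟩ := ha p (φ.comp (e.symm : F →+* K))
    rw [key, key2] at hu'
    refine ⟨u, ?_, hu'⟩
    have h2 : LL (φ.comp (e.symm : F →+* K)) ≤ LL φ := by
      unfold LL
      rw [IntermediateField.adjoin_le_iff]
      rintro _ ⟨z, rfl⟩
      exact IntermediateField.subset_adjoin _ _ ⟨e.symm z, rfl⟩
    exact h2 hu
  · obtain ⟨D, hD, h1⟩ := h.unit
    refine ⟨D, hD, fun p _ φ hp => ?_⟩
    have h2 := h1 p (φ.comp (e.symm : F →+* K)) hp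
    rw [key, key2] at h2
    exact h2

end conv

section main

variable {K F M B : Type} [Field K] [NumberField K] [Field F] [Field M] [Field B] [Algebra F M]
  [Algebra K M] [Algebra K B] [IsAlgClosed B] [Algebra.IsAlgebraic K B]
  [Algebra.IsAlgebraic F M]

/-- **The image in the geometrically abelian fundamental group.** -/
theorem GalSec.abelian (s : GalSec K F M B) (x : F) (θ : B) [NumberField K⟮θ⟯]
    (hroot : ∀ N : ℕ, 0 < N → ∃ w : M, w ≠ 0 ∧ w ^ N = algebraMap F M x - s.j θ)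
    (P : ∀ (p : ℕ) [Fact p.Prime] (φ : K →+* PadicAlgCl p), Pt K M φ)
    (hP : ∀ (p : ℕ) [Fact p.Prime] (φ : K →+* PadicAlgCl p), s.GivenBy (P p φ))
    (ξ : K) (hX : ∀ (p : ℕ) [Fact p.Prime] (φ : K →+* PadicAlgCl p),
      (P p φ).Val (algebraMap F M x) (φ ξ)) (hξ : algebraMap K B ξ ≠ θ) (N : ℕ) (hN : 0 < N) :
    ∃ w : M, w ^ N = (algebraMap F M x - s.j θ) / (algebraMap K M ξ - s.j θ) ∧
      ∀ g : B ≃ₐ[K] B, g θ = θ → s.s g w = w := by
  have hA : IsAlgClosure K B := ⟨inferInstance, inferInstance⟩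
  have hNo : Normal K B := IsAlgClosure.normal K B
  have hG : IsGalois K B := ⟨⟩
  have hk : ∀ N : ℕ, ∃ (a : K⟮θ⟯) (g : M), 0 < N → (a ≠ 0 ∧ g ≠ 0 ∧
      algebraMap F M x - s.j θ = s.j a * g ^ N ∧ ∀ σ : B ≃ₐ[K] B, σ θ = θ → s.s σ g = g) := by
    intro N
    by_cases hN : 0 < N
    · obtain ⟨w, hw0, hw⟩ := hroot N hN
      obtain ⟨a, ha, g, hg0, hg, hfix⟩ := s.kummer x θ hN w hw hw0
      exact ⟨a, g, fun _ => ⟨ha, hg0, hg, hfix⟩⟩
    · exact ⟨0, 0, fun h => absurd h hN⟩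
  choose a g hag using hk
  have hj0 : ∀ {b : B}, b ≠ 0 → s.j b ≠ 0 := fun h => (map_ne_zero s.j).2 h
  have haB : ∀ N, 0 < N → (a N : B) ≠ 0 := fun N hN h => (hag N hN).1 (Subtype.ext h)
  set η : K⟮θ⟯ := algebraMap K K⟮θ⟯ ξ - AdjoinSimple.gen K θ with hη
  have hηB : (η : B) = algebraMap K B ξ - θ := rfl
  have hη0 : η ≠ 0 := by
    intro h
    apply hξ
    have h1 : (η : B) = 0 := congrArg Subtype.val h
    rw [hηB] at h1
    exact sub_eq_zero.1 h1
  obtain ⟨t, ht⟩ := powers (fun N => η / a N) (by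
      intro p _ Φ N hN
      obtain ⟨ha, -, hg, hfix⟩ := hag N hN
      obtain ⟨u, hu, hu'⟩ := s.values x θ hN (a N) ha (g N) hg hfix Φ (P p _) (hP p _) _ (hX p _)
      refine ⟨u, hu, ?_⟩
      have h1 : Φ η = Φ (a N) * u ^ N := by
        rw [← hu', hη, map_sub]
        rfl
      rw [map_div₀, h1, mul_div_cancel_left₀ _ ((map_ne_zero Φ).2 ha)])
    (fun N hN => div_ne_zero hη0 (hag N hN).1) (by
      intro N L hN hL
      obtain ⟨ha, hg0, hg, hfix⟩ := hag N hN
      obtain ⟨ha', hg0', hg', hfix'⟩ := hag (N * L) (Nat.mul_pos hN hL)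
      have h1 : (g (N * L) ^ L / g N) ^ N = (s.j : B →+* M) ((a N : B) / (a (N * L) : B)) := by
        rw [hg'] at hg
        have h2 := hj0 (haB N hN)
        have h3 := hj0 (haB (N * L) (Nat.mul_pos hN hL))
        change _ = s.j ((a N : B) / (a (N * L) : B))
        rw [map_div₀, div_pow, div_eq_div_iff (pow_ne_zero _ hg0) h3, ← pow_mul, mul_comm L N]
        linear_combination hg
      obtain ⟨b, hb⟩ := root_mem (s.j : B →+* M) hN h1
      have hbK : b ∈ K⟮θ⟯ := by
        apply mem_of_fixed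
        intro σ hσ
        have hσθ : σ θ = θ := (IntermediateField.mem_fixingSubgroup_iff _ _).1 hσ θ
          (mem_adjoin_simple_self K θ)
        have h2 := congrArg (s.s σ) hb
        rw [map_div₀, map_pow, hfix' σ hσθ, hfix σ hσθ, ← hb] at h2
        change s.s σ (s.j b) = s.j b at h2
        rw [s.sec] at h2
        exact s.j.toRingHom.injective h2
      refine ⟨⟨b, hbK⟩, ?_⟩
      have h4 : b ^ N = (a N : B) / (a (N * L) : B) := by
        apply (s.j : B →+* M).injective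
        rw [map_pow, hb, h1]
      apply Subtype.ext
      change (η : B) / (a (N * L) : B) = (η : B) / (a N : B) * b ^ N
      rw [h4]
      have h2 := haB N hN
      have h3 := haB (N * L) (Nat.mul_pos hN hL)
      field_simp) N hN
  obtain ⟨ha, hg0, hg, hfix⟩ := hag N hN
  have ht0 : t ≠ 0 := by
    rintro rfl
    rw [zero_pow hN.ne'] at ht
    exact div_ne_zero hη0 ha ht
  have htB : (t : B) ≠ 0 := fun h => ht0 (Subtype.ext h)
  refine ⟨g N / s.j t, ?_, ?_⟩
  · have h1 : (η : B) = (a N : B) * (t : B) ^ N := by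
      have h2 := congrArg (Subtype.val : K⟮θ⟯ → B) ht
      change (η : B) / (a N : B) = (t : B) ^ N at h2
      rw [← h2, mul_div_cancel₀ _ (haB N hN)]
    have h2 : algebraMap K M ξ - s.j θ = s.j (a N) * s.j t ^ N := by
      rw [← map_pow, ← map_mul, ← h1, hηB, map_sub, AlgHom.commutes]
    rw [h2, hg, div_pow, mul_div_mul_left _ _ (hj0 (haB N hN))]
  · intro σ hσ
    rw [map_div₀, hfix σ hσ, s.sec, fix_adjoin hσ t.2]

/-- **The main theorem.** -/
theorem main (s : GalSec K F M B) (x : F) {r : ℕ} (θ : Fin r → B)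
    (hθ : ∀ i i', i ≠ i' → minpoly K (θ i) ≠ minpoly K (θ i'))
    (enough : Module.finrank ℚ K ≤ r ∨
      (Module.finrank ℚ K ≤ 2 * r ∧ ∃ L : IntermediateField ℚ K, IsCMField L) ∨
      (IsCMField K ∧ ∃ c : Fin 3 → K, (∀ k, ∃ i, θ i = algebraMap K B (c k)) ∧
        (c 1 - c 0) / (c 2 - c 0) ∉ maximalRealSubfield K))
    (hroot : ∀ i, ∀ N : ℕ, 0 < N → ∃ w : M, w ≠ 0 ∧ w ^ N = algebraMap F M x - s.j (θ i))
    (P : ∀ (p : ℕ) [Fact p.Prime] (φ : K →+* PadicAlgCl p), Pt K M φ)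
    (hP : ∀ (p : ℕ) [Fact p.Prime] (φ : K →+* PadicAlgCl p), s.GivenBy (P p φ))
    (X : ∀ (p : ℕ) [Fact p.Prime], (K →+* PadicAlgCl p) → PadicAlgCl p)
    (hX : ∀ (p : ℕ) [Fact p.Prime] (φ : K →+* PadicAlgCl p),
      (P p φ).Val (algebraMap F M x) (X p φ))
    (hne : ∀ (p : ℕ) [Fact p.Prime] (φ : K →+* PadicAlgCl p) (i : Fin r),
      eval₂ φ (X p φ) (minpoly K (θ i)) ≠ 0)
    (hunit : ∃ D : ℕ, 0 < D ∧ ∀ (p : ℕ) [Fact p.Prime] (φ : K →+* PadicAlgCl p) (i : Fin r),
      ¬ p ∣ D → ‖eval₂ φ (X p φ) (minpoly K (θ i))‖ = 1) :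
    ∃ ξ : K, (∀ i, (minpoly K (θ i)).eval ξ ≠ 0) ∧
      (∀ (p : ℕ) [Fact p.Prime] (φ : K →+* PadicAlgCl p), X p φ = φ ξ) ∧
      ∀ (i : Fin r) (N : ℕ), 0 < N → ∃ w : M,
        w ^ N = (algebraMap F M x - s.j (θ i)) / (algebraMap K M ξ - s.j (θ i)) ∧
        ∀ g : B ≃ₐ[K] B, g (θ i) = θ i → s.s g w = w := by
  have hint : ∀ z : B, IsIntegral K z := fun z => Algebra.IsIntegral.isIntegral z
  have hNF : ∀ z : B, NumberField K⟮z⟯ := fun z => numberField_adjoin (hint z)
  obtain ⟨D, hD, hDu⟩ := hunit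
  have hDat : ∀ i, Dat X K⟮θ i⟯ (algebraMap K K⟮θ i⟯) (AdjoinSimple.gen K (θ i)) := fun i =>
    s.dat x (θ i) (hroot i) P hP X hX (fun p _ φ => hne p φ i)
      ⟨D, hD, fun p _ φ hp => hDu p φ i hp⟩
  -- finitely many values
  have hfin : ∃ Q : Polynomial ℚ, Q ≠ 0 ∧ ∀ (p : ℕ) [Fact p.Prime] (φ : K →+* PadicAlgCl p),
      Polynomial.aeval (X p φ) Q = 0 := by
    obtain ⟨A, _, _, _, _⟩ := exists_closure
    obtain ⟨j⟩ := exists_emb K A
    have hsep : ∀ i i' (Φ : K⟮θ i⟯ →+* A) (Φ' : K⟮θ i'⟯ →+* A), i ≠ i' →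
        Φ.comp (algebraMap K K⟮θ i⟯) = Φ'.comp (algebraMap K K⟮θ i'⟯) →
        Φ (AdjoinSimple.gen K (θ i)) ≠ Φ' (AdjoinSimple.gen K (θ i')) := by
      intro i i' Φ Φ' hii h1 h2
      apply hθ i i' hii
      let alg : Algebra K A := (Φ.comp (algebraMap K K⟮θ i⟯)).toAlgebra
      have h3 : aeval (Φ (AdjoinSimple.gen K (θ i))) (minpoly K (θ i)) = 0 := by
        change eval₂ (Φ.comp (algebraMap K K⟮θ i⟯)) _ _ = 0
        rw [← hom_eval₂]
        have h4 : aeval (AdjoinSimple.gen K (θ i)) (minpoly K (θ i)) = 0 := by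
          have h5 := minpoly.aeval K (AdjoinSimple.gen K (θ i))
          rwa [minpoly_gen] at h5
        rw [aeval_def] at h4
        rw [h4, map_zero]
      have h3' : aeval (Φ (AdjoinSimple.gen K (θ i))) (minpoly K (θ i')) = 0 := by
        change eval₂ (Φ.comp (algebraMap K K⟮θ i⟯)) _ _ = 0
        rw [h1, h2, ← hom_eval₂]
        have h4 : aeval (AdjoinSimple.gen K (θ i')) (minpoly K (θ i')) = 0 := by
          have h5 := minpoly.aeval K (AdjoinSimple.gen K (θ i'))
          rwa [minpoly_gen] at h5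
        rw [aeval_def] at h4
        rw [h4, map_zero]
      rw [minpoly.eq_of_irreducible_of_monic (minpoly.irreducible (hint (θ i))) h3
        (minpoly.monic (hint (θ i))),
        minpoly.eq_of_irreducible_of_monic (minpoly.irreducible (hint (θ i'))) h3'
        (minpoly.monic (hint (θ i')))]
    have hgen : EnoughP K r → ∃ Q : Polynomial ℚ, Q ≠ 0 ∧ ∀ (p : ℕ) [Fact p.Prime]
        (φ : K →+* PadicAlgCl p), Polynomial.aeval (X p φ) Q = 0 := by
      intro hE
      exact finite_of j (I := Fin r) (fun i => K⟮θ i⟯) (fun i => algebraMap K K⟮θ i⟯)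
        (fun i => AdjoinSimple.gen K (θ i)) hDat hsep (by rwa [Fintype.card_fin])
    rcases enough with h | ⟨h, L, hL⟩ | ⟨hcm, c, hc, hreal⟩
    · exact hgen (Or.inl h)
    · exact hgen (Or.inr ⟨h, L, inferInstance, inferInstance, hL, ⟨algebraMap L K⟩⟩)
    · refine finite_of_cm j (x := X) c ?_ ?_
      · intro k
        obtain ⟨i, hi⟩ := hc k
        refine (hDat i).descend ?_ (c := c k) ?_
        · rintro ⟨z, hz⟩
          rw [hi, adjoin_simple_eq_bot_iff.2 (IntermediateField.algebraMap_mem _ (c k)),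
            IntermediateField.mem_bot] at hz
          obtain ⟨y, hy⟩ := hz
          exact ⟨y, Subtype.ext hy⟩
        · exact Subtype.ext hi.symm
      · intro h
        apply hreal
        rw [← IsCMField.complexConj_eq_self_iff, map_div₀]
        have h1 : c 2 - c 0 ≠ 0 := by
          intro h0
          apply hreal
          rw [h0, div_zero]
          exact zero_mem _
        have h2 : IsCMField.complexConj K (c 2 - c 0) ≠ 0 :=
          (map_ne_zero (IsCMField.complexConj K)).2 h1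
        rw [div_eq_div_iff h2 h1]
        exact h.symm
  obtain ⟨Q, hQ, hQX⟩ := hfin
  have hr : ∃ i : Fin r, True := by
    rcases enough with h | ⟨h, -⟩ | ⟨-, c, hc, -⟩
    · have h1 : 0 < Module.finrank ℚ K := Module.finrank_pos
      exact ⟨⟨0, by omega⟩, trivial⟩
    · have h1 : 0 < Module.finrank ℚ K := Module.finrank_pos
      exact ⟨⟨0, by omega⟩, trivial⟩
    · obtain ⟨i, -⟩ := hc 0
      exact ⟨i, trivial⟩
  obtain ⟨i0, -⟩ := hr
  obtain ⟨ξ, hξ⟩ := adelic_point (hDat i0) Q hQ hQX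
  have heval : ∀ i, (minpoly K (θ i)).eval ξ ≠ 0 := by
    intro i h
    obtain ⟨φ⟩ : Nonempty (K →+* PadicAlgCl 2) := inferInstance
    apply hne 2 φ i
    rw [hξ, eval₂_at_apply, h, map_zero]
  refine ⟨ξ, heval, hξ, fun i N hN => ?_⟩
  refine s.abelian x (θ i) (hroot i) P hP ξ (fun p _ φ => ?_) ?_ N hN
  · rw [← hξ]
    exact hX p φ
  · intro h
    apply heval i
    have h1 := minpoly.aeval K (θ i)
    rw [← h, aeval_algebraMap_apply, map_eq_zero] at h1
    rw [h] at h1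
    exact h1

end main

end Pool.Agent.Q33.SecL
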