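import Pool.Agent.Q33.SecL.OrdP

/-!
# CM fields: the quotient of an adelic number and its complex conjugate
-/

set_option autoImplicit false
set_option linter.unusedSectionVars false

namespace Pool.Agent.Q33.SecL

open NumberField IsDedekindDomain Pool.Agent.W518.TC

variable {L : Type} [Field L] [NumberField L]

lemma finite_dvd {I : Ideal (𝓞 L)} (hI : I ≠ 0) :
    {v : HeightOneSpectrum (𝓞 L) | v.asIdeal ∣ I}.Finite := Ideal.finite_factors hI

lemma finite_ord {x : L} (hx : x ≠ 0) : {v : HeightOneSpectrum (𝓞 L) | ord v x ≠ 0}.Finite := by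
  obtain ⟨a, b, hb, rfl⟩ := IsFractionRing.div_surjective (A := 𝓞 L) x
  have hb0 : b ≠ 0 := nonZeroDivisors.ne_zero hb
  have ha0 : a ≠ 0 := by
    rintro rfl
    rw [map_zero, zero_div] at hx
    exact hx rfl
  have key : ∀ a : 𝓞 L, a ≠ 0 →
      {v : HeightOneSpectrum (𝓞 L) | ord v (algebraMap (𝓞 L) L a) ≠ 0}.Finite := by
    intro a ha
    refine (finite_dvd (I := Ideal.span {a}) (by simpa using ha)).subset fun v hv => ?_
    rw [Set.mem_ofPred_eq, Ideal.dvd_span_singleton]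
    by_contra hc
    apply hv
    have ha' : algebraMap (𝓞 L) L a ≠ 0 := by simpa using ha
    rw [ord_eq_zero_iff _ ha']
    exact (HeightOneSpectrum.valuation_eq_one_iff_notMem (K := L) v (r := a)).2 hc
  refine ((key a ha0).union (key b hb0)).subset fun v hv => ?_
  by_contra hc
  apply hv
  rw [Set.mem_union, not_or] at hc
  have h1 : ord v (algebraMap (𝓞 L) L a) = 0 := by
    by_contra h
    exact hc.1 h
  have h2 : ord v (algebraMap (𝓞 L) L b) = 0 := by
    by_contra h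
    exact hc.2 h
  rw [ord_div v (by simpa using ha0) (by simpa using hb0), h1, h2, sub_zero]

/-- elements with given orders, up to the class number -/
lemma exists_prod {h : ℕ} {β : HeightOneSpectrum (𝓞 L) → L} (hβ0 : ∀ v, β v ≠ 0)
    (hβv : ∀ v, ord v (β v) = h) (hβw : ∀ v w, w ≠ v → ord w (β v) = 0)
    (f : HeightOneSpectrum (𝓞 L) → ℤ) (hf : {v | f v ≠ 0}.Finite) :
    ∃ δ : L, δ ≠ 0 ∧ ∀ w, ord w δ = h * f w := by
  classical
  refine ⟨∏ v ∈ hf.toFinset, β v ^ f v, Finset.prod_ne_zero_iff.2 fun v _ =>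
    zpow_ne_zero _ (hβ0 v), fun w => ?_⟩
  rw [ord_prod w _ _ (fun v _ => zpow_ne_zero _ (hβ0 v))]
  by_cases hw : f w = 0
  · rw [hw, mul_zero]
    apply Finset.sum_eq_zero
    intro v hv
    rw [ord_zpow]
    have hvw : w ≠ v := by
      rintro rfl
      exact (hf.mem_toFinset.1 hv) hw
    rw [hβw v w hvw, mul_zero]
  · rw [Finset.sum_eq_single w]
    · rw [ord_zpow, hβv]
      ring
    · intro v _ hvw
      rw [ord_zpow, hβw v w (Ne.symm hvw), mul_zero]
    · intro hn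
      exact absurd (hf.mem_toFinset.2 hw) hn

variable [IsCMField L]

/-- complex conjugation -/
noncomputable def cc (L : Type) [Field L] [NumberField L] [IsCMField L] : L →+* L :=
  (IsCMField.complexConj L : L →+* L)

lemma cc_cc (x : L) : cc L (cc L x) = x := IsCMField.complexConj_apply_apply L x

/-- units and their complex conjugates -/
lemma unit_quotient {ε : L} (hε : ε ≠ 0) (h : ∀ v, ord v ε = 0) {T : ℕ}
    (hT : ∀ y : L, (∃ n : ℕ, 0 < n ∧ y ^ n = 1) → y ^ T = 1) : (ε / cc L ε) ^ T = 1 := by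
  apply hT
  have h0 : cc L ε ≠ 0 := (map_ne_zero _).2 hε
  have hi : IsIntegral ℤ ε := (isIntegral_iff_ord hε).2 fun v => (h v).ge
  have hi' : IsIntegral ℤ ε⁻¹ := (isIntegral_iff_ord (inv_ne_zero hε)).2 fun v => by
    rw [ord_inv, h v, neg_zero]
  have hc : IsIntegral ℤ (cc L ε) := hi.map (cc L).toIntAlgHom
  have hc' : IsIntegral ℤ (cc L ε)⁻¹ := by
    rw [← map_inv₀]
    exact hi'.map (cc L).toIntAlgHom
  apply torsion_of_ord_norm (div_ne_zero hε h0)
  · intro v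
    rw [ord_div v hε h0, h v]
    have h1 := (isIntegral_iff_ord h0).1 hc v
    have h2 := (isIntegral_iff_ord (inv_ne_zero h0)).1 hc' v
    rw [ord_inv] at h2
    omega
  · intro φ
    rw [map_div₀, norm_div]
    have h1 : φ (cc L ε) = (starRingEnd ℂ) (φ ε) := IsCMField.complexEmbedding_complexConj L φ ε
    rw [h1, Complex.norm_conj, div_self]
    exact norm_ne_zero_iff.2 ((map_ne_zero φ).2 hε)

/-- **The CM lemma.** -/
theorem cm_lemma (Mf : ∀ (p : ℕ) [Fact p.Prime], IntermediateField ℚ_[p] (PadicAlgCl p))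
    (hMf : ∀ (p : ℕ) [Fact p.Prime], FiniteDimensional ℚ_[p] (Mf p))
    (hMμ : ∀ (p : ℕ) [Fact p.Prime] (μ : L →+* PadicAlgCl p) (x : L), μ x ∈ Mf p)
    (Y : ∀ (p : ℕ) [Fact p.Prime], (L →+* PadicAlgCl p) → PadicAlgCl p)
    (hY0 : ∀ (p : ℕ) [Fact p.Prime] (μ : L →+* PadicAlgCl p), Y p μ ≠ 0)
    (q : ℕ → L) (hq0 : ∀ k, q k ≠ 0)
    (key : ∀ (p : ℕ) [Fact p.Prime] (μ : L →+* PadicAlgCl p) (k : ℕ), ∃ w ∈ Mf p,
      (∃ z : ℤ, ‖w‖ = (p : ℝ) ^ z) ∧ Y p μ = μ (q k) * w ^ k.factorial)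
    (D : ℕ) (hD : 0 < D)
    (hunit : ∀ (p : ℕ) [Fact p.Prime] (μ : L →+* PadicAlgCl p), ¬ p ∣ D → ‖Y p μ‖ = 1) :
    ∃ h : ℕ, 0 < h ∧ ∃ η : L, η ≠ 0 ∧ ∀ (p : ℕ) [Fact p.Prime] (μ : L →+* PadicAlgCl p),
      (Y p μ / Y p (μ.comp (cc L))) ^ h = μ η := by
  classical
  obtain ⟨h, hh, H⟩ := exists_gen L
  choose β hβ0 hβint hβv hβw using H
  obtain ⟨T, hT0, hT⟩ := exists_torsion_exponent L
  -- embeddings for all primes
  choose pp hpp mu hmu using exists_pv (L := L)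
  -- the orders of `Y`
  have hb : ∀ v, ∃ b : L, b ≠ 0 ∧ ‖@Y (pp v) (hpp v) (mu v)‖ = ‖mu v b‖ := by
    intro v
    have := hpp v
    obtain ⟨w, -, ⟨z, hz⟩, hw⟩ := key (pp v) (mu v) 0
    have hp0 : ((pp v : ℕ) : L) ≠ 0 := by exact_mod_cast (hpp v).out.ne_zero
    refine ⟨q 0 * ((pp v : ℕ) : L) ^ (-z), mul_ne_zero (hq0 0) (zpow_ne_zero _ hp0), ?_⟩
    rw [hw, Nat.factorial_zero, pow_one, norm_mul, hz, map_mul, norm_mul, map_zpow₀, norm_zpow,
      map_natCast]
    have h1 : ‖((pp v : ℕ) : PadicAlgCl (pp v))‖ = ((pp v : ℕ) : ℝ)⁻¹ := by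
      have h2 := norm_base (p := pp v) ((pp v : ℕ) : ℚ_[pp v])
      rw [map_natCast] at h2
      rw [h2, Padic.norm_p]
    rw [h1, inv_zpow, zpow_neg, inv_inv]
  choose b hb0 hb using hb
  let r : HeightOneSpectrum (𝓞 L) → ℤ := fun v => ord v (b v)
  have hz : ∀ k v, ∃ z : ℤ, ord v (q k) = r v + k.factorial * z := by
    intro k v
    have := hpp v
    obtain ⟨w, -, ⟨z, hz⟩, hw⟩ := key (pp v) (mu v) k
    have hp0 : ((pp v : ℕ) : L) ≠ 0 := by exact_mod_cast (hpp v).out.ne_zero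
    refine ⟨z * ord v ((pp v : ℕ) : L), ?_⟩
    have h1 : ‖((pp v : ℕ) : PadicAlgCl (pp v))‖ = ((pp v : ℕ) : ℝ)⁻¹ := by
      have h2 := norm_base (p := pp v) ((pp v : ℕ) : ℚ_[pp v])
      rw [map_natCast] at h2
      rw [h2, Padic.norm_p]
    have h2 : ‖mu v (q k * (((pp v : ℕ) : L) ^ (-z)) ^ k.factorial)‖ = ‖mu v (b v)‖ := by
      rw [← hb v, hw, norm_mul, norm_pow, hz, map_mul, norm_mul, map_pow, norm_pow, map_zpow₀,
        norm_zpow, map_natCast, h1, inv_zpow, zpow_neg, inv_inv]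
    have h3 := ord_eq_of_norm_eq (mu v) (mul_ne_zero (hq0 k) (pow_ne_zero _ (zpow_ne_zero _ hp0)))
      (hb0 v) h2
    rw [hmu v, ord_mul v (hq0 k) (pow_ne_zero _ (zpow_ne_zero _ hp0)), ord_pow, ord_zpow] at h3
    simp only [r]
    rw [← h3]
    ring
  choose z hz using hz
  have hr : {v | r v ≠ 0}.Finite := by
    have hD0 : ((D : ℕ) : 𝓞 L) ≠ 0 := by exact_mod_cast hD.ne'
    refine (finite_dvd (I := Ideal.span {((D : ℕ) : 𝓞 L)}) (by simpa using hD.ne')).subset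
      fun v hv => ?_
    rw [Set.mem_ofPred_eq, Ideal.dvd_span_singleton]
    have := hpp v
    have hpD : pp v ∣ D := by
      by_contra hc
      apply hv
      have h1 := hunit (pp v) (mu v) hc
      rw [hb v] at h1
      have h2 := ord_eq_of_norm_eq (mu v) (hb0 v) one_ne_zero (by rw [h1, map_one, norm_one])
      rw [hmu v, ord_one] at h2
      exact h2
    obtain ⟨m, hm⟩ := hpD
    have h1 : ((pp v : ℕ) : 𝓞 L) ∈ v.asIdeal := by
      have h2 := natCast_mem_primeOf (mu v)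
      have h3 : primeOf (mu v) = v.asIdeal := congrArg HeightOneSpectrum.asIdeal (hmu v)
      rw [h3] at h2
      exact h2
    rw [hm, Nat.cast_mul]
    exact Ideal.mul_mem_right _ _ h1
  have hzf : ∀ k, {v | z k v ≠ 0}.Finite := by
    intro k
    refine (hr.union (finite_ord (hq0 k))).subset fun v hv => ?_
    by_contra hc
    rw [Set.mem_union, not_or] at hc
    have h1 : r v = 0 := by
      by_contra h
      exact hc.1 h
    have h2 : ord v (q k) = 0 := by
      by_contra h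
      exact hc.2 h
    apply hv
    have h3 := hz k v
    rw [h1, h2, zero_add] at h3
    have h4 : (k.factorial : ℤ) ≠ 0 := by exact_mod_cast Nat.factorial_ne_zero k
    exact (mul_eq_zero.1 h3.symm).resolve_left h4
  obtain ⟨δ, hδ0, hδ⟩ := exists_prod hβ0 hβv hβw r hr
  choose g hg0 hg using fun k => exists_prod hβ0 hβv hβw (z k) (hzf k)
  have hδc : cc L δ ≠ 0 := (map_ne_zero _).2 hδ0
  have hunits : ∀ k, (q k / cc L (q k)) ^ (h * T) =
      (δ / cc L δ) ^ T * (((g k / cc L (g k)) ^ T)) ^ k.factorial := by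
    intro k
    have hqc : cc L (q k) ≠ 0 := (map_ne_zero _).2 (hq0 k)
    have hgc : cc L (g k) ≠ 0 := (map_ne_zero _).2 (hg0 k)
    have hgp : g k ^ k.factorial ≠ 0 := pow_ne_zero _ (hg0 k)
    have hεd : δ * g k ^ k.factorial ≠ 0 := mul_ne_zero hδ0 hgp
    have hε0 : q k ^ h / (δ * g k ^ k.factorial) ≠ 0 := div_ne_zero (pow_ne_zero _ (hq0 k)) hεd
    have h1 := unit_quotient hε0 (fun v => by
      rw [ord_div v (pow_ne_zero _ (hq0 k)) hεd, ord_mul v hδ0 hgp, ord_pow, ord_pow, hδ, hg, hz k v]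
      ring) hT
    have h2 : q k ^ h / (δ * g k ^ k.factorial) / cc L (q k ^ h / (δ * g k ^ k.factorial)) =
        (q k / cc L (q k)) ^ h / ((δ / cc L δ) * (g k / cc L (g k)) ^ k.factorial) := by
      rw [map_div₀, map_mul, map_pow, map_pow, div_pow, div_pow]
      field_simp
    rw [h2, div_pow, div_eq_one_iff_eq (by
      refine pow_ne_zero _ (mul_ne_zero (div_ne_zero hδ0 hδc) (pow_ne_zero _
        (div_ne_zero (hg0 k) hgc)))), mul_pow, ← pow_mul, ← pow_mul, mul_comm k.factorial,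
      pow_mul (g k / cc L (g k))] at h1
    exact h1
  refine ⟨h * T, Nat.mul_pos hh hT0, (δ / cc L δ) ^ T, pow_ne_zero _ (div_ne_zero hδ0 hδc), ?_⟩
  intro p _ μ
  have hη0 : μ ((δ / cc L δ) ^ T) ≠ 0 := (map_ne_zero μ).2 (pow_ne_zero _ (div_ne_zero hδ0 hδc))
  have h1 : (Y p μ / Y p (μ.comp (cc L))) ^ (h * T) / μ ((δ / cc L δ) ^ T) = 1 := by
    refine eq_one_of_powers (Mf p) (hMf p) (div_ne_zero (pow_ne_zero _ (div_ne_zero (hY0 p μ)
      (hY0 p _))) hη0) fun B => ?_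
    obtain ⟨w, hw, -, hwY⟩ := key p μ B
    obtain ⟨w', hw', -, hwY'⟩ := key p (μ.comp (cc L)) B
    have hw0 : w' ≠ 0 := by
      rintro rfl
      rw [zero_pow (Nat.factorial_ne_zero _), mul_zero] at hwY'
      exact hY0 p _ hwY'
    refine ⟨B, le_rfl, μ ((g B / cc L (g B)) ^ T) * (w / w') ^ (h * T),
      mul_mem (hMμ p μ _) (pow_mem (div_mem hw hw') _), ?_⟩
    have h2 : Y p μ / Y p (μ.comp (cc L)) = μ (q B / cc L (q B)) * (w / w') ^ B.factorial := by
      rw [hwY, hwY', map_div₀, div_pow]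
      change μ (q B) * w ^ B.factorial / (μ (cc L (q B)) * w' ^ B.factorial) = _
      rw [mul_div_mul_comm]
    have h3 : (Y p μ / Y p (μ.comp (cc L))) ^ (h * T) = μ ((δ / cc L δ) ^ T) *
        (μ ((g B / cc L (g B)) ^ T) * (w / w') ^ (h * T)) ^ B.factorial := by
      rw [h2, mul_pow _ _ (h * T), ← map_pow μ, hunits B, map_mul, map_pow μ (_ ^ T), mul_pow,
        mul_assoc, ← pow_mul (w / w'), ← pow_mul (w / w'), mul_comm (h * T)]
    rw [h3, mul_div_cancel_left₀ _ hη0]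
  exact (div_eq_one_iff_eq hη0).1 h1

end Pool.Agent.Q33.SecL
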