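import Pool.Agent.Q33.SecL.Frob

/-!
# Automorphisms fixing one of the radicals
-/

set_option autoImplicit false
set_option linter.unusedSectionVars false

namespace Pool.Agent.Q33.SecL

open Polynomial NumberField

/-- the element `x` is in `ℚ_p` -/
def InBase {p : ℕ} [Fact p.Prime] (x : PadicAlgCl p) : Prop :=
  ∃ y : ℚ_[p], algebraMap ℚ_[p] (PadicAlgCl p) y = x

section base

variable {p : ℕ} [Fact p.Prime] {x y : PadicAlgCl p}

lemma InBase.mul (hx : InBase x) (hy : InBase y) : InBase (x * y) := by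
  obtain ⟨a, rfl⟩ := hx
  obtain ⟨b, rfl⟩ := hy
  exact ⟨a * b, map_mul _ _ _⟩

lemma InBase.add (hx : InBase x) (hy : InBase y) : InBase (x + y) := by
  obtain ⟨a, rfl⟩ := hx
  obtain ⟨b, rfl⟩ := hy
  exact ⟨a + b, map_add _ _ _⟩

lemma InBase.inv (hx : InBase x) : InBase x⁻¹ := by
  obtain ⟨a, rfl⟩ := hx
  exact ⟨a⁻¹, map_inv₀ _ _⟩

lemma InBase.rat (q : ℚ) : InBase (q : PadicAlgCl p) := ⟨q, map_ratCast _ _⟩

lemma InBase.int (q : ℤ) : InBase (q : PadicAlgCl p) := ⟨q, map_intCast _ _⟩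

lemma InBase.sum {ι : Type} (s : Finset ι) {f : ι → PadicAlgCl p} (h : ∀ i ∈ s, InBase (f i)) :
    InBase (∑ i ∈ s, f i) := by
  classical
  induction s using Finset.induction_on with
  | empty => exact ⟨0, by rw [map_zero, Finset.sum_empty]⟩
  | insert i s hi ih =>
    rw [Finset.sum_insert hi]
    exact (h i (Finset.mem_insert_self _ _)).add
      (ih fun j hj => h j (Finset.mem_insert_of_mem hj))

end base

section field

variable {A : Type} [Field A] [CharZero A] [IsAlgClosed A] [Algebra.IsAlgebraic ℚ A]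

/-- the conjugates of an element -/
noncomputable def conj (t : A) : Finset A :=
  open scoped Classical in ((minpoly ℚ t).aroots A).toFinset

lemma mem_conj {t x : A} : x ∈ conj t ↔ aeval x (minpoly ℚ t) = 0 := by
  classical
  unfold conj
  rw [Multiset.mem_toFinset, mem_aroots]
  have : minpoly ℚ t ≠ 0 := minpoly.ne_zero (Algebra.IsAlgebraic.isAlgebraic t).isIntegral
  exact ⟨fun h => h.2, fun h => ⟨this, h⟩⟩

lemma self_mem_conj (t : A) : t ∈ conj t := mem_conj.2 (minpoly.aeval ℚ t)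

/-- roots of rational polynomials come from `A` -/
lemma exists_root {p : ℕ} [Fact p.Prime] (ψ : A →+* PadicAlgCl p) {f : ℚ[X]} (hf : f ≠ 0)
    {w : PadicAlgCl p} (hw : aeval w f = 0) : ∃ x : A, aeval x f = 0 ∧ ψ x = w := by
  have hs : (f.map (algebraMap ℚ A)).Splits := IsAlgClosed.splits _
  have h0 : f.map (algebraMap ℚ A) ≠ 0 :=
    (Polynomial.map_ne_zero_iff (algebraMap ℚ A).injective).2 hf
  have e1 : ψ.comp (algebraMap ℚ A) = algebraMap ℚ (PadicAlgCl p) := Subsingleton.elim _ _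
  obtain ⟨x, hx⟩ := hs.mem_range_of_isRoot (i := ψ) (x := w) h0 (by
    rw [Polynomial.IsRoot.def, Polynomial.eval_map, Polynomial.eval₂_map, e1]
    exact hw)
  refine ⟨x, ?_, hx⟩
  apply ψ.injective
  rw [map_zero, ← hw, ← hx, aeval_def, aeval_def, hom_eval₂, e1]

lemma inBase_of_frob {p : ℕ} [Fact p.Prime] (ψ : A →+* PadicAlgCl p) {t : A}
    (ht : IsIntegral ℤ t) (hd : ∀ x ∈ conj t, x ≠ t → ‖ψ (x - t)‖ = 1)
    (hf : ‖ψ t - ψ t ^ p‖ < 1) : InBase (ψ t) := by
  apply exists_base_of_fixed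
  intro σ
  have hle : ‖ψ t‖ ≤ 1 := norm_le_one_of_isIntegral (ht.map ψ.toIntAlgHom)
  obtain ⟨m, hm⟩ := near_int hle (by rw [← norm_neg, neg_sub]; exact hf)
  have hm' : ‖σ (ψ t) - m‖ < 1 := by
    have e : σ (ψ t) - (m : PadicAlgCl p) = σ (ψ t - m) := by rw [map_sub, map_intCast]
    rw [e, norm_aut]
    exact hm
  have hroot : aeval (σ (ψ t)) (minpoly ℚ t) = 0 := by
    have e1 : ((σ : PadicAlgCl p →+* PadicAlgCl p).comp ψ).comp (algebraMap ℚ A) =
      algebraMap ℚ (PadicAlgCl p) := Subsingleton.elim _ _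
    have h1 := congrArg ((σ : PadicAlgCl p →+* PadicAlgCl p).comp ψ) (minpoly.aeval ℚ t)
    rw [map_zero, aeval_def, hom_eval₂, e1] at h1
    exact h1
  obtain ⟨x, hx, hxσ⟩ := exists_root ψ
    (minpoly.ne_zero (Algebra.IsAlgebraic.isAlgebraic t).isIntegral) hroot
  by_cases hxt : x = t
  · rw [← hxσ, hxt]
  · exfalso
    have h1 := hd x (mem_conj.2 hx) hxt
    have h2 : ‖ψ (x - t)‖ < 1 := by
      have e : ψ (x - t) = (σ (ψ t) - m) + -(ψ t - m) := by rw [map_sub, hxσ]; ring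
      rw [e]
      refine lt_of_le_of_lt (IsUltrametricDist.norm_add_le_max _ _) (max_lt hm' ?_)
      rw [norm_neg]
      exact hm
    linarith

lemma exists_basis (E : IntermediateField ℚ A) (hE : FiniteDimensional ℚ E) :
    ∃ (r : ℕ) (b : Fin r → A), (∀ i, b i ∈ E) ∧ (∀ i, IsIntegral ℤ (b i)) ∧
      ∀ x ∈ E, ∃ c : Fin r → ℚ, x = ∑ i, (c i : A) * b i := by
  classical
  let B := Module.finBasis ℚ E
  have halg : ∀ e : A, IsAlgebraic ℤ e := fun e =>
    (IsFractionRing.isAlgebraic_iff ℤ ℚ A).2 (Algebra.IsAlgebraic.isAlgebraic e)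
  choose d hd hint using fun i => (halg (B i : A)).exists_integral_multiple
  refine ⟨_, fun i => d i • (B i : A), fun i => ?_, hint, fun x hx => ?_⟩
  · exact zsmul_mem (B i).2 _
  · refine ⟨fun i => B.repr ⟨x, hx⟩ i / d i, ?_⟩
    have h1 := B.sum_repr ⟨x, hx⟩
    have h2 := congrArg (fun z : E => (z : A)) h1
    refine h2.symm.trans ?_
    simp only
    rw [AddSubmonoidClass.coe_finsetSum]
    refine Finset.sum_congr rfl fun i _ => ?_
    have h3 : ((B.repr ⟨x, hx⟩ i • B i : E) : A) = (B.repr ⟨x, hx⟩ i : A) * (B i : A) := by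
      rw [← Rat.smul_def]
      rfl
    rw [h3, zsmul_eq_mul]
    have h4 : (d i : A) ≠ 0 := by exact_mod_cast hd i
    push_cast
    field_simp

/-- **Claim C.** -/
theorem claimC (E : IntermediateField ℚ A) (hE : FiniteDimensional ℚ E) {ι : Type} [Fintype ι]
    {N : ℕ} (hN : 0 < N) (α β : ι → A) (hα : ∀ i, α i ∈ E) (hα0 : ∀ i, α i ≠ 0)
    (hβ : ∀ i, β i ^ N = α i)
    (h : ∀ (p : ℕ) [Fact p.Prime] (ψ : A →+* PadicAlgCl p), (∀ x ∈ E, InBase (ψ x)) →
      ∃ i, ∃ u : PadicAlgCl p, InBase u ∧ ψ (α i) = u ^ N)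
    (g : A ≃ₐ[ℚ] A) (hg : ∀ x ∈ E, g x = x) (hgN : ∀ ζ : A, ζ ^ N = 1 → g ζ = ζ) :
    ∃ i, g (β i) = β i := by
  classical
  obtain ⟨r, b, hbE, hbint, hb⟩ := exists_basis E hE
  have halg : ∀ e : A, IsAlgebraic ℤ e := fun e =>
    (IsFractionRing.isAlgebraic_iff ℤ ℚ A).2 (Algebra.IsAlgebraic.isAlgebraic e)
  choose d hd hint using fun i => (halg (β i)).exists_integral_multiple
  have hβ0 : ∀ i, β i ≠ 0 := by
    intro i hi
    apply hα0 i
    rw [← hβ i, hi, zero_pow hN.ne']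
  let μ : Finset A := nthRootsFinset N (1 : A)
  have hμ : ∀ ζ, ζ ∈ μ ↔ ζ ^ N = 1 := fun ζ => mem_nthRootsFinset hN _
  let T : Finset A := Finset.univ.image b ∪ μ
  have hTint : ∀ t ∈ T, IsIntegral ℤ t := by
    intro t ht
    rcases Finset.mem_union.1 ht with h1 | h1
    · obtain ⟨i, -, rfl⟩ := Finset.mem_image.1 h1
      exact hbint i
    · refine ⟨X ^ N - 1, monic_X_pow_sub_C 1 hN.ne', ?_⟩
      simp [(hμ t).1 h1]
  have hTg : ∀ t ∈ T, g t = t := by
    intro t ht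
    rcases Finset.mem_union.1 ht with h1 | h1
    · obtain ⟨i, -, rfl⟩ := Finset.mem_image.1 h1
      exact hg _ (hbE i)
    · exact hgN t ((hμ t).1 h1)
  let S : Finset A := (Finset.univ.image (fun i => d i • β i)) ∪
    ((μ.filter (fun ζ => ζ ≠ 1)).image (fun ζ => ζ - 1)) ∪
    T.biUnion (fun t => ((conj t).filter (fun x => x ≠ t)).image (fun x => x - t))
  have hS0 : ∀ e ∈ S, e ≠ 0 := by
    intro e he
    simp only [S, Finset.mem_union, Finset.mem_image, Finset.mem_biUnion, Finset.mem_filter,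
      Finset.mem_univ, true_and] at he
    rcases he with (⟨i, rfl⟩ | ⟨ζ, ⟨-, h1⟩, rfl⟩) | ⟨t, -, x, ⟨-, h1⟩, rfl⟩
    · rw [zsmul_eq_mul]
      exact mul_ne_zero (by exact_mod_cast hd i) (hβ0 i)
    · exact sub_ne_zero.2 h1
    · exact sub_ne_zero.2 h1
  obtain ⟨D, hD0, hD⟩ := units_ae S hS0
  obtain ⟨p, hpD, hp, ψ, hψ⟩ := exists_frob_set g (T ∪ Finset.univ.image (fun i => d i • β i)) D
  have hunit : ∀ e ∈ S, ‖ψ e‖ = 1 := hD p (fun h1 => by
    have := Nat.le_of_dvd hD0 h1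
    omega) ψ
  have hTbase : ∀ t ∈ T, InBase (ψ t) := by
    intro t ht
    refine inBase_of_frob ψ (hTint t ht) ?_ ?_
    · intro x hx hxt
      apply hunit
      apply Finset.mem_union_right
      exact Finset.mem_biUnion.2 ⟨t, ht, Finset.mem_image.2 ⟨x, Finset.mem_filter.2 ⟨hx, hxt⟩, rfl⟩⟩
    · have h1 := hψ t (Finset.mem_union_left _ ht) (hTint t ht)
      rw [hTg t ht] at h1
      exact h1
  have hEbase : ∀ x ∈ E, InBase (ψ x) := by
    intro x hx
    obtain ⟨c, hc⟩ := hb x hx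
    rw [hc, map_sum]
    refine InBase.sum _ fun i _ => ?_
    rw [map_mul, map_ratCast]
    exact (InBase.rat _).mul (hTbase _ (Finset.mem_union_left _
      (Finset.mem_image.2 ⟨i, Finset.mem_univ i, rfl⟩)))
  obtain ⟨i, u, hu, hui⟩ := h p ψ hEbase
  refine ⟨i, ?_⟩
  have hu0 : u ≠ 0 := by
    rintro rfl
    rw [zero_pow hN.ne'] at hui
    exact hα0 i ((map_eq_zero ψ).1 hui)
  -- the radical is in `ℚ_p`
  have hβbase : InBase (ψ (β i)) := by
    have h1 : (ψ (β i) / u) ^ N = 1 := by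
      rw [div_pow, ← map_pow, hβ i, hui, div_self (pow_ne_zero _ hu0)]
    obtain ⟨ζ, hζ, hζψ⟩ := exists_root ψ (f := X ^ N - 1)
      (monic_X_pow_sub_C (1 : ℚ) hN.ne').ne_zero (w := ψ (β i) / u) (by
        simp [h1])
    have hζN : ζ ^ N = 1 := by
      simp only [map_sub, map_pow, aeval_X, map_one] at hζ
      exact sub_eq_zero.1 hζ
    have h2 : ψ (β i) = ψ ζ * u := by rw [hζψ, div_mul_cancel₀ _ hu0]
    rw [h2]
    exact (hTbase ζ (Finset.mem_union_right _ ((hμ ζ).2 hζN))).mul hu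
  -- the Frobenius
  have h1 := hψ (d i • β i) (Finset.mem_union_right _
    (Finset.mem_image.2 ⟨i, Finset.mem_univ i, rfl⟩)) (hint i)
  have hB : InBase (ψ (d i • β i)) := by
    rw [zsmul_eq_mul, map_mul, map_intCast]
    exact (InBase.int _).mul hβbase
  have hle : ‖ψ (d i • β i)‖ ≤ 1 := norm_le_one_of_isIntegral ((hint i).map ψ.toIntAlgHom)
  have h2 : ‖ψ (d i • β i) ^ p - ψ (d i • β i)‖ < 1 := by
    obtain ⟨y, hy⟩ := hB
    rw [← hy] at hle ⊢
    rw [← map_pow, ← map_sub, norm_base]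
    rw [norm_base] at hle
    exact fermat hle
  have h3 : ‖ψ (g (d i • β i) - d i • β i)‖ < 1 := by
    have e : ψ (g (d i • β i) - d i • β i) = (ψ (g (d i • β i)) - ψ (d i • β i) ^ p) +
      (ψ (d i • β i) ^ p - ψ (d i • β i)) := by rw [map_sub]; ring
    rw [e]
    exact lt_of_le_of_lt (IsUltrametricDist.norm_add_le_max _ _) (max_lt h1 h2)
  by_contra hne
  have hζ : (g (β i) / β i) ^ N = 1 := by
    rw [div_pow, ← map_pow, hβ i]
    rw [hg _ (hα i), div_self (hα0 i)]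
  have hζ1 : g (β i) / β i ≠ 1 := fun h4 => hne ((div_eq_one_iff_eq (hβ0 i)).1 h4)
  have h4 : ‖ψ (g (β i) / β i - 1)‖ = 1 := by
    apply hunit
    apply Finset.mem_union_left
    apply Finset.mem_union_right
    exact Finset.mem_image.2 ⟨_, Finset.mem_filter.2 ⟨(hμ _).2 hζ, hζ1⟩, rfl⟩
  have h5 : ‖ψ (d i • β i)‖ = 1 := by
    apply hunit
    apply Finset.mem_union_left
    apply Finset.mem_union_left
    exact Finset.mem_image.2 ⟨i, Finset.mem_univ i, rfl⟩
  have h6 : g (d i • β i) - d i • β i = (g (β i) / β i - 1) * (d i • β i) := by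
    rw [map_zsmul, zsmul_eq_mul, zsmul_eq_mul]
    field_simp [hβ0 i]
  rw [h6, map_mul, norm_mul, h4, h5, one_mul] at h3
  exact lt_irrefl _ h3

end field

end Pool.Agent.Q33.SecL
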