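import Mathlib
import Pool.Agent.W620.SC.Def

/-!
# Sections of fundamental groups of curves, and points over local fields
-/

set_option autoImplicit false

namespace Pool.Agent.Q33.SecL

/-- Let `F` and `B` be extensions of the field `K` and `M` an extension of `F` in which `B` is
embedded by `j`. A section of `Gal(M/F) → Gal(B/K)` is a continuous homomorphism `s` from
`Gal(B/K)` to `Gal(M/F)` such that `s g` acts on the elements of `B` as `g`. -/
structure GalSec (K F M B : Type) [Field K] [Field F] [Field M] [Field B] [Algebra F M]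
    [Algebra K M] [Algebra K B] where
  /-- the embedding of `B` in `M` -/
  j : B →ₐ[K] M
  /-- the homomorphism -/
  s : (B ≃ₐ[K] B) →* (M ≃ₐ[F] M)
  cont : Continuous s
  sec : ∀ (g : B ≃ₐ[K] B) (z : B), s g (j z) = j (g z)

/-- Let `φ` be an embedding of `K` in the algebraic closure `Ω_p` of `ℚ_p`, and `M` an extension of
`K`. A point of `M` over `φ` is a valuation ring `W` of `M` containing `K` with a homomorphism `ρ` to
`Ω_p`, which is `φ` on `K` and whose kernel is the maximal ideal of `W`. -/
structure Pt (K M : Type) [Field K] [Field M] [Algebra K M] {p : ℕ} [Fact p.Prime]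
    (φ : K →+* PadicAlgCl p) where
  /-- the valuation ring -/
  W : ValuationSubring M
  /-- the evaluation of the elements of `W` -/
  ρ : W →+* PadicAlgCl p
  loc : ∀ y : W, ρ y ≠ 0 → (y : M)⁻¹ ∈ W
  comm : ∀ c : K, ∃ h : algebraMap K M c ∈ W, ρ ⟨algebraMap K M c, h⟩ = φ c

/-- `y` has the value `c` at the point -/
def Pt.Val {K M : Type} [Field K] [Field M] [Algebra K M] {p : ℕ} [Fact p.Prime]
    {φ : K →+* PadicAlgCl p} (P : Pt K M φ) (y : M) (c : PadicAlgCl p) : Prop :=
  ∃ h : y ∈ P.W, P.ρ ⟨y, h⟩ = c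

/-- The section `s` is given, over the completion of `K` that belongs to `φ`, by the point `P`:
whenever an automorphism `σ` of `Ω_p` over `ℚ_p` and `φ(K)`, and `g ∈ Gal(B/K)`, are compatible
on `B`, the point turns `s g` into `σ`. -/
def GalSec.GivenBy {K F M B : Type} [Field K] [Field F] [Field M] [Field B] [Algebra F M]
    [Algebra K M] [Algebra K B] (s : GalSec K F M B) {p : ℕ} [Fact p.Prime]
    {φ : K →+* PadicAlgCl p} (P : Pt K M φ) : Prop :=
  ∀ (σ : PadicAlgCl p ≃ₐ[ℚ_[p]] PadicAlgCl p) (g : B ≃ₐ[K] B), (∀ c : K, σ (φ c) = φ c) →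
    (∀ z c, P.Val (s.j z) c → P.Val (s.j (g z)) (σ c)) →
    ∀ y c, P.Val y c → P.Val (s.s g y) (σ c)

end Pool.Agent.Q33.SecL
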