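import Mathlib

/-!
# Systems of polynomial equations without solutions at infinity have finitely many solutions
-/

set_option autoImplicit false
set_option linter.unusedSectionVars false

namespace Pool.Agent.Q33.SecL

open MvPolynomial

variable {A : Type} [Field A] [IsAlgClosed A]

lemma mem_range_of_valuation {Ω : Type} [Field Ω] (ψ : A →+* Ω) {x : Ω}
    (h : ∀ W : ValuationSubring Ω, (∀ a, ψ a ∈ W) → x ∈ W) : ∃ z, ψ z = x := by
  by_contra hx
  have hx' : x ∉ ψ.range := fun h => hx h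
  have hcl : IsIntegrallyClosedIn ψ.range Ω := by
    rw [isIntegrallyClosedIn_iff]
    refine ⟨Subtype.val_injective, fun {y} hy => ?_⟩
    obtain ⟨f, hf, hfy⟩ := hy
    have hs : Function.Surjective ψ.rangeRestrict := ψ.rangeRestrict_surjective
    obtain ⟨g, hg, -, hgm⟩ := Polynomial.lifts_and_natDegree_eq_and_monic
      ((Polynomial.mem_lifts f).2 (Polynomial.map_surjective _ hs f)) hf
    have hgy : Polynomial.eval₂ ψ y g = 0 := by
      rw [← hg, Polynomial.eval₂_map] at hfy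
      exact hfy
    obtain ⟨z, hz⟩ := (IsAlgClosed.splits g).mem_range_of_isRoot (i := ψ) (x := y) hgm.ne_zero (by
      rw [Polynomial.IsRoot.def, Polynomial.eval_map]
      exact hgy)
    exact ⟨⟨y, z, hz⟩, rfl⟩
  obtain ⟨V, hV, hxV⟩ := Subring.exists_le_valuationSubring_of_isIntegrallyClosedIn hx'
  exact hxV (h V fun a => hV ⟨a, rfl⟩)

section quot

variable {ι : Type} {R : Type} [CommRing R] (π : MvPolynomial ι A →+* R)

/-- the coordinates modulo a prime ideal -/
lemma coord_mod (J : Set (MvPolynomial ι A))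
    (h : ∀ (Ω : Type) [Field Ω] (ψ : A →+* Ω) (x : ι → Ω), (∀ f ∈ J, eval₂ ψ x f = 0) →
      ∀ W : ValuationSubring Ω, (∀ a, ψ a ∈ W) → ∀ φ, x φ ∈ W) (hJπ : ∀ f ∈ J, π f = 0)
    (P : Ideal R) (hP : P.IsPrime) (φ : ι) : ∃ z : A, π (X φ - C z) ∈ P := by
  let Ω := FractionRing (R ⧸ P)
  let q : MvPolynomial ι A →+* Ω := ((algebraMap (R ⧸ P) Ω).comp (Ideal.Quotient.mk P)).comp π
  let ψ : A →+* Ω := q.comp C
  let x : ι → Ω := fun φ => q (X φ)
  have hq : ∀ f, eval₂ ψ x f = q f := by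
    intro f
    have : eval₂Hom ψ x = q := by
      apply ringHom_ext
      · intro a
        simp only [coe_eval₂Hom, eval₂_C]
        rfl
      · intro i
        simp only [coe_eval₂Hom, eval₂_X]
        rfl
    rw [← this]
    rfl
  have hJ : ∀ f ∈ J, eval₂ ψ x f = 0 := by
    intro f hf
    rw [hq]
    change algebraMap (R ⧸ P) Ω (Ideal.Quotient.mk P (π f)) = 0
    rw [hJπ f hf, map_zero, map_zero]
  obtain ⟨z, hz⟩ := mem_range_of_valuation ψ (x := x φ) (fun W hW => h Ω ψ x hJ W hW φ)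
  refine ⟨z, ?_⟩
  rw [← Ideal.Quotient.eq_zero_iff_mem]
  apply IsFractionRing.injective (R ⧸ P) Ω
  rw [map_zero]
  change q (X φ - C z) = 0
  rw [map_sub, sub_eq_zero]
  exact hz.symm

lemma isMaximal_of_coord (hπ : Function.Surjective π) (P : Ideal R) (hP : P.IsPrime)
    (h : ∀ φ, ∃ z : A, π (X φ - C z) ∈ P) : P.IsMaximal := by
  choose z hz using h
  have h2 : ∀ f : MvPolynomial ι A, ∃ a : A, π (f - C a) ∈ P := by
    intro f
    refine ⟨eval z f, ?_⟩
    induction f using MvPolynomial.induction_on with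
    | C a => rw [eval_C, sub_self, map_zero]; exact zero_mem _
    | add f g hf hg =>
      have e : f + g - C (eval z (f + g)) = (f - C (eval z f)) + (g - C (eval z g)) := by
        rw [map_add, C_add]; ring
      rw [e, map_add]
      exact add_mem hf hg
    | mul_X f i hf =>
      have e : f * X i - C (eval z (f * X i)) = (f - C (eval z f)) * X i +
          C (eval z f) * (X i - C (z i)) := by
        rw [map_mul, eval_X, C_mul]; ring
      rw [e, map_add, map_mul, map_mul]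
      exact add_mem (Ideal.mul_mem_right _ _ hf) (Ideal.mul_mem_left _ _ (hz i))
  have hnt : Nontrivial (R ⧸ P) := Ideal.Quotient.nontrivial_iff.2 hP.ne_top
  refine Ideal.Quotient.maximal_of_isField P ⟨⟨0, 1, zero_ne_one⟩, fun a b => mul_comm a b, ?_⟩
  intro a ha
  obtain ⟨b, rfl⟩ := Ideal.Quotient.mk_surjective a
  obtain ⟨f, rfl⟩ := hπ b
  obtain ⟨c, hc⟩ := h2 f
  have h3 : Ideal.Quotient.mk P (π f) = Ideal.Quotient.mk P (π (C c)) := by
    rw [Ideal.Quotient.eq, ← map_sub]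
    exact hc
  have hc0 : c ≠ 0 := by
    rintro rfl
    apply ha
    rw [h3, C_0, map_zero, map_zero]
  refine ⟨Ideal.Quotient.mk P (π (C c⁻¹)), ?_⟩
  rw [h3, ← map_mul, ← map_mul, ← C_mul, mul_inv_cancel₀ hc0, C_1, map_one, map_one]

end quot

/-- **Finiteness.** -/
theorem finite_solutions {ι : Type} [Finite ι] (J : Set (MvPolynomial ι A))
    (h : ∀ (Ω : Type) [Field Ω] (ψ : A →+* Ω) (x : ι → Ω), (∀ f ∈ J, eval₂ ψ x f = 0) →
      ∀ W : ValuationSubring Ω, (∀ a, ψ a ∈ W) → ∀ φ, x φ ∈ W) :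
    ∃ Z : Finset A, ∀ (Ω : Type) [Field Ω] (ψ : A →+* Ω) (x : ι → Ω),
      (∀ f ∈ J, eval₂ ψ x f = 0) → ∀ φ, ∃ z ∈ Z, ψ z = x φ := by
  classical
  have := Fintype.ofFinite ι
  let I := Ideal.span J
  have hJπ : ∀ f ∈ J, Ideal.Quotient.mk I f = 0 := fun f hf =>
    Ideal.Quotient.eq_zero_iff_mem.2 (Ideal.subset_span hf)
  have h1 := coord_mod (Ideal.Quotient.mk I) J h hJπ
  have hmax : ∀ P : Ideal (MvPolynomial ι A ⧸ I), P.IsPrime → P.IsMaximal := fun P hP =>
    isMaximal_of_coord (Ideal.Quotient.mk I) Ideal.Quotient.mk_surjective P hP (h1 P hP)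
  have hKD : Ring.KrullDimLE 0 (MvPolynomial ι A ⧸ I) := Ring.krullDimLE_zero_iff.2 hmax
  have hart : IsArtinianRing (MvPolynomial ι A ⧸ I) := isArtinianRing_iff_krullDimLE_zero.2 hKD
  have hfin : Finite (PrimeSpectrum (MvPolynomial ι A ⧸ I)) := inferInstance
  have := Fintype.ofFinite (PrimeSpectrum (MvPolynomial ι A ⧸ I))
  choose z hz using fun P : PrimeSpectrum (MvPolynomial ι A ⧸ I) => h1 P.asIdeal P.isPrime
  refine ⟨(Finset.univ : Finset (PrimeSpectrum (MvPolynomial ι A ⧸ I) × ι)).image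
    (fun s => z s.1 s.2), ?_⟩
  intro Ω _ ψ x hx φ
  let q0 : MvPolynomial ι A →+* Ω := eval₂Hom ψ x
  have hI : ∀ f ∈ I, q0 f = 0 := by
    intro f hf
    have : I ≤ RingHom.ker q0 := Ideal.span_le.2 fun g hg => hx g hg
    exact this hf
  let q : (MvPolynomial ι A ⧸ I) →+* Ω := Ideal.Quotient.lift I q0 hI
  let P : PrimeSpectrum (MvPolynomial ι A ⧸ I) := ⟨RingHom.ker q, RingHom.ker_isPrime q⟩
  refine ⟨z P φ, Finset.mem_image.2 ⟨(P, φ), Finset.mem_univ _, rfl⟩, ?_⟩
  have h2 : q (Ideal.Quotient.mk I (X φ - C (z P φ))) = 0 := hz P φ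
  rw [Ideal.Quotient.lift_mk] at h2
  simp only [q0, map_sub, coe_eval₂Hom, eval₂_X, eval₂_C] at h2
  exact (sub_eq_zero.1 h2).symm

end Pool.Agent.Q33.SecL
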