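import Pool.Agent.Q33.SecL.UnitsAE
import Pool.Agent.W401.Cheb.Main

/-!
# Embeddings in `p`-adic fields with a given Frobenius element
-/

set_option autoImplicit false

namespace Pool.Agent.Q33.SecL

open Polynomial NumberField

/-- the prime ideal defined by an embedding -/
noncomputable def primeOf {L : Type} [Field L] {p : ℕ} [Fact p.Prime] (ψ : L →+* PadicAlgCl p) :
    Ideal (𝓞 L) where
  carrier := {x | ‖ψ (algebraMap (𝓞 L) L x)‖ < 1}
  zero_mem' := by simp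
  add_mem' := fun {x y} hx hy => by
    change ‖ψ (algebraMap (𝓞 L) L (x + y))‖ < 1
    rw [map_add, map_add]
    exact lt_of_le_of_lt (IsUltrametricDist.norm_add_le_max _ _) (max_lt hx hy)
  smul_mem' := fun c x hx => by
    change ‖ψ (algebraMap (𝓞 L) L (c * x))‖ < 1
    rw [map_mul, map_mul, norm_mul]
    have h1 : ‖ψ (algebraMap (𝓞 L) L c)‖ ≤ 1 :=
      norm_le_one_of_isIntegral (c.isIntegral_coe.map ψ.toIntAlgHom)
    calc ‖ψ (algebraMap (𝓞 L) L c)‖ * ‖ψ (algebraMap (𝓞 L) L x)‖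
        ≤ 1 * ‖ψ (algebraMap (𝓞 L) L x)‖ := by gcongr
      _ < 1 := by rw [one_mul]; exact hx

lemma mem_primeOf {L : Type} [Field L] {p : ℕ} [Fact p.Prime] (ψ : L →+* PadicAlgCl p)
    (x : 𝓞 L) : x ∈ primeOf ψ ↔ ‖ψ (algebraMap (𝓞 L) L x)‖ < 1 := Iff.rfl

instance primeOf_isPrime {L : Type} [Field L] {p : ℕ} [Fact p.Prime] (ψ : L →+* PadicAlgCl p) :
    (primeOf ψ).IsPrime where
  ne_top' := by
    intro h
    have h1 : (1 : 𝓞 L) ∈ primeOf ψ := by rw [h]; trivial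
    rw [mem_primeOf, map_one, map_one, norm_one] at h1
    exact lt_irrefl _ h1
  mem_or_mem' := fun {x y} h => by
    rw [mem_primeOf, map_mul, map_mul, norm_mul] at h
    by_contra hc
    rw [not_or, mem_primeOf, mem_primeOf, not_lt, not_lt] at hc
    have := one_le_mul_of_one_le_of_one_le hc.1 hc.2
    linarith

lemma under_eq {L : Type} [Field L] [NumberField L] {p : ℕ} (hp : p.Prime) (P : Ideal (𝓞 L))
    (hP : P.IsPrime) (h : (p : 𝓞 L) ∈ P) : P.under ℤ = Ideal.span {(p : ℤ)} := by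
  have hmax : (Ideal.span {(p : ℤ)}).IsMaximal :=
    PrincipalIdealRing.isMaximal_of_irreducible (Nat.prime_iff_prime_int.1 hp).irreducible
  refine (hmax.eq_of_le (Ideal.IsPrime.under ℤ P).ne_top ?_).symm
  rw [Ideal.span_singleton_le_iff_mem, Ideal.under_def, Ideal.mem_comap]
  simpa using h

lemma exists_frob (L : Type) [Field L] [NumberField L] [IsGalois ℚ L] (g : L ≃ₐ[ℚ] L) (B : ℕ) :
    ∃ p : ℕ, B < p ∧ ∃ _ : Fact p.Prime, ∃ ψ : L →+* PadicAlgCl p, ∀ x : L, IsIntegral ℤ x →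
      ‖ψ (g x) - ψ x ^ p‖ < 1 := by
  classical
  obtain ⟨p, ⟨hp, hx⟩, hBp⟩ := (Pool.Agent.W401.Cheb.infinite_frob L g).exists_gt B
  have hpf : Fact p.Prime := ⟨hp⟩
  refine ⟨p, hBp, hpf, ?_⟩
  obtain ⟨φ, hφ⟩ : ∃ φ : 𝓞 L →+* AlgebraicClosure (ZMod p),
      Pool.Agent.W401.Cheb.HasFrob p φ g := by
    unfold Pool.Agent.W401.Cheb.xp at hx
    rw [dif_pos hp] at hx
    by_contra hc
    push Not at hc
    apply hx
    have : IsEmpty {φ : 𝓞 L →+* AlgebraicClosure (ZMod p) //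
      Pool.Agent.W401.Cheb.HasFrob p φ g} := ⟨fun φ => hc φ.1 φ.2⟩
    exact Nat.card_of_isEmpty
  obtain ⟨ψ0⟩ : Nonempty (L →+* PadicAlgCl p) := inferInstance
  have hPP : (RingHom.ker φ).IsPrime := RingHom.ker_isPrime φ
  have h1 : (RingHom.ker φ).under ℤ = (primeOf ψ0).under ℤ := by
    rw [under_eq hp _ hPP, under_eq hp _ (primeOf_isPrime ψ0)]
    · rw [mem_primeOf, map_natCast, map_natCast]
      exact norm_int_lt (p := p) (z := (p : ℤ)) dvd_rfl
    · rw [RingHom.mem_ker, map_natCast]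
      have : CharP (AlgebraicClosure (ZMod p)) p :=
        charP_of_injective_algebraMap (algebraMap (ZMod p) _).injective p
      exact CharP.cast_eq_zero _ p
  obtain ⟨τ, hτ⟩ := Algebra.IsInvariant.exists_smul_of_under_eq ℤ (𝓞 L) Gal(L/ℚ) _ _ h1
  refine ⟨ψ0.comp (τ : L →+* L), fun x hx => ?_⟩
  let X : 𝓞 L := ⟨x, hx⟩
  have h2 : (g • X - X ^ p) ∈ RingHom.ker φ := by
    rw [RingHom.mem_ker, map_sub, map_pow, hφ, sub_self]
  have h3 : τ • (g • X - X ^ p) ∈ primeOf ψ0 := by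
    rw [hτ]
    exact Ideal.smul_mem_pointwise_smul _ _ _ h2
  rw [mem_primeOf] at h3
  have h4 : algebraMap (𝓞 L) L (τ • (g • X - X ^ p)) = τ (g x) - (τ x) ^ p := by
    rw [smul_sub, smul_pow', map_sub, map_pow]
    rfl
  rw [h4, map_sub, map_pow] at h3
  exact h3

lemma exists_frob' (L : Type) [Field L] [NumberField L] [alg : Algebra ℚ L] [IsGalois ℚ L]
    (g : L ≃ₐ[ℚ] L) (B : ℕ) :
    ∃ p : ℕ, B < p ∧ ∃ _ : Fact p.Prime, ∃ ψ : L →+* PadicAlgCl p, ∀ x : L, IsIntegral ℤ x →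
      ‖ψ (g x) - ψ x ^ p‖ < 1 := by
  obtain rfl : alg = DivisionRing.toRatAlgebra := Subsingleton.elim _ _
  exact exists_frob L g B

/-- every automorphism is a Frobenius element, for finite sets of integral elements -/
theorem exists_frob_set {A : Type} [Field A] [CharZero A] [Algebra.IsAlgebraic ℚ A]
    [IsAlgClosed A] (g : A ≃ₐ[ℚ] A) (S : Finset A) (B : ℕ) :
    ∃ p : ℕ, B < p ∧ ∃ _ : Fact p.Prime, ∃ ψ : A →+* PadicAlgCl p, ∀ x ∈ S, IsIntegral ℤ x →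
      ‖ψ (g x) - ψ x ^ p‖ < 1 := by
  classical
  have hcl : IsAlgClosure ℚ A := ⟨inferInstance, inferInstance⟩
  have hnor : Normal ℚ A := IsAlgClosure.normal ℚ A
  have hG : IsGalois ℚ A := ⟨⟩
  let Lf := FiniteGaloisIntermediateField.adjoin ℚ (S : Set A)
  let L : IntermediateField ℚ A := Lf.toIntermediateField
  letI alg : Algebra ℚ L := L.algebra'
  have hfd : FiniteDimensional ℚ L := Lf.finiteDimensional
  have hgal : IsGalois ℚ L := Lf.isGalois
  have hN : NumberField L := ⟨⟩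
  let g' : L ≃ₐ[ℚ] L := g.restrictNormal L
  obtain ⟨p, hBp, hp, ψ, hψ⟩ := exists_frob' L (alg := alg) g' B
  refine ⟨p, hBp, hp, ?_⟩
  letI : Algebra L (PadicAlgCl p) := ψ.toAlgebra
  let Ψ : A →ₐ[L] PadicAlgCl p := IsAlgClosed.lift
  refine ⟨Ψ, fun x hx hint => ?_⟩
  have hxL : x ∈ L := FiniteGaloisIntermediateField.subset_adjoin ℚ _ hx
  have h1 : IsIntegral ℤ (⟨x, hxL⟩ : L) := by
    have h := (isIntegral_algHom_iff (L.val.restrictScalars ℤ)
      (L.val.injective) (x := (⟨x, hxL⟩ : L))).1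
    exact h hint
  have h2 := hψ ⟨x, hxL⟩ h1
  have h3 : ∀ z : L, Ψ (z : A) = ψ z := fun z => Ψ.commutes z
  have h4 : ((g' ⟨x, hxL⟩ : L) : A) = g x :=
    AlgEquiv.restrictNormal_commutes g L ⟨x, hxL⟩
  rw [← h3, ← h3, h4] at h2
  exact h2

end Pool.Agent.Q33.SecL
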