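import Mathlib

/-!
# The equations have no solutions at infinity
-/

set_option autoImplicit false
set_option linter.unusedSectionVars false

namespace Pool.Agent.Q33.SecL

section val

variable {Γ : Type} [LinearOrderedCommGroupWithZero Γ]

lemma one_lt_prod_of {ι : Type} {s : Finset ι} {f : ι → Γ} (h : ∀ i ∈ s, 1 ≤ f i) {i0 : ι}
    (hi0 : i0 ∈ s) (h0 : 1 < f i0) : 1 < ∏ i ∈ s, f i := by
  classical
  rw [← Finset.mul_prod_erase _ _ hi0]
  have h1 : 1 ≤ ∏ i ∈ s.erase i0, f i := Finset.one_le_prod fun i hi =>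
    h i (Finset.mem_of_mem_erase hi)
  calc 1 < f i0 := h0
    _ = f i0 * 1 := (mul_one _).symm
    _ ≤ f i0 * ∏ i ∈ s.erase i0, f i := by gcongr

lemma exists_lt_of_prod_lt {ι : Type} {s : Finset ι} {f : ι → Γ} (h : ∏ i ∈ s, f i < 1) :
    ∃ i ∈ s, f i < 1 := by
  by_contra hc
  push Not at hc
  exact absurd (Finset.one_le_prod hc) (not_le.2 h)

lemma exists_lt_of_prod_eq {ι : Type} {s : Finset ι} {f : ι → Γ} (h : ∏ i ∈ s, f i = 1) {i0 : ι}
    (hi0 : i0 ∈ s) (h0 : 1 < f i0) : ∃ i ∈ s, f i < 1 := by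
  by_contra hc
  push Not at hc
  have h1 := one_lt_prod_of hc hi0 h0
  rw [h] at h1
  exact lt_irrefl _ h1

end val

section core

variable {ι I : Type} [Fintype ι] [Fintype I] {T : I → Type} [∀ i, Fintype (T i)]
  (ρ : ∀ i, T i → ι) {Ω : Type} [Field Ω] (W : ValuationSubring Ω) (x : ι → Ω)
  (t : ∀ i, T i → Ω)

lemma one_lt_sub (ht : ∀ i s, t i s ∈ W) {φ0 : ι} (h0 : 1 < W.valuation (x φ0)) {i : I} {s : T i}
    (hs : ρ i s = φ0) : 1 < W.valuation (x (ρ i s) - t i s) := by
  by_contra hle
  push Not at hle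
  rw [hs] at hle
  have h2 := (W.valuation_le_one_iff _).2 (ht i s)
  have h3 : x φ0 = (x φ0 - t i s) + t i s := by ring
  have h4 := W.valuation.map_add (x φ0 - t i s) (t i s)
  rw [← h3] at h4
  exact absurd (h4.trans (max_le hle h2)) (not_le.2 h0)

/-- the counting argument -/
lemma card_lt_of_pole (ht : ∀ i s, t i s ∈ W)
    (htt : ∀ i j (s : T i) (s' : T j), i ≠ j → ρ i s = ρ j s' →
      W.valuation (t i s - t j s') = 1)
    (S : Finset ι) {φ0 : ι} (hφ0 : φ0 ∈ S) (h0 : 1 < W.valuation (x φ0))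
    (h : ∀ i, ∃ s : T i, ρ i s ∈ S ∧ W.valuation (x (ρ i s) - t i s) < 1) :
    Fintype.card I < S.card := by
  classical
  choose s hs hs' using h
  have hinj : Function.Injective (fun i => ρ i (s i)) := by
    intro i j hij
    by_contra hne
    have h1 := htt i j (s i) (s j) hne hij
    have h2 := hs' j
    simp only at hij
    have h3 : t i (s i) - t j (s j) = (x (ρ i (s i)) - t j (s j)) - (x (ρ i (s i)) - t i (s i)) := by
      ring
    have h4 := W.valuation.map_sub (x (ρ i (s i)) - t j (s j)) (x (ρ i (s i)) - t i (s i))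
    rw [← h3, h1] at h4
    rw [← hij] at h2
    exact absurd h4 (not_le.2 (max_lt h2 (hs' i)))
  have h1 : (Finset.univ.image (fun i => ρ i (s i))) ⊆ S.erase φ0 := by
    intro φ hφ
    obtain ⟨i, -, rfl⟩ := Finset.mem_image.1 hφ
    refine Finset.mem_erase.2 ⟨fun h => ?_, hs i⟩
    exact absurd (one_lt_sub ρ W x t ht h0 h) (not_lt.2 (hs' i).le)
  have h2 := Finset.card_le_card h1
  rw [Finset.card_image_of_injective _ hinj, Finset.card_univ, Finset.card_erase_of_mem hφ0] at h2
  have h3 : 0 < S.card := Finset.card_pos.2 ⟨φ0, hφ0⟩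
  omega

/-- first case -/
lemma no_pole_a (hρ : ∀ i, Function.Surjective (ρ i)) (ht : ∀ i s, t i s ∈ W)
    (htt : ∀ i j (s : T i) (s' : T j), i ≠ j → ρ i s = ρ j s' →
      W.valuation (t i s - t j s') = 1)
    (hM : ∀ i, W.valuation (∏ s, (x (ρ i s) - t i s)) = 1)
    (hcard : Fintype.card ι ≤ Fintype.card I) (φ : ι) : x φ ∈ W := by
  classical
  by_contra hφ
  rw [← ValuationSubring.valuation_le_one_iff, not_le] at hφ
  have h1 := card_lt_of_pole ρ W x t ht htt Finset.univ (Finset.mem_univ φ) hφ (by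
    intro i
    obtain ⟨s, hs⟩ := hρ i φ
    have h2 := one_lt_sub ρ W x t ht hφ hs
    have h3 := hM i
    rw [map_prod] at h3
    obtain ⟨s', -, hs'⟩ := exists_lt_of_prod_eq h3 (Finset.mem_univ s) h2
    exact ⟨s', Finset.mem_univ _, hs'⟩)
  rw [Finset.card_univ] at h1
  omega

/-- half of a set with an involution -/
lemma exists_half {Λ : Type} [Fintype Λ] [DecidableEq Λ] (π : ι → Λ) (c : Λ → Λ)
    (hc : ∀ l, c (c l) = l) (hc1 : ∀ l, c l ≠ l)
    (hfib : ∀ l, (Finset.univ.filter (fun φ => π φ = l)).card =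
      (Finset.univ.filter (fun φ => π φ = c l)).card) (l0 : Λ) :
    ∃ Λp : Finset Λ, l0 ∈ Λp ∧ (∀ l, l ∈ Λp ∨ c l ∈ Λp) ∧
      2 * (Finset.univ.filter (fun φ => π φ ∈ Λp)).card = Fintype.card ι := by
  classical
  let e := Fintype.equivFin Λ
  have key : ∀ Λp : Finset Λ, (∀ l, l ∈ Λp ↔ c l ∉ Λp) →
      2 * (Finset.univ.filter (fun φ => π φ ∈ Λp)).card = Fintype.card ι := by
    intro Λp h
    have h1 : ∀ s : Finset Λ, (Finset.univ.filter (fun φ => π φ ∈ s)).card =
        ∑ l ∈ s, (Finset.univ.filter (fun φ => π φ = l)).card := by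
      intro s
      rw [Finset.card_eq_sum_card_fiberwise (f := π) (t := s)]
      · refine Finset.sum_congr rfl fun l hl => ?_
        congr 1
        ext φ
        simp only [Finset.mem_filter, Finset.mem_univ, true_and]
        exact ⟨fun h => h.2, fun h => ⟨by rw [h]; exact hl, h⟩⟩
      · intro φ hφ
        exact (Finset.mem_filter.1 hφ).2
    have h2 : ∑ l ∈ Λpᶜ, (Finset.univ.filter (fun φ => π φ = l)).card =
        ∑ l ∈ Λp, (Finset.univ.filter (fun φ => π φ = l)).card := by
      refine Finset.sum_bij' (fun l _ => c l) (fun l _ => c l) ?_ ?_ ?_ ?_ ?_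
      · intro l hl
        rw [Finset.mem_compl] at hl
        by_contra hn
        exact hl ((h l).2 hn)
      · intro l hl
        rw [Finset.mem_compl]
        exact (h l).1 hl
      · intro l _
        exact hc l
      · intro l _
        exact hc l
      · intro l _
        exact hfib l
    have h3 : (Finset.univ.filter (fun φ => π φ ∈ Λp)).card +
        (Finset.univ.filter (fun φ => π φ ∈ Λpᶜ)).card = Fintype.card ι := by
      rw [h1, h1, Finset.sum_add_sum_compl, ← Finset.card_univ,
        Finset.card_eq_sum_card_fiberwise (f := π) (t := Finset.univ)]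
      intro φ _
      exact Finset.mem_univ _
    have h4 : (Finset.univ.filter (fun φ => π φ ∈ Λpᶜ)).card =
        (Finset.univ.filter (fun φ => π φ ∈ Λp)).card := by rw [h1, h1, h2]
    omega
  have hne : ∀ l, e (c l) ≠ e l := fun l h => hc1 l (e.injective h)
  by_cases h0 : e l0 < e (c l0)
  · refine ⟨Finset.univ.filter (fun l => e l < e (c l)), by simp [h0], fun l => ?_, key _ fun l => ?_⟩
    · simp only [Finset.mem_filter, Finset.mem_univ, true_and, hc]
      exact lt_or_gt_of_ne (hne l).symm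
    · simp only [Finset.mem_filter, Finset.mem_univ, true_and, hc, not_lt]
      exact ⟨fun h => h.le, fun h => lt_of_le_of_ne h (hne l).symm⟩
  · refine ⟨Finset.univ.filter (fun l => e (c l) < e l), ?_, fun l => ?_, key _ fun l => ?_⟩
    · simp only [Finset.mem_filter, Finset.mem_univ, true_and]
      exact lt_of_le_of_ne (not_lt.1 h0) (hne l0)
    · simp only [Finset.mem_filter, Finset.mem_univ, true_and, hc]
      exact lt_or_gt_of_ne (hne l)
    · simp only [Finset.mem_filter, Finset.mem_univ, true_and, hc, not_lt]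
      exact ⟨fun h => h.le, fun h => lt_of_le_of_ne h (hne l)⟩

/-- second case -/
lemma no_pole_b {Λ : Type} [Fintype Λ] [DecidableEq Λ] (π : ι → Λ) (c : Λ → Λ)
    (hc : ∀ l, c (c l) = l) (hc1 : ∀ l, c l ≠ l)
    (hfib : ∀ l, (Finset.univ.filter (fun φ => π φ = l)).card =
      (Finset.univ.filter (fun φ => π φ = c l)).card)
    (hρ : ∀ i, Function.Surjective (ρ i)) (ht : ∀ i s, t i s ∈ W)
    (htt : ∀ i j (s : T i) (s' : T j), i ≠ j → ρ i s = ρ j s' →
      W.valuation (t i s - t j s') = 1)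
    (hM : ∀ i, W.valuation (∏ s, (x (ρ i s) - t i s)) = 1)
    (hcm : ∀ i l, W.valuation (∏ s with π (ρ i s) = l, (x (ρ i s) - t i s)) =
      W.valuation (∏ s with π (ρ i s) = c l, (x (ρ i s) - t i s)))
    (hcard : Fintype.card ι ≤ 2 * Fintype.card I) (φ : ι) : x φ ∈ W := by
  classical
  by_contra hφ
  rw [← ValuationSubring.valuation_le_one_iff, not_le] at hφ
  obtain ⟨Λp, hl0, hcov, hhalf⟩ := exists_half π c hc hc1 hfib (π φ)
  have h1 := card_lt_of_pole ρ W x t ht htt (Finset.univ.filter (fun φ => π φ ∈ Λp))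
    (Finset.mem_filter.2 ⟨Finset.mem_univ φ, hl0⟩) hφ (by
    intro i
    let V : Λ → W.ValueGroup := fun l =>
      W.valuation (∏ s with π (ρ i s) = l, (x (ρ i s) - t i s))
    have hV : ∏ l, V l = 1 := by
      rw [← hM i, map_prod]
      simp only [V, map_prod]
      exact Finset.prod_fiberwise _ _ _
    by_cases hall : ∀ l, 1 ≤ V l
    · -- all are one
      have hone : V (π φ) = 1 := by
        apply le_antisymm _ (hall _)
        by_contra hlt
        push Not at hlt
        have h2 := one_lt_prod_of (fun l _ => hall l) (Finset.mem_univ (π φ)) hlt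
        rw [hV] at h2
        exact lt_irrefl _ h2
      obtain ⟨s, hs⟩ := hρ i φ
      have h2 := one_lt_sub ρ W x t ht hφ hs
      simp only [V] at hone
      rw [map_prod] at hone
      obtain ⟨s', hs', hlt⟩ := exists_lt_of_prod_eq hone (i0 := s)
        (Finset.mem_filter.2 ⟨Finset.mem_univ _, by rw [hs]⟩) h2
      refine ⟨s', Finset.mem_filter.2 ⟨Finset.mem_univ _, ?_⟩, hlt⟩
      rw [(Finset.mem_filter.1 hs').2]
      exact hl0
    · push Not at hall
      obtain ⟨l, hl⟩ := hall
      have hex : ∀ l, V l < 1 → l ∈ Λp → ∃ s : T i, ρ i s ∈ Finset.univ.filter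
          (fun φ => π φ ∈ Λp) ∧ W.valuation (x (ρ i s) - t i s) < 1 := by
        intro l hl hlp
        simp only [V] at hl
        rw [map_prod] at hl
        obtain ⟨s', hs', hlt⟩ := exists_lt_of_prod_lt hl
        refine ⟨s', Finset.mem_filter.2 ⟨Finset.mem_univ _, ?_⟩, hlt⟩
        rw [(Finset.mem_filter.1 hs').2]
        exact hlp
      rcases hcov l with h2 | h2
      · exact hex l hl h2
      · refine hex (c l) ?_ h2
        have h3 : V (c l) = V l := (hcm i l).symm
        rw [h3]
        exact hl)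
  omega

end core

end Pool.Agent.Q33.SecL
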