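import Pool.Agent.Q33.SecL.CM
import Pool.Agent.Q33.SecL.NoPole
import Pool.Agent.Q33.SecL.Fin

/-!
# Adelic points of the line with global Kummer classes
-/

set_option autoImplicit false
set_option linter.unusedSectionVars false

namespace Pool.Agent.Q33.SecL

open NumberField

section fibre

variable {L F Ω : Type} [Field L] [NumberField L] [Field F] [NumberField F] [Field Ω] [CharZero Ω]
  [IsAlgClosed Ω]

open scoped Classical in
/-- the embeddings over a given one -/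
noncomputable def fib (jL : L →+* F) (μ : L →+* Ω) : Finset (F →+* Ω) :=
  Finset.univ.filter (fun Φ => Φ.comp jL = μ)

lemma mem_fib {jL : L →+* F} {μ : L →+* Ω} {Φ : F →+* Ω} : Φ ∈ fib jL μ ↔ Φ.comp jL = μ := by
  classical
  unfold fib
  rw [Finset.mem_filter]
  exact ⟨fun h => h.2, fun h => ⟨Finset.mem_univ _, h⟩⟩

lemma prod_fib (jL : L →+* F) (μ : L →+* Ω) {M : Type} [CommMonoid M] (f : (F →+* Ω) → M) :
    let _alg1 : Algebra L F := jL.toAlgebra
    let _alg2 : Algebra L Ω := μ.toAlgebra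
    ∏ Φ ∈ fib jL μ, f Φ = ∏ σ : F →ₐ[L] Ω, f (σ : F →+* Ω) := by
  classical
  let _alg1 : Algebra L F := jL.toAlgebra
  let _alg2 : Algebra L Ω := μ.toAlgebra
  have hcomm : ∀ Φ ∈ fib jL μ, ∀ r : L, Φ (algebraMap L F r) = algebraMap L Ω r :=
    fun Φ hΦ r => DFunLike.congr_fun (mem_fib.1 hΦ) r
  refine Finset.prod_bij' (fun Φ hΦ => ({ Φ with commutes' := hcomm Φ hΦ } : F →ₐ[L] Ω))
    (fun σ _ => (σ : F →+* Ω)) ?_ ?_ ?_ ?_ ?_
  · intro Φ _
    exact Finset.mem_univ _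
  · intro σ _
    rw [mem_fib]
    ext x
    exact σ.commutes x
  · intro Φ _
    rfl
  · intro σ _
    rfl
  · intro Φ _
    rfl

/-- the norm as a product -/
noncomputable def nrm (jL : L →+* F) (a : F) : L :=
  let _alg1 : Algebra L F := jL.toAlgebra
  Algebra.norm L a

lemma fin_of (jL : L →+* F) :
    let _alg1 : Algebra L F := jL.toAlgebra
    FiniteDimensional L F := by
  let _alg1 : Algebra L F := jL.toAlgebra
  have : IsScalarTower ℚ L F := IsScalarTower.of_algebraMap_eq' (Subsingleton.elim _ _)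
  exact Module.Finite.of_restrictScalars_finite ℚ L F

lemma prod_fib_eq_nrm (jL : L →+* F) (μ : L →+* Ω) (a : F) :
    ∏ Φ ∈ fib jL μ, Φ a = μ (nrm jL a) := by
  rw [prod_fib jL μ (fun Φ => Φ a)]
  let _alg1 : Algebra L F := jL.toAlgebra
  let _alg2 : Algebra L Ω := μ.toAlgebra
  have := fin_of jL
  exact (Algebra.norm_eq_prod_embeddings L Ω a).symm

lemma nrm_ne_zero (jL : L →+* F) {a : F} (ha : a ≠ 0) : nrm jL a ≠ 0 := by
  let _alg1 : Algebra L F := jL.toAlgebra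
  have := fin_of jL
  exact Algebra.norm_ne_zero_iff.2 ha

lemma card_fib (jL : L →+* F) (μ : L →+* Ω) :
    (fib jL μ).card =
      let _alg1 : Algebra L F := jL.toAlgebra
      Module.finrank L F := by
  let _alg1 : Algebra L F := jL.toAlgebra
  let _alg2 : Algebra L Ω := μ.toAlgebra
  have := fin_of jL
  have h1 := prod_fib jL μ (fun _ => Multiplicative.ofAdd (1 : ℕ))
  simp only [Finset.prod_const] at h1
  have h2 : (fib jL μ).card = Fintype.card (F →ₐ[L] Ω) := by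
    have h3 := congrArg Multiplicative.toAdd h1
    rw [toAdd_pow, toAdd_pow, toAdd_ofAdd] at h3
    simpa using h3
  rw [h2]
  exact AlgHom.card L F Ω

lemma nonempty_fib (jL : L →+* F) (μ : L →+* Ω) : ∃ Φ : F →+* Ω, Φ.comp jL = μ := by
  let _alg1 : Algebra L F := jL.toAlgebra
  let _alg2 : Algebra L Ω := μ.toAlgebra
  have := fin_of jL
  let Φ : F →ₐ[L] Ω := IsAlgClosed.lift
  exact ⟨Φ, RingHom.ext fun x => Φ.commutes x⟩

end fibre

variable {K : Type} [Field K] [NumberField K]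

/-- the adelic number `x` minus `θ` is given by elements of the extension `F` of `K` modulo `N`-th
powers, and a unit at almost all places -/
structure Dat (x : ∀ (p : ℕ) [Fact p.Prime], (K →+* PadicAlgCl p) → PadicAlgCl p)
    (F : Type) [Field F] [NumberField F] (jF : K →+* F) (θ : F) : Prop where
  ne : ∀ (p : ℕ) [Fact p.Prime] (Φ : F →+* PadicAlgCl p), x p (Φ.comp jF) - Φ θ ≠ 0
  kum : ∀ N : ℕ, 0 < N → ∃ a : F, ∀ (p : ℕ) [Fact p.Prime] (Φ : F →+* PadicAlgCl p),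
    ∃ u ∈ LL Φ, x p (Φ.comp jF) - Φ θ = Φ a * u ^ N
  unit : ∃ D : ℕ, 0 < D ∧ ∀ (p : ℕ) [Fact p.Prime] (Φ : F →+* PadicAlgCl p), ¬ p ∣ D →
    ‖x p (Φ.comp jF) - Φ θ‖ = 1

section dat

variable {x : ∀ (p : ℕ) [Fact p.Prime], (K →+* PadicAlgCl p) → PadicAlgCl p}
    {F : Type} [Field F] [NumberField F] {jF : K →+* F} {θ : F}

lemma Dat.exists_a (h : Dat x F jF θ) : ∃ a : ℕ → F, ∀ (p : ℕ) [Fact p.Prime]
    (Φ : F →+* PadicAlgCl p) (N : ℕ), 0 < N →
    ∃ u ∈ LL Φ, x p (Φ.comp jF) - Φ θ = Φ (a N) * u ^ N := by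
  classical
  have h1 : ∀ N : ℕ, ∃ a : F, 0 < N → ∀ (p : ℕ) [Fact p.Prime] (Φ : F →+* PadicAlgCl p),
    ∃ u ∈ LL Φ, x p (Φ.comp jF) - Φ θ = Φ a * u ^ N := by
    intro N
    by_cases hN : 0 < N
    · obtain ⟨a, ha⟩ := h.kum N hN
      exact ⟨a, fun _ => ha⟩
    · exact ⟨0, fun h => absurd h hN⟩
  choose a ha using h1
  exact ⟨a, fun p _ Φ N hN => ha N hN p Φ⟩

/-- the norm to `ℚ` -/
lemma Dat.prod (h : Dat x F jF θ) : ∃ M : ℚ, ∀ (p : ℕ) [Fact p.Prime],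
    ∏ Φ : F →+* PadicAlgCl p, (x p (Φ.comp jF) - Φ θ) = (M : PadicAlgCl p) := by
  obtain ⟨a, ha⟩ := h.exists_a
  obtain ⟨D, hD, hunit⟩ := h.unit
  exact prod_rational (fun p _ Φ => x p (Φ.comp jF) - Φ θ) (fun p _ Φ => h.ne p Φ) a
    (fun p _ Φ N hN => ha p Φ N hN) D hD (fun p _ Φ hp => hunit p Φ hp)

/-- the norm to a CM field -/
lemma Dat.cm (h : Dat x F jF θ) {L : Type} [Field L] [NumberField L] [IsCMField L] (jL : L →+* F) :
    ∃ m : ℕ, 0 < m ∧ ∃ η : L, η ≠ 0 ∧ ∀ (p : ℕ) [Fact p.Prime] (μ : L →+* PadicAlgCl p),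
      ((∏ Φ ∈ fib jL μ, (x p (Φ.comp jF) - Φ θ)) /
        (∏ Φ ∈ fib jL (μ.comp (cc L)), (x p (Φ.comp jF) - Φ θ))) ^ m = μ η := by
  classical
  obtain ⟨a, ha⟩ := h.exists_a
  obtain ⟨D, hD, hunit⟩ := h.unit
  set n := Module.finrank ℚ F with hn
  have ha0 : ∀ N, 0 < N → a N ≠ 0 := by
    intro N hN h0
    obtain ⟨Φ⟩ : Nonempty (F →+* PadicAlgCl 2) := inferInstance
    obtain ⟨u, -, hu⟩ := ha 2 Φ N hN
    rw [h0, map_zero, zero_mul] at hu
    exact h.ne 2 Φ hu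
  let Nk : ℕ → ℕ := fun k => n.factorial * k.factorial
  have hNk : ∀ k, 0 < Nk k := fun k => Nat.mul_pos (Nat.factorial_pos _) (Nat.factorial_pos _)
  refine cm_lemma (fun p _ => MM F p) (fun p _ => MM_finite) ?_
    (fun p _ μ => ∏ Φ ∈ fib jL μ, (x p (Φ.comp jF) - Φ θ))
    (fun p _ μ => Finset.prod_ne_zero_iff.2 fun Φ _ => h.ne p Φ)
    (fun k => nrm jL (a (Nk k))) (fun k => nrm_ne_zero jL (ha0 _ (hNk k))) ?_ D hD ?_
  · intro p _ μ y
    obtain ⟨Φ, hΦ⟩ := nonempty_fib jL μ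
    rw [← hΦ]
    exact LL_le_MM Φ (mem_LL Φ _)
  · intro p _ μ k
    choose u hu hu' using fun Φ => ha p Φ (Nk k) (hNk k)
    have hu0 : ∀ Φ, u Φ ≠ 0 := by
      intro Φ h0
      have := hu' Φ
      rw [h0, zero_pow (hNk k).ne', mul_zero] at this
      exact h.ne p Φ this
    refine ⟨(∏ Φ ∈ fib jL μ, u Φ) ^ n.factorial,
      pow_mem (prod_mem fun Φ _ => LL_le_MM Φ (hu Φ)) _, ?_, ?_⟩
    · choose z hz using fun Φ => norm_pow_mem (LL Φ) (LL_finite Φ) (hu Φ) (hu0 Φ) (LL_finrank Φ)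
      have hp0 : (p : ℝ) ≠ 0 := by exact_mod_cast (Fact.out : p.Prime).ne_zero
      refine ⟨∑ Φ ∈ fib jL μ, z Φ, ?_⟩
      rw [norm_pow, norm_prod, ← Finset.prod_pow]
      have h1 : ∀ s : Finset (F →+* PadicAlgCl p), ∏ Φ ∈ s, ‖u Φ‖ ^ n.factorial =
          (p : ℝ) ^ (∑ Φ ∈ s, z Φ) := by
        intro s
        induction s using Finset.induction_on with
        | empty => simp
        | insert Φ s hΦ ih =>
          rw [Finset.prod_insert hΦ, Finset.sum_insert hΦ, ih, hz, zpow_add₀ hp0]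
      exact h1 _
    · rw [← pow_mul, ← prod_fib_eq_nrm, ← Finset.prod_pow, ← Finset.prod_mul_distrib]
      exact Finset.prod_congr rfl fun Φ _ => hu' Φ
  · intro p _ μ hp
    rw [norm_prod]
    exact Finset.prod_eq_one fun Φ _ => hunit p Φ hp

end dat

end Pool.Agent.Q33.SecL
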