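import Pool.Agent.Q33.SecL.Gen

/-!
# Adelic points of the line with global Kummer classes: finiteness
-/

set_option autoImplicit false
set_option linter.unusedSectionVars false

namespace Pool.Agent.Q33.SecL

open NumberField

variable {A : Type} [Field A] [CharZero A] [IsAlgClosed A] [Algebra.IsAlgebraic ℚ A]

/-- the embeddings of `K` in `A` and in `Ω_p` -/
lemma bij_emb {F : Type} [Field F] [NumberField F] {p : ℕ} [Fact p.Prime]
    (ψ : A →+* PadicAlgCl p) : Function.Bijective (fun φ : F →+* A => ψ.comp φ) := by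
  rw [Fintype.bijective_iff_injective_and_card]
  refine ⟨fun φ φ' h => ?_, ?_⟩
  · ext y
    exact ψ.injective (DFunLike.congr_fun h y)
  · rw [NumberField.Embeddings.card, NumberField.Embeddings.card]

lemma prod_fib_comp {L F : Type} [Field L] [NumberField L] [Field F] [NumberField F] {p : ℕ}
    [Fact p.Prime] (ψ : A →+* PadicAlgCl p) (jL : L →+* F) (l : L →+* A) {M : Type}
    [CommMonoid M] (f : (F →+* PadicAlgCl p) → M) :
    ∏ Φ ∈ fib jL l, f (ψ.comp Φ) = ∏ Φ ∈ fib jL (ψ.comp l), f Φ := by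
  classical
  refine Finset.prod_bij (fun Φ _ => ψ.comp Φ) ?_ ?_ ?_ ?_
  · intro Φ hΦ
    rw [mem_fib] at hΦ ⊢
    rw [RingHom.comp_assoc, hΦ]
  · intro Φ _ Φ' _ h
    exact (bij_emb ψ).1 h
  · intro Φ' hΦ'
    obtain ⟨Φ, rfl⟩ := (bij_emb ψ).2 Φ'
    refine ⟨Φ, ?_, rfl⟩
    rw [mem_fib] at hΦ' ⊢
    simp only [RingHom.comp_assoc] at hΦ'
    exact (bij_emb ψ).1 hΦ'
  · intro Φ _
    rfl

lemma valuation_unit {Ω : Type} [Field Ω] (W : ValuationSubring Ω) (ψ : A →+* Ω)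
    (h : ∀ a, ψ a ∈ W) {a : A} (ha : a ≠ 0) : W.valuation (ψ a) = 1 := by
  apply le_antisymm ((W.valuation_le_one_iff _).2 (h a))
  have h1 := (W.valuation_le_one_iff _).2 (h a⁻¹)
  rw [map_inv₀, map_inv₀] at h1
  have h2 : W.valuation (ψ a) ≠ 0 := (W.valuation.ne_zero_iff).2 ((map_ne_zero ψ).2 ha)
  exact (inv_le_one₀ (zero_lt_iff.2 h2)).1 h1

variable {K : Type} [Field K] [NumberField K]

lemma poly_of_finite (j : K →+* A)
    (x : ∀ (p : ℕ) [Fact p.Prime], (K →+* PadicAlgCl p) → PadicAlgCl p) (Z : Finset A)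
    (h : ∀ (p : ℕ) [Fact p.Prime] (ψ : A →+* PadicAlgCl p), ∃ z ∈ Z, ψ z = x p (ψ.comp j)) :
    ∃ P : Polynomial ℚ, P ≠ 0 ∧ ∀ (p : ℕ) [Fact p.Prime] (φ : K →+* PadicAlgCl p),
      Polynomial.aeval (x p φ) P = 0 := by
  classical
  refine ⟨∏ z ∈ Z, minpoly ℚ z, Finset.prod_ne_zero_iff.2 fun z _ =>
    minpoly.ne_zero (Algebra.IsAlgebraic.isAlgebraic z).isIntegral, fun p _ φ => ?_⟩
  obtain ⟨ψ, hψ⟩ := exists_lift j φ
  obtain ⟨z, hz, hzx⟩ := h p ψ
  rw [hψ] at hzx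
  rw [map_prod]
  refine Finset.prod_eq_zero hz ?_
  rw [← hzx]
  have e1 : ψ.comp (algebraMap ℚ A) = algebraMap ℚ (PadicAlgCl p) := Subsingleton.elim _ _
  have h1 := congrArg ψ (minpoly.aeval ℚ z)
  rw [map_zero, Polynomial.aeval_def, Polynomial.hom_eval₂, e1] at h1
  exact h1

/-- enough punctures: at least the degree of `K` over `ℚ`, or half of the degree if `K` contains a CM
field -/
def EnoughP (K : Type) [Field K] [NumberField K] (r : ℕ) : Prop :=
  Module.finrank ℚ K ≤ r ∨ (Module.finrank ℚ K ≤ 2 * r ∧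
    ∃ (L : Type) (_ : Field L) (_ : NumberField L) (_ : IsCMField L), Nonempty (L →+* K))

/-- **Finiteness.** -/
theorem finite_of (j : K →+* A)
    {x : ∀ (p : ℕ) [Fact p.Prime], (K →+* PadicAlgCl p) → PadicAlgCl p}
    {I : Type} [Fintype I] (F : I → Type) [∀ i, Field (F i)] [∀ i, NumberField (F i)]
    (jF : ∀ i, K →+* F i) (θ : ∀ i, F i) (hD : ∀ i, Dat x (F i) (jF i) (θ i))
    (hθ : ∀ i i' (Φ : F i →+* A) (Φ' : F i' →+* A), i ≠ i' → Φ.comp (jF i) = Φ'.comp (jF i') →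
      Φ (θ i) ≠ Φ' (θ i'))
    (hcard : EnoughP K (Fintype.card I)) :
    ∃ P : Polynomial ℚ, P ≠ 0 ∧ ∀ (p : ℕ) [Fact p.Prime] (φ : K →+* PadicAlgCl p),
      Polynomial.aeval (x p φ) P = 0 := by
  classical
  choose M hM using fun i => (hD i).prod
  have hM0 : ∀ i, M i ≠ 0 := by
    intro i h0
    have h1 := hM i 2
    rw [h0, Rat.cast_zero, Finset.prod_eq_zero_iff] at h1
    obtain ⟨Φ, -, hΦ⟩ := h1
    exact (hD i).ne 2 Φ hΦ
  let f : I → MvPolynomial (K →+* A) A := fun i =>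
    (∏ Φ : F i →+* A, (MvPolynomial.X (Φ.comp (jF i)) - MvPolynomial.C (Φ (θ i)))) -
      MvPolynomial.C (M i : A)
  have hf : ∀ (Ω : Type) [Field Ω] (ψ : A →+* Ω) (x : (K →+* A) → Ω) (i : I),
      MvPolynomial.eval₂ ψ x (f i) =
        (∏ Φ : F i →+* A, (x (Φ.comp (jF i)) - ψ (Φ (θ i)))) - ψ (M i : A) := by
    intro Ω _ ψ x i
    simp only [f, MvPolynomial.eval₂_sub, MvPolynomial.eval₂_prod, MvPolynomial.eval₂_X,
      MvPolynomial.eval₂_C]
  -- the equations hold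
  have hfx : ∀ (p : ℕ) [Fact p.Prime] (ψ : A →+* PadicAlgCl p) (i : I),
      MvPolynomial.eval₂ ψ (fun φ => x p (ψ.comp φ)) (f i) = 0 := by
    intro p _ ψ i
    rw [hf, sub_eq_zero, map_ratCast, ← hM i p]
    exact Fintype.prod_bijective (fun Φ : F i →+* A => ψ.comp Φ) (bij_emb ψ) _ _ (fun Φ => rfl)
  have hfM : ∀ (Ω : Type) [Field Ω] (ψ : A →+* Ω) (x : (K →+* A) → Ω) (W : ValuationSubring Ω)
      (_ : ∀ a, ψ a ∈ W) (i : I), MvPolynomial.eval₂ ψ x (f i) = 0 →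
      W.valuation (∏ Φ : F i →+* A, (x (Φ.comp (jF i)) - ψ (Φ (θ i)))) = 1 := by
    intro Ω _ ψ x W hW i h1
    rw [hf, sub_eq_zero] at h1
    rw [h1]
    exact valuation_unit W ψ hW (by exact_mod_cast hM0 i)
  have htt : ∀ (Ω : Type) [Field Ω] (ψ : A →+* Ω) (W : ValuationSubring Ω)
      (_ : ∀ a, ψ a ∈ W) (i i' : I) (Φ : F i →+* A) (Φ' : F i' →+* A), i ≠ i' →
      Φ.comp (jF i) = Φ'.comp (jF i') → W.valuation (ψ (Φ (θ i)) - ψ (Φ' (θ i'))) = 1 := by
    intro Ω _ ψ W hW i i' Φ Φ' hne h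
    rw [← map_sub]
    exact valuation_unit W ψ hW (sub_ne_zero.2 (hθ i i' Φ Φ' hne h))
  rcases hcard with hcard | ⟨hcard, L, _, _, _, ⟨jL⟩⟩
  · obtain ⟨Z, hZ⟩ := finite_solutions (A := A) (Set.range f) (by
      intro Ω _ ψ x hx W hW φ
      refine no_pole_a (fun i (Φ : F i →+* A) => Φ.comp (jF i)) W x (fun i Φ => ψ (Φ (θ i)))
        (fun i => nonempty_fib (jF i)) (fun i Φ => hW _) (htt Ω ψ W hW)
        (fun i => hfM Ω ψ x W hW i (hx _ ⟨i, rfl⟩)) ?_ φ
      rw [NumberField.Embeddings.card]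
      exact hcard)
    exact poly_of_finite j x Z fun p _ ψ =>
      hZ (PadicAlgCl p) ψ (fun φ => x p (ψ.comp φ)) (by
        rintro _ ⟨i, rfl⟩
        exact hfx p ψ i) j
  · choose m hm η hη0 hη using fun i => (hD i).cm ((jF i).comp jL)
    let g : I × (L →+* A) → MvPolynomial (K →+* A) A := fun s =>
      (∏ Φ ∈ fib ((jF s.1).comp jL) s.2,
        (MvPolynomial.X (Φ.comp (jF s.1)) - MvPolynomial.C (Φ (θ s.1)))) ^ (m s.1) -
      MvPolynomial.C (s.2 (η s.1)) * (∏ Φ ∈ fib ((jF s.1).comp jL) (s.2.comp (cc L)),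
        (MvPolynomial.X (Φ.comp (jF s.1)) - MvPolynomial.C (Φ (θ s.1)))) ^ (m s.1)
    have hg : ∀ (Ω : Type) [Field Ω] (ψ : A →+* Ω) (x : (K →+* A) → Ω) (i : I) (l : L →+* A),
        MvPolynomial.eval₂ ψ x (g (i, l)) =
        (∏ Φ ∈ fib ((jF i).comp jL) l, (x (Φ.comp (jF i)) - ψ (Φ (θ i)))) ^ (m i) -
        ψ (l (η i)) * (∏ Φ ∈ fib ((jF i).comp jL) (l.comp (cc L)),
          (x (Φ.comp (jF i)) - ψ (Φ (θ i)))) ^ (m i) := by
      intro Ω _ ψ x i l
      simp only [g, MvPolynomial.eval₂_sub, MvPolynomial.eval₂_prod, MvPolynomial.eval₂_X,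
        MvPolynomial.eval₂_C, MvPolynomial.eval₂_mul, MvPolynomial.eval₂_pow]
    have hgx : ∀ (p : ℕ) [Fact p.Prime] (ψ : A →+* PadicAlgCl p) (i : I) (l : L →+* A),
        MvPolynomial.eval₂ ψ (fun φ => x p (ψ.comp φ)) (g (i, l)) = 0 := by
      intro p _ ψ i l
      have h1 := hη i p (ψ.comp l)
      have h2 : ∀ l : L →+* A, ∏ Φ ∈ fib ((jF i).comp jL) l,
          (x p (ψ.comp (Φ.comp (jF i))) - ψ (Φ (θ i))) =
          ∏ Φ ∈ fib ((jF i).comp jL) (ψ.comp l), (x p (Φ.comp (jF i)) - Φ (θ i)) := fun l =>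
        prod_fib_comp ψ _ l (fun Φ => x p (Φ.comp (jF i)) - Φ (θ i))
      have h3 : ∏ Φ ∈ fib ((jF i).comp jL) ((ψ.comp l).comp (cc L)),
          (x p (Φ.comp (jF i)) - Φ (θ i)) ≠ 0 :=
        Finset.prod_ne_zero_iff.2 fun Φ _ => (hD i).ne p Φ
      rw [hg, sub_eq_zero, h2, h2]
      rw [div_pow, div_eq_iff (pow_ne_zero _ h3)] at h1
      exact h1
    obtain ⟨Z, hZ⟩ := finite_solutions (A := A) (Set.range f ∪ Set.range g) (by
      intro Ω _ ψ x hx W hW φ
      refine no_pole_b (fun i (Φ : F i →+* A) => Φ.comp (jF i)) W x (fun i Φ => ψ (Φ (θ i)))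
        (fun φ : K →+* A => φ.comp jL) (fun l : L →+* A => l.comp (cc L)) ?_ ?_ ?_
        (fun i => nonempty_fib (jF i)) (fun i Φ => hW _) (htt Ω ψ W hW)
        (fun i => hfM Ω ψ x W hW i (hx _ (Or.inl ⟨i, rfl⟩))) ?_ ?_ φ
      · intro l
        ext y
        change l (cc L (cc L y)) = l y
        rw [cc_cc]
      · intro l h
        apply IsCMField.complexConj_ne_one L
        ext y
        exact l.injective (DFunLike.congr_fun h y)
      · intro l
        have h1 : ∀ l : L →+* A, (Finset.univ.filter (fun φ : K →+* A => φ.comp jL = l)) =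
            fib jL l := by
          intro l
          ext φ
          rw [mem_fib, Finset.mem_filter]
          exact ⟨fun h => h.2, fun h => ⟨Finset.mem_univ _, h⟩⟩
        rw [h1, h1, card_fib, card_fib]
      · intro i l
        have h1 := hx _ (Or.inr ⟨(i, l), rfl⟩)
        rw [hg, sub_eq_zero] at h1
        have h2 : ∀ l : L →+* A,
            (Finset.univ.filter (fun Φ : F i →+* A => (Φ.comp (jF i)).comp jL = l)) =
            fib ((jF i).comp jL) l := by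
          intro l
          ext φ
          rw [mem_fib, Finset.mem_filter]
          exact ⟨fun h => h.2, fun h => ⟨Finset.mem_univ _, h⟩⟩
        rw [h2, h2]
        have h3 := congrArg W.valuation h1
        rw [map_mul, map_pow, map_pow, valuation_unit W ψ hW ((map_ne_zero l).2 (hη0 i)),
          one_mul] at h3
        exact (pow_left_inj₀ zero_le zero_le (hm i).ne').1 h3
      · rw [NumberField.Embeddings.card]
        exact hcard)
    exact poly_of_finite j x Z fun p _ ψ =>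
      hZ (PadicAlgCl p) ψ (fun φ => x p (ψ.comp φ)) (by
        rintro _ (⟨i, rfl⟩ | ⟨⟨i, l⟩, rfl⟩)
        · exact hfx p ψ i
        · exact hgx p ψ i l) j

end Pool.Agent.Q33.SecL
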