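import Pool.Agent.Q33.SecL.Gen2

/-!
# Adelic points of the line with global Kummer classes: the main theorem
-/

set_option autoImplicit false
set_option linter.unusedSectionVars false

namespace Pool.Agent.Q33.SecL

open NumberField

variable {A : Type} [Field A] [CharZero A] [IsAlgClosed A] [Algebra.IsAlgebraic ℚ A]
variable {K : Type} [Field K] [NumberField K]

lemma Dat.cm' [IsCMField K]
    {x : ∀ (p : ℕ) [Fact p.Prime], (K →+* PadicAlgCl p) → PadicAlgCl p} {c : K}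
    (h : Dat x K (RingHom.id K) c) : ∃ m : ℕ, 0 < m ∧ ∃ η : K, η ≠ 0 ∧
      ∀ (p : ℕ) [Fact p.Prime] (μ : K →+* PadicAlgCl p),
      ((x p μ - μ c) / (x p (μ.comp (cc K)) - μ (cc K c))) ^ m = μ η := by
  classical
  obtain ⟨m, hm, η, hη0, hη⟩ := h.cm (RingHom.id K)
  refine ⟨m, hm, η, hη0, fun p _ μ => ?_⟩
  have h1 := hη p μ
  have h2 : ∀ μ : K →+* PadicAlgCl p, fib (RingHom.id K) μ = {μ} := by
    intro μ
    ext Φ
    rw [mem_fib, Finset.mem_singleton, RingHom.comp_id]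
  rw [h2, h2, Finset.prod_singleton, Finset.prod_singleton] at h1
  exact h1

/-- **Finiteness** for CM fields and three points which are not on a real line. -/
theorem finite_of_cm [IsCMField K] (j : K →+* A)
    {x : ∀ (p : ℕ) [Fact p.Prime], (K →+* PadicAlgCl p) → PadicAlgCl p} (c : Fin 3 → K)
    (hD : ∀ i, Dat x K (RingHom.id K) (c i))
    (hc : (c 1 - c 0) * cc K (c 2 - c 0) ≠ cc K (c 1 - c 0) * (c 2 - c 0)) :
    ∃ P : Polynomial ℚ, P ≠ 0 ∧ ∀ (p : ℕ) [Fact p.Prime] (φ : K →+* PadicAlgCl p),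
      Polynomial.aeval (x p φ) P = 0 := by
  classical
  choose m hm η hη0 hη using fun i => (hD i).cm'
  -- the possible quotients
  let R : Fin 3 → Finset A := fun i => (Polynomial.nthRoots (m i) (j (η i))).toFinset
  have hR : ∀ i (p : ℕ) [Fact p.Prime] (ψ : A →+* PadicAlgCl p), ∃ ρ ∈ R i,
      x p (ψ.comp j) - ψ (j (c i)) =
        ψ ρ * (x p ((ψ.comp j).comp (cc K)) - ψ (j (cc K (c i)))) := by
    intro i p _ ψ
    have h1 := hη i p (ψ.comp j)
    have h2 : x p ((ψ.comp j).comp (cc K)) - ψ (j (cc K (c i))) ≠ 0 :=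
      (hD i).ne p ((ψ.comp j).comp (cc K))
    obtain ⟨ρ0, hρ0⟩ := IsAlgClosed.exists_pow_nat_eq (j (η i)) (hm i)
    have hρ00 : ρ0 ≠ 0 := by
      rintro rfl
      rw [zero_pow (hm i).ne'] at hρ0
      exact (map_ne_zero j).2 (hη0 i) hρ0.symm
    set w := (x p (ψ.comp j) - ψ (j (c i))) /
      (x p ((ψ.comp j).comp (cc K)) - ψ (j (cc K (c i)))) with hw
    have h3 : (w / ψ ρ0) ^ (m i) = 1 := by
      have h4 : w ^ (m i) = ψ (j (η i)) := h1
      rw [div_pow, h4, ← map_pow, hρ0, div_self ((map_ne_zero ψ).2 ((map_ne_zero j).2 (hη0 i)))]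
    obtain ⟨ζ, hζ, hζψ⟩ := exists_root ψ (f := Polynomial.X ^ (m i) - 1)
      (Polynomial.monic_X_pow_sub_C (1 : ℚ) (hm i).ne').ne_zero (w := w / ψ ρ0) (by simp [h3])
    have hζm : ζ ^ (m i) = 1 := by
      simp only [map_sub, map_pow, Polynomial.aeval_X, map_one] at hζ
      exact sub_eq_zero.1 hζ
    refine ⟨ζ * ρ0, ?_, ?_⟩
    · rw [Multiset.mem_toFinset, Polynomial.mem_nthRoots (hm i), mul_pow, hζm, one_mul, hρ0]
    · rw [map_mul, hζψ, div_mul_cancel₀ _ ((map_ne_zero ψ).2 hρ00), hw, div_mul_cancel₀ _ h2]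
  -- the possible values
  let Z : Finset A := (Finset.univ : Finset (Fin 3 × Fin 3)).biUnion (fun s =>
    (R s.1 ×ˢ R s.2).image (fun ρ =>
      (ρ.2 * (j (c s.1) - ρ.1 * j (cc K (c s.1))) - ρ.1 * (j (c s.2) - ρ.2 * j (cc K (c s.2)))) /
        (ρ.2 - ρ.1)))
  refine poly_of_finite j x Z fun p _ ψ => ?_
  choose ρ hρ hρx using fun i => hR i p ψ
  have key : ∀ i i', ρ i ≠ ρ i' → ∃ z ∈ Z, ψ z = x p (ψ.comp j) := by
    intro i i' hne
    refine ⟨_, Finset.mem_biUnion.2 ⟨(i, i'), Finset.mem_univ _, Finset.mem_image.2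
      ⟨(ρ i, ρ i'), Finset.mem_product.2 ⟨hρ i, hρ i'⟩, rfl⟩⟩, ?_⟩
    have h1 : ψ (ρ i') - ψ (ρ i) ≠ 0 := by
      rw [← map_sub]
      exact (map_ne_zero ψ).2 (sub_ne_zero.2 hne.symm)
    simp only [map_div₀, map_sub, map_mul]
    rw [div_eq_iff h1]
    have h2 := hρx i
    have h3 := hρx i'
    linear_combination (-(ψ (ρ i'))) * h2 + ψ (ρ i) * h3
  by_cases h01 : ρ 0 = ρ 1
  · by_cases h02 : ρ 0 = ρ 2
    · exfalso
      apply hc
      apply j.injective
      apply ψ.injective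
      have h0 := hρx 0
      have h1 := hρx 1
      have h2 := hρx 2
      rw [← h01] at h1
      rw [← h02] at h2
      simp only [map_mul, map_sub]
      have e1 : ψ (j (c 1)) - ψ (j (c 0)) =
          ψ (ρ 0) * (ψ (j (cc K (c 1))) - ψ (j (cc K (c 0)))) := by
        linear_combination h0 - h1
      have e2 : ψ (j (c 2)) - ψ (j (c 0)) =
          ψ (ρ 0) * (ψ (j (cc K (c 2))) - ψ (j (cc K (c 0)))) := by
        linear_combination h0 - h2
      rw [e1, e2]
      ring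
    · exact key 0 2 h02
  · exact key 0 1 h01

/-- **The main theorem on adelic points.** -/
theorem adelic_point {x : ∀ (p : ℕ) [Fact p.Prime], (K →+* PadicAlgCl p) → PadicAlgCl p}
    {F : Type} [Field F] [NumberField F] {jF : K →+* F} {θ : F} (h : Dat x F jF θ)
    (P : Polynomial ℚ) (hP : P ≠ 0)
    (hPx : ∀ (p : ℕ) [Fact p.Prime] (φ : K →+* PadicAlgCl p), Polynomial.aeval (x p φ) P = 0) :
    ∃ ξ : K, ∀ (p : ℕ) [Fact p.Prime] (φ : K →+* PadicAlgCl p), x p φ = φ ξ := by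
  obtain ⟨A, _, _, _, _⟩ := exists_closure
  obtain ⟨j⟩ := exists_emb F A
  obtain ⟨a, ha⟩ := h.exists_a
  obtain ⟨x0, hx0⟩ := adelic_main j (fun p _ Φ => x p (Φ.comp jF)) θ
    (fun p _ Φ h0 => h.ne p Φ (sub_eq_zero.2 h0)) a ha P hP (fun p _ Φ => hPx p _)
  exact descend (j.comp jF) x (x0 := x0) (fun p _ ψ => hx0 p ψ)

end Pool.Agent.Q33.SecL
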