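import Mathlib

/-!
# Local facts: an element of a finite extension of `ℚ_p` which is a `k!`-th power for infinitely many
`k` is `1`
-/

set_option autoImplicit false

namespace Pool.Agent.Q33.SecL

open Polynomial

section one

variable {p : ℕ} [Fact p.Prime]

/-- automorphisms are isometric -/
lemma norm_aut (σ : PadicAlgCl p ≃ₐ[ℚ_[p]] PadicAlgCl p) (x : PadicAlgCl p) : ‖σ x‖ = ‖x‖ := by
  rw [← PadicAlgCl.spectralNorm_eq, ← PadicAlgCl.spectralNorm_eq]
  exact (spectralNorm_eq_of_equiv σ x).symm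

lemma norm_base (x : ℚ_[p]) : ‖algebraMap ℚ_[p] (PadicAlgCl p) x‖ = ‖x‖ :=
  PadicAlgCl.norm_extends p x

/-- a finite net in the unit ball -/
lemma exists_net (L : IntermediateField ℚ_[p] (PadicAlgCl p)) (hL : FiniteDimensional ℚ_[p] L)
    {ε : ℝ} (hε : 0 < ε) :
    ∃ t : Finset (PadicAlgCl p), ∀ w ∈ L, ‖w‖ ≤ 1 → ∃ y ∈ t, ‖w - y‖ < ε := by
  classical
  let S : Submodule ℚ_[p] (PadicAlgCl p) := Subalgebra.toSubmodule L.toSubalgebra
  have hS : FiniteDimensional ℚ_[p] S := hL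
  have : ProperSpace S := FiniteDimensional.proper ℚ_[p] S
  have h1 := (isCompact_closedBall (0 : S) 1).totallyBounded
  obtain ⟨t, ht, h2⟩ := Metric.totallyBounded_iff.1 h1 ε hε
  refine ⟨ht.toFinset.image Subtype.val, fun w hw hw1 => ?_⟩
  have h3 : (⟨w, hw⟩ : S) ∈ Metric.closedBall (0 : S) 1 := by
    rw [mem_closedBall_zero_iff]
    exact hw1
  obtain ⟨y, hy, hyw⟩ := Set.mem_iUnion₂.1 (h2 h3)
  refine ⟨y, Finset.mem_image.2 ⟨y, ht.mem_toFinset.2 hy, rfl⟩, ?_⟩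
  rw [Metric.mem_ball, dist_eq_norm] at hyw
  exact hyw

/-- powers of elements near `1` -/
lemma norm_pow_sub_one {v : PadicAlgCl p} {ε : ℝ} (hv : ‖v‖ = 1) (h : ‖v - 1‖ < ε) (m : ℕ) :
    ‖v ^ m - 1‖ < ε := by
  have hε : 0 < ε := lt_of_le_of_lt (norm_nonneg _) h
  induction m with
  | zero => simpa using hε
  | succ m ih =>
    have e : v ^ (m + 1) - 1 = v * (v ^ m - 1) + (v - 1) := by ring
    rw [e]
    refine lt_of_le_of_lt (IsUltrametricDist.norm_add_le_max _ _) (max_lt ?_ h)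
    rw [norm_mul, hv, one_mul]
    exact ih

/-- units of norm one are close to `1` after raising to a fixed power -/
lemma exists_pow_near (L : IntermediateField ℚ_[p] (PadicAlgCl p)) (hL : FiniteDimensional ℚ_[p] L)
    {ε : ℝ} (hε : 0 < ε) :
    ∃ q : ℕ, ∀ w ∈ L, ‖w‖ = 1 → ‖w ^ q.factorial - 1‖ < ε := by
  classical
  obtain ⟨t, ht⟩ := exists_net L hL hε
  refine ⟨t.card, fun w hw hw1 => ?_⟩
  have h1 : ∀ i ∈ Finset.range (t.card + 1), ∃ y ∈ t, ‖w ^ i - y‖ < ε := fun i _ =>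
    ht _ (pow_mem hw i) (by rw [norm_pow, hw1, one_pow])
  choose! f hf hf' using h1
  obtain ⟨i, hi, j, hj, hij, hfij⟩ := Finset.exists_ne_map_eq_of_card_lt_of_maps_to
    (by rw [Finset.card_range]; exact Nat.lt_succ_self _) hf
  have key : ∀ i j : ℕ, i < j → j ≤ t.card → f i = f j → ‖w ^ t.card.factorial - 1‖ < ε := by
    intro i j hij hjt hfij
    have h2 : ‖w ^ j - w ^ i‖ < ε := by
      have e : w ^ j - w ^ i = (w ^ j - f j) + -(w ^ i - f i) := by rw [hfij]; ring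
      rw [e]
      refine lt_of_le_of_lt (IsUltrametricDist.norm_add_le_max _ _) (max_lt ?_ ?_)
      · exact hf' j (Finset.mem_range.2 (by omega))
      · rw [norm_neg]
        exact hf' i (Finset.mem_range.2 (by omega))
    have h3 : ‖w ^ (j - i) - 1‖ < ε := by
      have e : w ^ j - w ^ i = w ^ i * (w ^ (j - i) - 1) := by
        rw [mul_sub, mul_one, ← pow_add, Nat.add_sub_cancel' hij.le]
      rw [e, norm_mul, norm_pow, hw1, one_pow, one_mul] at h2
      exact h2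
    obtain ⟨m, hm⟩ : (j - i) ∣ t.card.factorial := Nat.dvd_factorial (by omega) (by omega)
    rw [hm, pow_mul]
    exact norm_pow_sub_one (by rw [norm_pow, hw1, one_pow]) h3 m
  rw [Finset.mem_range] at hi hj
  rcases lt_or_gt_of_ne hij with h | h
  · exact key i j h (by omega) hfij
  · exact key j i h (by omega) hfij.symm

/-- the value group -/
lemma norm_natDegree {w : PadicAlgCl p} (hw : w ≠ 0) :
    ∃ z : ℤ, ‖w‖ ^ (minpoly ℚ_[p] w).natDegree = (p : ℝ) ^ z := by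
  have hint : IsIntegral ℚ_[p] w := (Algebra.IsAlgebraic.isAlgebraic w).isIntegral
  have hd : 0 < (minpoly ℚ_[p] w).natDegree := minpoly.natDegree_pos hint
  have h0 : (minpoly ℚ_[p] w).coeff 0 ≠ 0 := minpoly.coeff_zero_ne_zero hint hw
  refine ⟨-Padic.valuation ((minpoly ℚ_[p] w).coeff 0), ?_⟩
  rw [← PadicAlgCl.spectralNorm_eq, spectralNorm.spectralNorm_eq_norm_coeff_zero_rpow,
    ← Real.rpow_natCast, ← Real.rpow_mul (norm_nonneg _), one_div, inv_mul_cancel₀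
    (by exact_mod_cast hd.ne'), Real.rpow_one, Padic.norm_eq_zpow_neg_valuation h0]

lemma norm_pow_factorial {w : PadicAlgCl p} (hw : w ≠ 0) {D : ℕ}
    (hD : (minpoly ℚ_[p] w).natDegree ≤ D) :
    ∃ z : ℤ, ‖w‖ ^ D.factorial = (p : ℝ) ^ z := by
  have hint : IsIntegral ℚ_[p] w := (Algebra.IsAlgebraic.isAlgebraic w).isIntegral
  obtain ⟨z, hz⟩ := norm_natDegree hw
  obtain ⟨m, hm⟩ := Nat.dvd_factorial (minpoly.natDegree_pos hint) hD
  refine ⟨z * m, ?_⟩
  rw [hm, pow_mul, hz, zpow_mul, zpow_natCast]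

lemma norm_pow_mem (L : IntermediateField ℚ_[p] (PadicAlgCl p)) (hL : FiniteDimensional ℚ_[p] L)
    {w : PadicAlgCl p} (hwL : w ∈ L) (hw : w ≠ 0) {D : ℕ} (hD : Module.finrank ℚ_[p] L ≤ D) :
    ∃ z : ℤ, ‖w‖ ^ D.factorial = (p : ℝ) ^ z := by
  refine norm_pow_factorial hw (le_trans ?_ hD)
  have h1 : minpoly ℚ_[p] w = minpoly ℚ_[p] (⟨w, hwL⟩ : L) :=
    (minpoly.algebraMap_eq (algebraMap L (PadicAlgCl p)).injective (⟨w, hwL⟩ : L))
  rw [h1]
  exact minpoly.natDegree_le _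

/-- **L1.** -/
theorem eq_one_of_powers (L : IntermediateField ℚ_[p] (PadicAlgCl p))
    (hL : FiniteDimensional ℚ_[p] L) {y : PadicAlgCl p} (hy0 : y ≠ 0)
    (h : ∀ B : ℕ, ∃ k, B ≤ k ∧ ∃ w ∈ L, w ^ k.factorial = y) : y = 1 := by
  have hp1 : (1 : ℝ) < p := by exact_mod_cast (Fact.out : p.Prime).one_lt
  have hnorm : ‖y‖ = 1 := by
    by_contra hne
    obtain ⟨k0, -, w0, hw0, hw0y⟩ := h 0
    have hyL : y ∈ L := by rw [← hw0y]; exact pow_mem hw0 _
    set D := Module.finrank ℚ_[p] L with hD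
    obtain ⟨z, hz⟩ := norm_pow_mem L hL hyL hy0 le_rfl
    have hz0 : z ≠ 0 := by
      rintro rfl
      rw [zpow_zero] at hz
      exact hne ((pow_eq_one_iff_of_nonneg (norm_nonneg _) (Nat.factorial_ne_zero _)).1 hz)
    obtain ⟨k, hk, w, hw, hwy⟩ := h (z.natAbs + 1)
    have hw0 : w ≠ 0 := by
      rintro rfl
      rw [zero_pow (Nat.factorial_ne_zero _)] at hwy
      exact hy0 hwy.symm
    obtain ⟨z', hz'⟩ := norm_pow_mem L hL hw hw0 (le_refl D)
    have h1 : (p : ℝ) ^ z = (p : ℝ) ^ (z' * k.factorial) := by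
      rw [← hz, ← hwy, norm_pow, ← pow_mul, mul_comm, pow_mul, hz', zpow_mul, zpow_natCast]
    have h2 : z = z' * k.factorial := zpow_right_injective₀ (by linarith) hp1.ne' h1
    have h3 : (k.factorial : ℤ) ∣ z := ⟨z', by rw [h2, mul_comm]⟩
    have h4 : k.factorial ≤ z.natAbs := by
      have := Int.natAbs_dvd_natAbs.2 h3
      rw [Int.natAbs_natCast] at this
      exact Nat.le_of_dvd (Int.natAbs_pos.2 hz0) this
    have h5 : k ≤ k.factorial := Nat.self_le_factorial k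
    omega
  by_contra hne
  have hε : 0 < ‖y - 1‖ := norm_pos_iff.2 (sub_ne_zero.2 hne)
  obtain ⟨q, hq⟩ := exists_pow_near L hL hε
  obtain ⟨k, hk, w, hw, hwy⟩ := h q
  have hw1 : ‖w‖ = 1 := by
    have : ‖w‖ ^ k.factorial = 1 := by rw [← norm_pow, hwy, hnorm]
    exact (pow_eq_one_iff_of_nonneg (norm_nonneg _) (Nat.factorial_ne_zero _)).1 this
  obtain ⟨m, hm⟩ := Nat.factorial_dvd_factorial hk
  have h1 := norm_pow_sub_one (v := w ^ q.factorial) (by rw [norm_pow, hw1, one_pow]) (hq w hw hw1) m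
  rw [← pow_mul, ← hm, hwy] at h1
  exact lt_irrefl _ h1

end one

end Pool.Agent.Q33.SecL
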