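import Mathlib

/-!
# The numbers `v ^ d - 1`
-/

set_option autoImplicit false

namespace Pool.Agent.Q33.SecL

/-- the greatest common divisor of `N` and all `v ^ d - 1`, `v` prime to `N`, is bounded -/
lemma dvd_of_forall_unit {d N g : ℕ} (hd : 0 < d) (hN : 0 < N) (hgN : g ∣ N)
    (h : ∀ v : ℕ, v.Coprime N → (g : ℤ) ∣ (v : ℤ) ^ d - 1) :
    g ∣ ((d + 1).factorial) ^ (2 * d) := by
  have : NeZero N := ⟨hN.ne'⟩
  rw [Nat.dvd_iff_prime_pow_dvd_dvd]
  intro l b hl hlb
  rcases Nat.eq_zero_or_pos b with rfl | hb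
  · simp
  have : Fact l.Prime := ⟨hl⟩
  have h1 : ∀ v : ℕ, v.Coprime l → ((v : ℕ) : ZMod (l ^ b)) ^ d = 1 := by
    intro v hv
    have hlN : l ^ b ∣ N := hlb.trans hgN
    have hv' : v.Coprime (l ^ b) := Nat.Coprime.pow_right b hv
    obtain ⟨u, hu⟩ := ZMod.unitsMap_surjective hlN (ZMod.unitOfCoprime v hv')
    have h2 := h _ (ZMod.val_coe_unit_coprime u)
    have h3 : ((l ^ b : ℕ) : ℤ) ∣ (((u : ZMod N).val : ℕ) : ℤ) ^ d - 1 :=
      (Int.natCast_dvd_natCast.2 hlb).trans h2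
    have h4 := (ZMod.intCast_zmod_eq_zero_iff_dvd _ _).2 h3
    push_cast at h4
    have h5 : ((u : ZMod N).cast : ZMod (l ^ b)) = (v : ZMod (l ^ b)) := by
      have := congrArg (fun x : (ZMod (l ^ b))ˣ => (x : ZMod (l ^ b))) hu
      simpa [ZMod.unitsMap_def] using this
    have h6 : (((u : ZMod N).val : ℕ) : ZMod (l ^ b)) = (v : ZMod (l ^ b)) := by
      rw [← h5, ZMod.natCast_val]
    rw [h6] at h4
    exact sub_eq_zero.1 h4
  have hll : l ≤ d + 1 := by
    have h2 : Monoid.exponent (ZMod l)ˣ ∣ d := by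
      apply Monoid.exponent_dvd_of_forall_pow_eq_one
      intro u
      have h3 : (u : ZMod l).val.Coprime l := ZMod.val_coe_unit_coprime u
      have h4 := h1 _ h3
      have h5 := congrArg (ZMod.castHom (dvd_pow_self l hb.ne') (ZMod l)) h4
      rw [map_pow, map_natCast, map_one, ZMod.natCast_zmod_val] at h5
      exact Units.ext h5
    rw [IsCyclic.exponent_eq_card, Nat.card_eq_fintype_card, ZMod.card_units_eq_totient,
      Nat.totient_prime hl] at h2
    have := Nat.le_of_dvd hd h2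
    omega
  have hbd : b ≤ 2 * d := by
    have h2 : (l + 1).Coprime l := by simp
    have h3 := h1 _ h2
    have h4 : ((l ^ b : ℕ) : ℤ) ∣ (((l + 1 : ℕ) : ℤ)) ^ d - 1 := by
      rw [← ZMod.intCast_zmod_eq_zero_iff_dvd]
      push_cast
      push_cast at h3
      rw [h3, sub_self]
    have h5 : (1 : ℤ) < ((l + 1 : ℕ) : ℤ) ^ d := by
      apply one_lt_pow₀ _ hd.ne'
      have := hl.two_le
      push_cast
      omega
    have h6 := Int.le_of_dvd (by omega) h4
    have h7 : ((l + 1 : ℕ) : ℤ) ^ d ≤ ((l ^ (2 * d) : ℕ) : ℤ) := by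
      have h8 : l + 1 ≤ l ^ 2 := by
        have := hl.two_le
        nlinarith
      have h9 : (l + 1) ^ d ≤ (l ^ 2) ^ d := Nat.pow_le_pow_left h8 d
      rw [← pow_mul] at h9
      exact_mod_cast h9
    have h10 : l ^ b < l ^ (2 * d) := by
      have : ((l ^ b : ℕ) : ℤ) < ((l ^ (2 * d) : ℕ) : ℤ) := by omega
      exact_mod_cast this
    exact ((Nat.pow_lt_pow_iff_right hl.one_lt).1 h10).le
  calc l ^ b ∣ l ^ (2 * d) := pow_dvd_pow l hbd
    _ ∣ ((d + 1).factorial) ^ (2 * d) := pow_dvd_pow_of_dvd (Nat.dvd_factorial hl.pos hll) _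

end Pool.Agent.Q33.SecL
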