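import Pool.Agent.Q33.SecL.Step2
import Pool.Agent.W518.TC.Ord

/-!
# Orders at primes and norms of the images in `p`-adic fields
-/

set_option autoImplicit false
set_option linter.unusedSectionVars false

namespace Pool.Agent.Q33.SecL

open NumberField IsDedekindDomain Pool.Agent.W518.TC

variable {L : Type} [Field L] [NumberField L]

section one

variable {p : ℕ} [Fact p.Prime]

lemma natCast_mem_primeOf (μ : L →+* PadicAlgCl p) : (p : 𝓞 L) ∈ primeOf μ := by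
  rw [mem_primeOf, map_natCast, map_natCast]
  exact norm_int_lt (p := p) (z := (p : ℤ)) dvd_rfl

/-- the prime of `L` defined by an embedding -/
noncomputable def pv (μ : L →+* PadicAlgCl p) : HeightOneSpectrum (𝓞 L) where
  asIdeal := primeOf μ
  isPrime := primeOf_isPrime μ
  ne_bot := by
    intro h
    have h1 := natCast_mem_primeOf μ
    rw [h, Ideal.mem_bot] at h1
    exact (Fact.out : p.Prime).ne_zero (by exact_mod_cast h1)

lemma norm_integer_le (μ : L →+* PadicAlgCl p) (x : 𝓞 L) : ‖μ (algebraMap (𝓞 L) L x)‖ ≤ 1 :=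
  norm_le_one_of_isIntegral (x.isIntegral_coe.map μ.toIntAlgHom)

lemma norm_integral_le (μ : L →+* PadicAlgCl p) {x : L} (hx : IsIntegral ℤ x) : ‖μ x‖ ≤ 1 :=
  norm_le_one_of_isIntegral (hx.map μ.toIntAlgHom)

lemma norm_eq_one_of_integral (μ : L →+* PadicAlgCl p) {x : L} (hx : IsIntegral ℤ x) (hx0 : x ≠ 0)
    (h : ord (pv μ) x = 0) : ‖μ x‖ = 1 := by
  apply le_antisymm (norm_integral_le μ hx)
  by_contra hlt
  push Not at hlt
  rw [ord_eq_zero_iff _ hx0] at h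
  have h1 := (HeightOneSpectrum.valuation_eq_one_iff_notMem (K := L) (pv μ)
    (r := (⟨x, hx⟩ : 𝓞 L))).1 h
  exact h1 hlt

/-- the generator of a power of the prime ideal -/
lemma exists_gen (L : Type) [Field L] [NumberField L] : ∃ h : ℕ, 0 < h ∧
    ∀ v : HeightOneSpectrum (𝓞 L), ∃ β : L, β ≠ 0 ∧ IsIntegral ℤ β ∧ ord v β = h ∧
      ∀ w, w ≠ v → ord w β = 0 := by
  obtain ⟨h, hh, H⟩ := exists_class_number (L := L)
  refine ⟨h, hh, fun v => ?_⟩
  obtain ⟨β, hβ0, hβ⟩ := H v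
  exact ⟨β, by simpa using hβ0, β.isIntegral_coe, ord_generator v hβ hβ0,
    fun w hw => ord_generator_ne v hw hβ hβ0⟩

lemma norm_le_of_ord (μ : L →+* PadicAlgCl p) {a : L} (ha : a ≠ 0) (h : 0 ≤ ord (pv μ) a) :
    ‖μ a‖ ≤ 1 := by
  obtain ⟨k, hk, H⟩ := exists_gen L
  obtain ⟨β, hβ0, hβint, hβv, hβw⟩ := H (pv μ)
  obtain ⟨x, y, hy, hxy⟩ := IsFractionRing.div_surjective (A := 𝓞 L) a
  have hy0 : algebraMap (𝓞 L) L y ≠ 0 := by
    simpa using nonZeroDivisors.ne_zero hy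
  have hx0 : algebraMap (𝓞 L) L x ≠ 0 := by
    intro h0
    rw [h0, zero_div] at hxy
    exact ha hxy.symm
  set m := ord (pv μ) (algebraMap (𝓞 L) L y) with hm
  have hm0 : 0 ≤ m := (isIntegral_iff_ord hy0).1 y.isIntegral_coe _
  have hxm : m ≤ ord (pv μ) (algebraMap (𝓞 L) L x) := by
    have h1 := ord_div (pv μ) hx0 hy0
    rw [hxy] at h1
    omega
  have hβm : β ^ m ≠ 0 := zpow_ne_zero _ hβ0
  have key : ∀ z : 𝓞 L, algebraMap (𝓞 L) L z ≠ 0 → m ≤ ord (pv μ) (algebraMap (𝓞 L) L z) →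
      IsIntegral ℤ ((algebraMap (𝓞 L) L z) ^ k / β ^ m) := by
    intro z hz0 hz
    rw [isIntegral_iff_ord (div_ne_zero (pow_ne_zero _ hz0) hβm)]
    intro w
    rw [ord_div _ (pow_ne_zero _ hz0) hβm, ord_pow, ord_zpow]
    by_cases hw : w = pv μ
    · rw [hw, hβv]
      have : (0 : ℤ) ≤ k * (ord (pv μ) (algebraMap (𝓞 L) L z) - m) :=
        mul_nonneg (by positivity) (by omega)
      linarith
    · rw [hβw w hw, mul_zero, sub_zero]
      exact mul_nonneg (by positivity) ((isIntegral_iff_ord hz0).1 z.isIntegral_coe w)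
  have h1 := norm_integral_le μ (key x hx0 hxm)
  have h2 : ‖μ ((algebraMap (𝓞 L) L y) ^ k / β ^ m)‖ = 1 := by
    apply norm_eq_one_of_integral μ (key y hy0 hm.le) (div_ne_zero (pow_ne_zero _ hy0) hβm)
    rw [ord_div _ (pow_ne_zero _ hy0) hβm, ord_pow, ord_zpow, hβv, ← hm]
    ring
  have h3 : a ^ k = ((algebraMap (𝓞 L) L x) ^ k / β ^ m) /
      ((algebraMap (𝓞 L) L y) ^ k / β ^ m) := by
    rw [← hxy, div_pow]
    field_simp
  have h4 : ‖μ a‖ ^ k ≤ 1 := by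
    rw [← norm_pow, ← map_pow, h3, map_div₀, norm_div, h2, div_one]
    exact h1
  exact (pow_le_one_iff_of_nonneg (norm_nonneg _) hk.ne').1 h4

lemma norm_eq_one_of_ord (μ : L →+* PadicAlgCl p) {a : L} (ha : a ≠ 0) (h : ord (pv μ) a = 0) :
    ‖μ a‖ = 1 := by
  apply le_antisymm (norm_le_of_ord μ ha h.ge)
  have h1 := norm_le_of_ord μ (inv_ne_zero ha) (by rw [ord_inv, h, neg_zero])
  rw [map_inv₀, norm_inv] at h1
  exact (inv_le_one₀ (norm_pos_iff.2 ((map_ne_zero μ).2 ha))).1 h1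

lemma ord_eq_of_norm_eq (μ : L →+* PadicAlgCl p) {a b : L} (ha : a ≠ 0) (hb : b ≠ 0)
    (h : ‖μ a‖ = ‖μ b‖) : ord (pv μ) a = ord (pv μ) b := by
  obtain ⟨k, hk, H⟩ := exists_gen L
  obtain ⟨β, hβ0, hβint, hβv, hβw⟩ := H (pv μ)
  have hβ1 : ‖μ β‖ < 1 := by
    have h1 : ord (pv μ) β ≠ 0 := by
      rw [hβv]
      exact_mod_cast hk.ne'
    by_contra hc
    push Not at hc
    apply h1
    rw [ord_eq_zero_iff _ hβ0]
    refine (HeightOneSpectrum.valuation_eq_one_iff_notMem (K := L) (pv μ)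
      (r := (⟨β, hβint⟩ : 𝓞 L))).2 ?_
    intro hmem
    exact absurd (show ‖μ β‖ < 1 from hmem) (not_lt.2 hc)
  have hβpos : 0 < ‖μ β‖ := norm_pos_iff.2 ((map_ne_zero μ).2 hβ0)
  have key : ∀ a : L, a ≠ 0 → ‖μ a‖ ^ k = ‖μ β‖ ^ ord (pv μ) a := by
    intro a ha
    have h1 : ‖μ (a ^ k / β ^ ord (pv μ) a)‖ = 1 := by
      apply norm_eq_one_of_ord μ (div_ne_zero (pow_ne_zero _ ha) (zpow_ne_zero _ hβ0))
      rw [ord_div _ (pow_ne_zero _ ha) (zpow_ne_zero _ hβ0), ord_pow, ord_zpow, hβv]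
      ring
    rw [map_div₀, norm_div, map_pow, map_zpow₀, norm_pow, norm_zpow] at h1
    exact (div_eq_one_iff_eq (zpow_ne_zero _ hβpos.ne')).1 h1
  have h1 : ‖μ β‖ ^ ord (pv μ) a = ‖μ β‖ ^ ord (pv μ) b := by
    rw [← key a ha, ← key b hb, h]
  exact zpow_right_injective₀ hβpos hβ1.ne h1

end one

lemma exists_emb_prime_gal (E : Type) [Field E] [NumberField E] [IsGalois ℚ E] (w : Ideal (𝓞 E))
    [hw : w.IsPrime] (p : ℕ) [Fact p.Prime] (hp : (p : 𝓞 E) ∈ w) :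
    ∃ ψ : E →+* PadicAlgCl p, primeOf ψ = w := by
  obtain ⟨ψ0⟩ : Nonempty (E →+* PadicAlgCl p) := inferInstance
  have h1 : w.under ℤ = (primeOf ψ0).under ℤ := by
    rw [under_eq Fact.out _ hw hp, under_eq Fact.out _ (primeOf_isPrime ψ0)
      (natCast_mem_primeOf ψ0)]
  obtain ⟨τ, hτ⟩ := Algebra.IsInvariant.exists_smul_of_under_eq ℤ (𝓞 E) Gal(E/ℚ) _ _ h1
  refine ⟨ψ0.comp (τ : E →+* E), ?_⟩
  ext x
  have h2 : x ∈ primeOf (ψ0.comp (τ : E →+* E)) ↔ τ • x ∈ primeOf ψ0 := Iff.rfl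
  rw [h2, hτ, Ideal.smul_mem_pointwise_smul_iff]

lemma exists_galois_closure (L : Type) [Field L] [NumberField L] :
    ∃ (E : Type) (_ : Field E) (_ : NumberField E) (_ : IsGalois ℚ E), Nonempty (L →+* E) := by
  obtain ⟨A, _, _, _, _⟩ := exists_closure
  obtain ⟨j⟩ := exists_emb L A
  have hG := isGaloisA (A := A)
  obtain ⟨θ, hθ⟩ := img_le (j := j)
  let Lf := FiniteGaloisIntermediateField.adjoin ℚ ({θ} : Set A)
  let E : IntermediateField ℚ A := Lf.toIntermediateField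
  have hE : ∀ y, j y ∈ E := fun y => hθ E
    (FiniteGaloisIntermediateField.subset_adjoin ℚ _ (Set.mem_singleton θ)) (mem_img.2 ⟨y, rfl⟩)
  have hfd : @FiniteDimensional ℚ E _ _ E.algebra'.toModule := Lf.finiteDimensional
  have hgal : @IsGalois ℚ _ E _ E.algebra' := Lf.isGalois
  have hN : NumberField E := ⟨⟩
  have key : ∀ alg : Algebra ℚ E, @IsGalois ℚ _ E _ alg := by
    intro alg
    obtain rfl : alg = E.algebra' := Subsingleton.elim _ _
    exact hgal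
  exact ⟨E, inferInstance, hN, key _, ⟨j.codRestrict E hE⟩⟩

/-- every prime comes from an embedding -/
lemma exists_pv (v : HeightOneSpectrum (𝓞 L)) :
    ∃ (p : ℕ) (_ : Fact p.Prime) (μ : L →+* PadicAlgCl p), pv μ = v := by
  classical
  have hP : (v.asIdeal.under ℤ).IsPrime := Ideal.IsPrime.under ℤ v.asIdeal
  have hP0 : v.asIdeal.under ℤ ≠ ⊥ := by
    obtain ⟨x, hx, hx0⟩ := Submodule.exists_mem_ne_zero_of_ne_bot v.ne_bot
    exact Ideal.comap_ne_bot_of_integral_mem hx0 hx (Algebra.IsIntegral.isIntegral x)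
  have hg := Submodule.IsPrincipal.prime_generator_of_isPrime (v.asIdeal.under ℤ) hP0
  set g := Submodule.IsPrincipal.generator (v.asIdeal.under ℤ) with hgdef
  have hp : g.natAbs.Prime := Int.prime_iff_natAbs_prime.1 hg
  have hgm : (g : 𝓞 L) ∈ v.asIdeal := by
    have h1 : g ∈ v.asIdeal.under ℤ := Submodule.IsPrincipal.generator_mem _
    rw [Ideal.under_def, Ideal.mem_comap] at h1
    simpa using h1
  have hpm : ((g.natAbs : ℕ) : 𝓞 L) ∈ v.asIdeal := by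
    have h1 : ((g.natAbs : ℕ) : 𝓞 L) = ((g.natAbs : ℤ) : 𝓞 L) :=
      (Int.cast_natCast _).symm
    rw [h1]
    rcases Int.natAbs_eq g with h2 | h2
    · rw [← h2]; exact hgm
    · have h3 : ((g.natAbs : ℕ) : ℤ) = -g := by omega
      rw [h3, Int.cast_neg]
      exact neg_mem hgm
  have hpf : Fact g.natAbs.Prime := ⟨hp⟩
  refine ⟨g.natAbs, hpf, ?_⟩
  obtain ⟨E, _, _, _, ⟨jE⟩⟩ := exists_galois_closure L
  let alg : Algebra L E := jE.toAlgebra
  obtain ⟨w, hw, hwv⟩ := Ideal.exists_ideal_over_prime_of_isIntegral_of_isDomain (R := 𝓞 L)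
    (S := 𝓞 E) v.asIdeal (by
      rw [(RingHom.injective_iff_ker_eq_bot _).1 (FaithfulSMul.algebraMap_injective (𝓞 L) (𝓞 E))]
      exact bot_le)
  obtain ⟨ψ, hψ⟩ := exists_emb_prime_gal E w g.natAbs (by
    have h1 : ((g.natAbs : ℕ) : 𝓞 L) ∈ w.comap (algebraMap (𝓞 L) (𝓞 E)) := by
      rw [hwv]
      exact hpm
    rw [Ideal.mem_comap, map_natCast] at h1
    exact h1)
  refine ⟨ψ.comp jE, ?_⟩
  apply HeightOneSpectrum.ext
  change primeOf (ψ.comp jE) = v.asIdeal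
  rw [← hwv, ← hψ]
  ext x
  rfl

end Pool.Agent.Q33.SecL
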