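import Pool.Agent.Q33.SecL.Step2

/-!
# Classes that are locally trivial
-/

set_option autoImplicit false
set_option linter.unusedSectionVars false

namespace Pool.Agent.Q33.SecL

open Polynomial NumberField

section aux

variable {A : Type} [Field A] [CharZero A] [IsAlgClosed A] [Algebra.IsAlgebraic ℚ A]
variable {K : Type} [Field K] [NumberField K]

/-- compatible classes in `K` that are locally `N`-th powers are `N`-th powers -/
theorem powers_aux (j : K →+* A) (y : ℕ → K)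
    (hy : ∀ (p : ℕ) [Fact p.Prime] (φ : K →+* PadicAlgCl p) (N : ℕ), 0 < N →
      ∃ u ∈ LL φ, φ (y N) = u ^ N) (hy0 : ∀ N, 0 < N → y N ≠ 0)
    (hcomp : ∀ N M : ℕ, 0 < N → 0 < M → ∃ t : K, y (N * M) = y N * t ^ N)
    (N : ℕ) (hN : 0 < N) : ∃ t : K, y N = t ^ N := by
  classical
  obtain ⟨θ, hθ⟩ := img_le (j := j)
  obtain ⟨E, d, hE, hSE, hd0, hd⟩ := exists_exponent ({θ} : Finset A)
  have hjE : img j ≤ E := hθ E (hSE θ (Finset.mem_singleton_self _))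
  set Q0 : ℕ := (Fintype.card Unit).factorial * ((d + 1).factorial) ^ (2 * d) with hQ0
  have hQ0pos : 0 < Q0 := Nat.mul_pos (Nat.factorial_pos _) (pow_pos (Nat.factorial_pos _) _)
  have hgen : ∀ N, 0 < N → ∃ t : K, y N ^ Q0 = t ^ N := by
    intro N hN
    obtain ⟨-, δ, hδ, h⟩ := general (img j) (img_finite j) hd0
      (fun τ x hx => hd τ x (hjE hx)) (ι := Unit) hN (fun _ => j (y N))
      (fun _ => mem_img.2 ⟨_, rfl⟩) (fun _ => (map_ne_zero j).2 (hy0 N hN)) (by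
        intro p _ ψ hψ
        obtain ⟨u, hu, hu'⟩ := hy p (ψ.comp j) N hN
        exact ⟨(), u, inBase_of_mem_LL (φ := ψ.comp j)
          (fun z => hψ _ (mem_img.2 ⟨z, rfl⟩)) hu, hu'⟩)
    obtain ⟨t, rfl⟩ := mem_img.1 hδ
    refine ⟨t, j.injective ?_⟩
    rw [map_pow, map_pow]
    exact h
  let μ := {ζ : K // ζ ∈ nthRootsFinset Q0 (1 : K)}
  have hNk : ∀ k : ℕ, 0 < N * (Q0 * k.factorial) := fun k =>
    Nat.mul_pos hN (Nat.mul_pos hQ0pos (Nat.factorial_pos _))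
  have hk : ∀ k : ℕ, ∃ ζ : μ, ∃ t : K, t ≠ 0 ∧
      y (N * (Q0 * k.factorial)) = ζ * t ^ (N * k.factorial) := by
    intro k
    obtain ⟨t, ht⟩ := hgen _ (hNk k)
    have ht0 : t ≠ 0 := by
      rintro rfl
      rw [zero_pow (hNk k).ne'] at ht
      exact pow_ne_zero _ (hy0 _ (hNk k)) ht
    refine ⟨⟨y (N * (Q0 * k.factorial)) / t ^ (N * k.factorial), ?_⟩, t, ht0, ?_⟩
    · rw [mem_nthRootsFinset hQ0pos, div_pow, ht, ← pow_mul]
      have : N * k.factorial * Q0 = N * (Q0 * k.factorial) := by ring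
      rw [this, div_self (pow_ne_zero _ ht0)]
    · exact (div_mul_cancel₀ _ (pow_ne_zero _ ht0)).symm
  obtain ⟨ζ, hζ⟩ := pigeon hk
  have hζ0 : (ζ : K) ≠ 0 := by
    intro h0
    have h1 := (mem_nthRootsFinset hQ0pos _).1 ζ.2
    rw [h0, zero_pow hQ0pos.ne'] at h1
    exact zero_ne_one h1
  have hζ1 : (ζ : K) = 1 := by
    obtain ⟨φ⟩ : Nonempty (K →+* PadicAlgCl 2) := inferInstance
    apply φ.injective
    rw [map_one]
    refine eq_one_of_powers (LL φ) (LL_finite φ) ((map_ne_zero φ).2 hζ0) fun B => ?_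
    obtain ⟨k, hk, t, ht0, ht⟩ := hζ B
    obtain ⟨u, hu, hu'⟩ := hy 2 φ _ (hNk k)
    refine ⟨k, hk, u ^ (N * Q0) / φ t ^ N, div_mem (pow_mem hu _) (pow_mem (mem_LL φ t) _), ?_⟩
    rw [ht, map_mul, map_pow] at hu'
    have h1 : φ t ^ (N * k.factorial) ≠ 0 := pow_ne_zero _ ((map_ne_zero φ).2 ht0)
    rw [← eq_div_iff h1] at hu'
    rw [hu', div_pow, ← pow_mul, ← pow_mul, mul_assoc]
  obtain ⟨k, -, t, ht0, ht⟩ := hζ 0
  rw [hζ1, one_mul] at ht
  obtain ⟨s, hs⟩ := hcomp N (Q0 * k.factorial) hN (Nat.mul_pos hQ0pos (Nat.factorial_pos _))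
  have hs0 : s ≠ 0 := by
    rintro rfl
    rw [zero_pow hN.ne', mul_zero] at hs
    exact hy0 _ (hNk k) hs
  refine ⟨t ^ k.factorial / s, ?_⟩
  rw [div_pow, ← pow_mul, mul_comm k.factorial, ← ht, hs, mul_div_cancel_right₀]
  exact pow_ne_zero _ hs0

end aux

variable {K : Type} [Field K] [NumberField K]

theorem powers (y : ℕ → K)
    (hy : ∀ (p : ℕ) [Fact p.Prime] (φ : K →+* PadicAlgCl p) (N : ℕ), 0 < N →
      ∃ u ∈ LL φ, φ (y N) = u ^ N) (hy0 : ∀ N, 0 < N → y N ≠ 0)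
    (hcomp : ∀ N M : ℕ, 0 < N → 0 < M → ∃ t : K, y (N * M) = y N * t ^ N)
    (N : ℕ) (hN : 0 < N) : ∃ t : K, y N = t ^ N := by
  obtain ⟨A, _, _, _, _⟩ := exists_closure
  obtain ⟨j⟩ := exists_emb K A
  exact powers_aux j y hy hy0 hcomp N hN

end Pool.Agent.Q33.SecL
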