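import Mathlib

/-!
# Rational numbers with all valuations divisible by `e`
-/

set_option autoImplicit false

namespace Pool.Agent.Q33.SecL

lemma nat_pow_of_factorization {n e : ℕ} (hn : n ≠ 0) (h : ∀ p : ℕ, p.Prime → e ∣ n.factorization p) :
    ∃ m : ℕ, m ^ e = n := by
  refine ⟨n.factorization.prod fun p k => p ^ (k / e), ?_⟩
  conv_rhs => rw [← Nat.prod_factorization_pow_eq_self hn]
  rw [Finsupp.prod, Finsupp.prod, ← Finset.prod_pow]
  refine Finset.prod_congr rfl fun p hp => ?_
  have hpp : p.Prime := Nat.prime_of_mem_primeFactors (by simpa using hp)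
  rw [← pow_mul, Nat.div_mul_cancel (h p hpp)]

lemma rat_pow {s : ℚ} (hs : s ≠ 0) {e : ℕ}
    (h : ∀ (p : ℕ) [Fact p.Prime], ∃ z : ℤ, ‖(s : ℚ_[p])‖ = (p : ℝ) ^ (z * e)) :
    ∃ t : ℚ, s = t ^ e ∨ s = -t ^ e := by
  have hval : ∀ p : ℕ, p.Prime → (e : ℤ) ∣ (padicValNat p s.num.natAbs : ℤ) - padicValNat p s.den := by
    intro p hp
    have : Fact p.Prime := ⟨hp⟩
    obtain ⟨z, hz⟩ := h p
    have hp1 : (1 : ℝ) < p := by exact_mod_cast hp.one_lt
    rw [Padic.eq_padicNorm, padicNorm.eq_zpow_of_nonzero hs] at hz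
    push_cast at hz
    have h1 : -padicValRat p s = z * e := zpow_right_injective₀ (by linarith) hp1.ne' hz
    have h2 : padicValRat p s = (padicValNat p s.num.natAbs : ℤ) - padicValNat p s.den := rfl
    rw [← h2]
    exact ⟨-z, by linear_combination -h1⟩
  have hnum : ∀ p : ℕ, p.Prime → e ∣ s.num.natAbs.factorization p := by
    intro p hp
    rw [Nat.factorization_def _ hp]
    by_cases h1 : p ∣ s.num.natAbs
    · have h2 : padicValNat p s.den = 0 := by
        apply padicValNat.eq_zero_of_not_dvd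
        intro h3
        exact hp.one_lt.ne' (Nat.eq_one_of_dvd_coprimes s.reduced h1 h3)
      have h3 := hval p hp
      rw [h2, Nat.cast_zero] at h3
      first
        | rw [sub_zero] at h3
          exact Int.natCast_dvd_natCast.1 h3
        | rw [zero_sub, dvd_neg] at h3
          exact Int.natCast_dvd_natCast.1 h3
    · rw [padicValNat.eq_zero_of_not_dvd h1]
      exact dvd_zero _
  have hden : ∀ p : ℕ, p.Prime → e ∣ s.den.factorization p := by
    intro p hp
    rw [Nat.factorization_def _ hp]
    by_cases h1 : p ∣ s.den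
    · have h2 : padicValNat p s.num.natAbs = 0 := by
        apply padicValNat.eq_zero_of_not_dvd
        intro h3
        exact hp.one_lt.ne' (Nat.eq_one_of_dvd_coprimes s.reduced h3 h1)
      have h3 := hval p hp
      rw [h2, Nat.cast_zero] at h3
      first
        | rw [sub_zero] at h3
          exact Int.natCast_dvd_natCast.1 h3
        | rw [zero_sub, dvd_neg] at h3
          exact Int.natCast_dvd_natCast.1 h3
    · rw [padicValNat.eq_zero_of_not_dvd h1]
      exact dvd_zero _
  obtain ⟨A, hA⟩ := nat_pow_of_factorization (Int.natAbs_ne_zero.2 (Rat.num_ne_zero.2 hs)) hnum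
  obtain ⟨B, hB⟩ := nat_pow_of_factorization s.den_nz hden
  refine ⟨(A : ℚ) / B, ?_⟩
  have h1 : s = s.num / s.den := (Rat.num_div_den s).symm
  rw [div_pow]
  have hB' : (B : ℚ) ^ e = s.den := by exact_mod_cast hB
  have h2 := Int.natAbs_eq s.num
  generalize s.num.natAbs = nn at hA h2
  have hA' : (A : ℚ) ^ e = nn := by exact_mod_cast hA
  rw [hB', hA']
  rcases h2 with h2 | h2
  · left
    conv_lhs => rw [h1, h2]
    push_cast
    rfl
  · right
    conv_lhs => rw [h1, h2]
    push_cast
    ring

end Pool.Agent.Q33.SecL
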