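import Pool.Agent.Q33.SecL.Claim
import Pool.Agent.Q33.SecL.NumTh

/-!
# Numbers which are `N`-th powers up to a bounded exponent
-/

set_option autoImplicit false
set_option linter.unusedSectionVars false

namespace Pool.Agent.Q33.SecL

open Polynomial
open scoped Pointwise

variable {A : Type} [Field A] [CharZero A] [IsAlgClosed A] [Algebra.IsAlgebraic ℚ A]

lemma isGaloisA : IsGalois ℚ A := by
  have hcl : IsAlgClosure ℚ A := ⟨inferInstance, inferInstance⟩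
  have hnor : Normal ℚ A := IsAlgClosure.normal ℚ A
  exact ⟨⟩

/-- the automorphisms fixing `E` and the roots of unity of order `N` -/
def Gam (E : IntermediateField ℚ A) (N : ℕ) : Subgroup (A ≃ₐ[ℚ] A) where
  carrier := {g | (∀ x ∈ E, g x = x) ∧ ∀ ζ : A, ζ ^ N = 1 → g ζ = ζ}
  one_mem' := ⟨fun _ _ => rfl, fun _ _ => rfl⟩
  mul_mem' := fun {a b} ha hb => ⟨fun x hx => by rw [AlgEquiv.mul_apply, hb.1 x hx, ha.1 x hx],
    fun ζ hζ => by rw [AlgEquiv.mul_apply, hb.2 ζ hζ, ha.2 ζ hζ]⟩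
  inv_mem' := fun {a} ha => ⟨fun x hx => by
      change a.symm x = x
      rw [AlgEquiv.symm_apply_eq, ha.1 x hx], fun ζ hζ => by
      change a.symm ζ = ζ
      rw [AlgEquiv.symm_apply_eq, ha.2 ζ hζ]⟩

lemma exists_fixed (E : IntermediateField ℚ A) (hE : FiniteDimensional ℚ E) {ι : Type} [Fintype ι]
    {N : ℕ} (hN : 0 < N) (α β : ι → A) (hα : ∀ i, α i ∈ E) (hα0 : ∀ i, α i ≠ 0)
    (hβ : ∀ i, β i ^ N = α i)
    (h : ∀ (p : ℕ) [Fact p.Prime] (ψ : A →+* PadicAlgCl p), (∀ x ∈ E, InBase (ψ x)) →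
      ∃ i, ∃ u : PadicAlgCl p, InBase u ∧ ψ (α i) = u ^ N) :
    ∃ i, ∀ g ∈ Gam E N, (g ^ (Fintype.card ι).factorial) (β i) = β i := by
  classical
  let H : ι → Subgroup (Gam E N) := fun i =>
    (MulAction.stabilizer (A ≃ₐ[ℚ] A) (β i)).subgroupOf (Gam E N)
  have hcov : ⋃ i ∈ (Finset.univ : Finset ι), (1 : Gam E N) • (H i : Set (Gam E N)) =
      Set.univ := by
    rw [Set.eq_univ_iff_forall]
    rintro ⟨g, hg⟩
    obtain ⟨i, hi⟩ := claimC E hE hN α β hα hα0 hβ h g hg.1 hg.2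
    refine Set.mem_iUnion₂.2 ⟨i, Finset.mem_univ i, ?_⟩
    rw [one_smul]
    exact hi
  obtain ⟨i, -, hfin, hidx⟩ := Subgroup.exists_index_le_card_of_leftCoset_cover hcov
  refine ⟨i, fun g hg => ?_⟩
  rw [Finset.card_univ] at hidx
  have h1 := Subgroup.pow_mem_of_index_ne_zero_of_dvd hfin.index_ne_zero (⟨g, hg⟩ : Gam E N)
    (n := (Fintype.card ι).factorial) (fun m hm hm' => Nat.dvd_factorial hm (hm'.trans hidx))
  exact h1

lemma pow_fixed {E : IntermediateField ℚ A} {N : ℕ} {β : A} (hβ0 : β ≠ 0) (hβ : β ^ N ∈ E)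
    {m : ℕ} (h : ∀ g ∈ Gam E N, (g ^ m) β = β) : ∀ g ∈ Gam E N, g (β ^ m) = β ^ m := by
  intro g hg
  have h1 : (g β / β) ^ N = 1 := by
    rw [div_pow, ← map_pow, hg.1 _ hβ, div_self (pow_ne_zero _ hβ0)]
  have h2 : g (g β / β) = g β / β := hg.2 _ h1
  have h3 : ∀ k : ℕ, (g ^ k) β = (g β / β) ^ k * β := by
    intro k
    induction k with
    | zero => simp
    | succ k ih =>
      rw [pow_succ', AlgEquiv.mul_apply, ih, map_mul, map_pow, h2, pow_succ]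
      have h5 : g β = (g β / β) * β := (div_mul_cancel₀ _ hβ0).symm
      rw [mul_assoc, ← h5]
  have h4 := h g hg
  rw [h3] at h4
  have h5 : (g β / β) ^ m = 1 := by
    have : (g β / β) ^ m * β = 1 * β := by rw [h4, one_mul]
    exact mul_right_cancel₀ hβ0 this
  rw [div_pow, div_eq_one_iff_eq (pow_ne_zero _ hβ0)] at h5
  rw [map_pow, h5]

lemma mem_of_fixed' {E : IntermediateField ℚ A} {x : A}
    (h : ∀ τ : A ≃ₐ[ℚ] A, (∀ y ∈ E, τ y = y) → τ x = x) : x ∈ E := by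
  have := isGaloisA (A := A)
  rw [← InfiniteGalois.fixedField_fixingSubgroup E, IntermediateField.mem_fixedField_iff]
  intro τ hτ
  exact h τ fun y hy => (IntermediateField.mem_fixingSubgroup_iff _ _).1 hτ y hy

/-- Sah's lemma -/
lemma sah {E : IntermediateField ℚ A} {N : ℕ} {γ : A} (hγ0 : γ ≠ 0) (hγN : γ ^ N ∈ E)
    (hγ : ∀ g ∈ Gam E N, g γ = γ) {σ : A ≃ₐ[ℚ] A} (hσ : ∀ x ∈ E, σ x = x) {u : ℕ}
    (hu : ∀ ζ : A, ζ ^ N = 1 → σ ζ = ζ ^ u) : γ ^ u / σ γ ∈ E := by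
  apply mem_of_fixed'
  intro τ hτ
  have h1 : (τ * σ)⁻¹ * (σ * τ) ∈ Gam E N := by
    constructor
    · intro x hx
      change (τ * σ).symm (σ (τ x)) = x
      rw [AlgEquiv.symm_apply_eq, AlgEquiv.mul_apply, hτ x hx, hσ x hx, hτ x hx]
    · intro ζ hζ
      change (τ * σ).symm (σ (τ ζ)) = ζ
      rw [AlgEquiv.symm_apply_eq, AlgEquiv.mul_apply, hu ζ hζ, hu (τ ζ) (by
        rw [← map_pow, hζ, map_one]), map_pow]
  have h2 : σ (τ γ) = τ (σ γ) := by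
    have h3 := hγ _ h1
    change (τ * σ).symm (σ (τ γ)) = γ at h3
    rw [AlgEquiv.symm_apply_eq, AlgEquiv.mul_apply] at h3
    exact h3
  have hχ : (τ γ / γ) ^ N = 1 := by
    rw [div_pow, ← map_pow, hτ _ hγN, div_self (pow_ne_zero _ hγ0)]
  have h3 : τ γ = (τ γ / γ) * γ := by field_simp
  have h4 : τ (σ γ) = (τ γ / γ) ^ u * σ γ := by
    rw [← h2, h3, map_mul, ← h3, hu _ hχ]
  have h5 : (τ γ / γ) ^ u ≠ 0 := pow_ne_zero _ (div_ne_zero ((map_ne_zero τ).2 hγ0) hγ0)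
  rw [map_div₀, map_pow, h4]
  have h6 : (τ γ) ^ u = (τ γ / γ) ^ u * γ ^ u := by
    rw [← mul_pow, div_mul_cancel₀ _ hγ0]
  rw [h6, mul_div_mul_left _ _ h5]

/-- automorphisms acting as powers on the roots of unity -/
lemma exists_cyc {N v : ℕ} (hN : 0 < N) (hv : v.Coprime N) :
    ∃ τ : A ≃ₐ[ℚ] A, ∀ ζ : A, ζ ^ N = 1 → τ ζ = ζ ^ v := by
  have := isGaloisA (A := A)
  have : NeZero (N : A) := ⟨by exact_mod_cast hN.ne'⟩
  have : NeZero N := ⟨hN.ne'⟩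
  obtain ⟨ζ0, hζ0⟩ := IsAlgClosed.exists_root (cyclotomic N A) (by
    have h1 : 0 < (cyclotomic N A).degree := degree_cyclotomic_pos N A hN
    exact h1.ne')
  have hprim : IsPrimitiveRoot ζ0 N := isRoot_cyclotomic_iff.1 hζ0
  have hprim' : IsPrimitiveRoot (ζ0 ^ v) N := hprim.pow_of_coprime v hv
  obtain ⟨τ, hτ⟩ := minpoly.exists_algEquiv_of_root' (K := ℚ) (x := ζ0 ^ v) (y := ζ0)
    (Algebra.IsAlgebraic.isAlgebraic ζ0) (by
      rw [← cyclotomic_eq_minpoly_rat hprim hN, cyclotomic_eq_minpoly_rat hprim' hN]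
      exact minpoly.aeval _ _)
  refine ⟨τ, fun ζ hζ => ?_⟩
  obtain ⟨i, -, rfl⟩ := hprim.eq_pow_of_pow_eq_one hζ
  rw [map_pow, hτ, ← pow_mul, ← pow_mul, mul_comm]

lemma zpow_pow_aux (x : A) (v d N : ℕ) : (x ^ N) ^ ((v : ℤ) ^ d) = (x ^ v ^ d) ^ N := by
  rw [← pow_mul, mul_comm (v ^ d) N, pow_mul, ← zpow_natCast (x ^ N) (v ^ d)]
  push_cast
  rfl

/-- **The general lemma.** -/
theorem general (E : IntermediateField ℚ A) (hE : FiniteDimensional ℚ E) {d : ℕ} (hd0 : 0 < d)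
    (hd : ∀ τ : A ≃ₐ[ℚ] A, ∀ x ∈ E, (τ ^ d) x = x) {ι : Type} [Fintype ι]
    {N : ℕ} (hN : 0 < N) (α : ι → A) (hα : ∀ i, α i ∈ E) (hα0 : ∀ i, α i ≠ 0)
    (h : ∀ (p : ℕ) [Fact p.Prime] (ψ : A →+* PadicAlgCl p), (∀ x ∈ E, InBase (ψ x)) →
      ∃ i, ∃ u : PadicAlgCl p, InBase u ∧ ψ (α i) = u ^ N) :
    ∃ i, ∃ δ ∈ E, α i ^ ((Fintype.card ι).factorial * ((d + 1).factorial) ^ (2 * d)) = δ ^ N := by
  classical
  choose β hβ using fun i => IsAlgClosed.exists_pow_nat_eq (α i) hN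
  have hβ0 : ∀ i, β i ≠ 0 := by
    intro i hi
    apply hα0 i
    rw [← hβ i, hi, zero_pow hN.ne']
  obtain ⟨i, hi⟩ := exists_fixed E hE hN α β hα hα0 hβ h
  refine ⟨i, ?_⟩
  set m := (Fintype.card ι).factorial with hm
  set γ := β i ^ m with hγ
  have hγ0 : γ ≠ 0 := pow_ne_zero _ (hβ0 i)
  have hγN : γ ^ N = α i ^ m := by rw [hγ, ← pow_mul, mul_comm, pow_mul, hβ i]
  have hγE : γ ^ N ∈ E := by rw [hγN]; exact pow_mem (hα i) _
  have hγfix : ∀ g ∈ Gam E N, g γ = γ := pow_fixed (hβ0 i) (by rw [hβ i]; exact hα i) hi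
  let I : AddSubgroup ℤ :=
    { carrier := {e | ∃ δ ∈ E, (γ ^ N) ^ e = δ ^ N}
      zero_mem' := ⟨1, one_mem _, by simp⟩
      add_mem' := by
        rintro a b ⟨x, hx, hx'⟩ ⟨y, hy, hy'⟩
        refine ⟨x * y, mul_mem hx hy, ?_⟩
        rw [zpow_add₀ (pow_ne_zero _ hγ0), hx', hy', mul_pow]
      neg_mem' := by
        rintro a ⟨x, hx, hx'⟩
        refine ⟨x⁻¹, inv_mem hx, ?_⟩
        rw [zpow_neg, hx', inv_pow] }
  have hIN : (N : ℤ) ∈ I := ⟨γ ^ N, hγE, by rw [zpow_natCast]⟩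
  have hIv : ∀ v : ℕ, v.Coprime N → (v : ℤ) ^ d - 1 ∈ I := by
    intro v hv
    obtain ⟨τ, hτ⟩ := exists_cyc (A := A) hN hv
    have h1 : ∀ k : ℕ, ∀ ζ : A, ζ ^ N = 1 → (τ ^ k) ζ = ζ ^ (v ^ k) := by
      intro k
      induction k with
      | zero => intro ζ _; simp
      | succ k ih =>
        intro ζ hζ
        rw [pow_succ, AlgEquiv.mul_apply, hτ ζ hζ, map_pow, ih ζ hζ, ← pow_mul, pow_succ]
    have h2 := sah hγ0 hγE hγfix (hd τ) (h1 d)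
    refine ⟨_, h2, ?_⟩
    have h3 : ((τ ^ d) γ) ^ N = γ ^ N := by rw [← map_pow, hd τ _ hγE]
    have h4 : (γ ^ N) ^ ((v : ℤ) ^ d) = (γ ^ v ^ d) ^ N := zpow_pow_aux γ v d N
    rw [div_pow, h3, zpow_sub₀ (pow_ne_zero _ hγ0), zpow_one, h4]
  obtain ⟨g, hg⟩ := Int.subgroup_cyclic I
  rw [← AddSubgroup.zmultiples_eq_closure] at hg
  have hmem : ∀ e : ℤ, e ∈ I ↔ g ∣ e := fun e => by rw [hg, Int.mem_zmultiples_iff]
  have hgN : g.natAbs ∣ N := Int.natCast_dvd_natCast.1 (Int.natAbs_dvd.2 ((hmem _).1 hIN))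
  have h1 := dvd_of_forall_unit hd0 hN hgN (fun v hv => Int.natAbs_dvd.2 ((hmem _).1 (hIv v hv)))
  have h2 : ((((d + 1).factorial) ^ (2 * d) : ℕ) : ℤ) ∈ I := by
    rw [hmem, ← Int.natAbs_dvd]
    exact Int.natCast_dvd_natCast.2 h1
  obtain ⟨δ, hδ, hδN⟩ := h2
  refine ⟨δ, hδ, ?_⟩
  rw [← hδN, hγN, pow_mul, zpow_natCast]

end Pool.Agent.Q33.SecL
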