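import Pool.Agent.Q33.SecL.Loc
import Pool.Agent.Q33.SecL.RatPow

/-!
# Products over the embeddings
-/

set_option autoImplicit false
set_option linter.unusedSectionVars false

namespace Pool.Agent.Q33.SecL

open Polynomial NumberField

section LL

variable {K : Type} [Field K] [NumberField K] {p : ℕ} [Fact p.Prime]

/-- the field generated over `ℚ_p` by the image of `K` -/
noncomputable def LL (φ : K →+* PadicAlgCl p) : IntermediateField ℚ_[p] (PadicAlgCl p) :=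
  IntermediateField.adjoin ℚ_[p] (Set.range φ)

lemma mem_LL (φ : K →+* PadicAlgCl p) (x : K) : φ x ∈ LL φ :=
  IntermediateField.subset_adjoin _ _ ⟨x, rfl⟩

lemma LL_eq (φ : K →+* PadicAlgCl p) : ∃ θ : K,
    (minpoly ℚ θ).natDegree = Module.finrank ℚ K ∧
    LL φ = IntermediateField.adjoin ℚ_[p] {φ θ} := by
  let pb := Field.powerBasisOfFiniteOfSeparable ℚ K
  refine ⟨pb.gen, ?_, ?_⟩
  · rw [PowerBasis.natDegree_minpoly, PowerBasis.finrank]
  · apply le_antisymm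
    · unfold LL
      rw [IntermediateField.adjoin_le_iff]
      rintro _ ⟨x, rfl⟩
      obtain ⟨f, rfl⟩ := pb.exists_eq_aeval' x
      have e1 : φ.comp (algebraMap ℚ K) =
        (algebraMap ℚ_[p] (PadicAlgCl p)).comp (algebraMap ℚ ℚ_[p]) := Subsingleton.elim _ _
      rw [aeval_def, hom_eval₂, e1, ← eval₂_map, ← aeval_def]
      exact IntermediateField.algebra_adjoin_le_adjoin _ _ (aeval_mem_adjoin_singleton _ _)
    · apply IntermediateField.adjoin_simple_le_iff.2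
      exact mem_LL φ _

lemma LL_finite (φ : K →+* PadicAlgCl p) : FiniteDimensional ℚ_[p] (LL φ) := by
  obtain ⟨θ, -, h⟩ := LL_eq φ
  rw [h]
  exact IntermediateField.adjoin.finiteDimensional
    (Algebra.IsAlgebraic.isAlgebraic (φ θ)).isIntegral

lemma LL_finrank (φ : K →+* PadicAlgCl p) :
    Module.finrank ℚ_[p] (LL φ) ≤ Module.finrank ℚ K := by
  obtain ⟨θ, h1, h⟩ := LL_eq φ
  have hint : IsIntegral ℚ_[p] (φ θ) := (Algebra.IsAlgebraic.isAlgebraic (φ θ)).isIntegral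
  rw [h, IntermediateField.adjoin.finrank hint, ← h1]
  have hm : (minpoly ℚ θ).Monic := minpoly.monic (Algebra.IsIntegral.isIntegral θ)
  have h2 : minpoly ℚ_[p] (φ θ) ∣ (minpoly ℚ θ).map (algebraMap ℚ ℚ_[p]) := by
    apply minpoly.dvd
    have e1 : φ.comp (algebraMap ℚ K) =
        (algebraMap ℚ_[p] (PadicAlgCl p)).comp (algebraMap ℚ ℚ_[p]) := Subsingleton.elim _ _
    have h3 := congrArg φ (minpoly.aeval ℚ θ)
    rw [map_zero, aeval_def, hom_eval₂, e1, ← eval₂_map, ← aeval_def] at h3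
    exact h3
  refine (natDegree_le_of_dvd h2 (hm.map _).ne_zero).trans ?_
  exact natDegree_map_le

/-- the field generated over `ℚ_p` by all conjugates of `K` -/
noncomputable def MM (K : Type) [Field K] [NumberField K] (p : ℕ) [Fact p.Prime] :
    IntermediateField ℚ_[p] (PadicAlgCl p) := ⨆ φ : K →+* PadicAlgCl p, LL φ

lemma MM_finite : FiniteDimensional ℚ_[p] (MM K p) := by
  have : ∀ φ : K →+* PadicAlgCl p, FiniteDimensional ℚ_[p] (LL φ) := LL_finite
  exact IntermediateField.finiteDimensional_iSup_of_finite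

lemma LL_le_MM (φ : K →+* PadicAlgCl p) : LL φ ≤ MM K p := le_iSup (fun φ => LL φ) φ

lemma norm_prod_emb (a : K) : ∏ φ : K →+* PadicAlgCl p, φ a =
    ((Algebra.norm ℚ a : ℚ) : PadicAlgCl p) := by
  have h1 := Algebra.norm_eq_prod_embeddings ℚ (PadicAlgCl p) a
  rw [← Fintype.prod_equiv (RingHom.equivRatAlgHom K (PadicAlgCl p)) (fun φ => φ a)
    (fun φ => φ a) (fun φ => rfl)] at h1
  rw [← h1]
  rfl

end LL

lemma norm_rat_prime {p : ℕ} [Fact p.Prime] (q : ℚ) :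
    ‖(q : PadicAlgCl p)‖ = ‖(q : ℚ_[p])‖ := by
  rw [← norm_base, map_ratCast]

lemma norm_rat_zpow {p : ℕ} [Fact p.Prime] {q : ℚ} (hq : q ≠ 0) :
    ∃ z : ℤ, ‖(q : PadicAlgCl p)‖ = (p : ℝ) ^ z := by
  rw [norm_rat_prime]
  refine ⟨-padicValRat p q, ?_⟩
  rw [Padic.eq_padicNorm, padicNorm.eq_zpow_of_nonzero hq]
  push_cast
  rfl

/-- a rational number with given valuations -/
lemma exists_rat (r : ∀ (p : ℕ) [Fact p.Prime], ℤ) (D : ℕ) (hD : 0 < D)
    (h : ∀ (p : ℕ) [Fact p.Prime], ¬ p ∣ D → r p = 0) :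
    ∃ m : ℚ, m ≠ 0 ∧ ∀ (p : ℕ) [Fact p.Prime], ‖(m : ℚ_[p])‖ = (p : ℝ) ^ (r p) := by
  classical
  let r' : ℕ → ℤ := fun p => if h : p.Prime then @r p ⟨h⟩ else 0
  refine ⟨∏ l ∈ D.primeFactors, (l : ℚ) ^ (-r' l), ?_, ?_⟩
  · rw [Finset.prod_ne_zero_iff]
    intro l hl
    exact zpow_ne_zero _ (by exact_mod_cast (Nat.prime_of_mem_primeFactors hl).ne_zero)
  · intro p hp
    have hr' : r' p = r p := by
      simp only [r']
      rw [dif_pos hp.out]
    push_cast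
    rw [norm_prod]
    have h1 : ∀ l ∈ D.primeFactors, l ≠ p → ‖(l : ℚ_[p]) ^ (-r' l)‖ = 1 := by
      intro l hl hlp
      rw [norm_zpow]
      have h2 : ‖(l : ℚ_[p])‖ = 1 := by
        rw [Padic.norm_natCast_eq_one_iff]
        exact (Nat.coprime_primes hp.out (Nat.prime_of_mem_primeFactors hl)).2 (Ne.symm hlp)
      rw [h2, one_zpow]
    by_cases hpD : p ∣ D
    · rw [Finset.prod_eq_single p h1 (fun h2 => absurd (Nat.mem_primeFactors.2
        ⟨hp.out, hpD, hD.ne'⟩) h2), norm_zpow, Padic.norm_p, hr', inv_zpow, zpow_neg, inv_inv]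
    · rw [Finset.prod_eq_one, h p hpD, zpow_zero]
      intro l hl
      refine h1 l hl ?_
      rintro rfl
      exact hpD (Nat.dvd_of_mem_primeFactors hl)

variable {K : Type} [Field K] [NumberField K]

/-- **Step 1**, for one function -/
theorem prod_rational (y : ∀ (p : ℕ) [Fact p.Prime], (K →+* PadicAlgCl p) → PadicAlgCl p)
    (hy0 : ∀ (p : ℕ) [Fact p.Prime] (φ : K →+* PadicAlgCl p), y p φ ≠ 0)
    (a : ℕ → K)
    (hy : ∀ (p : ℕ) [Fact p.Prime] (φ : K →+* PadicAlgCl p) (N : ℕ), 0 < N →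
      ∃ u ∈ LL φ, y p φ = φ (a N) * u ^ N)
    (D : ℕ) (hD : 0 < D) (hunit : ∀ (p : ℕ) [Fact p.Prime] (φ : K →+* PadicAlgCl p), ¬ p ∣ D →
      ‖y p φ‖ = 1) :
    ∃ M : ℚ, ∀ (p : ℕ) [Fact p.Prime], ∏ φ : K →+* PadicAlgCl p, y p φ = (M : PadicAlgCl p) := by
  classical
  set n := Module.finrank ℚ K with hn
  have ha0 : ∀ N, 0 < N → a N ≠ 0 := by
    intro N hN h0
    obtain ⟨φ⟩ : Nonempty (K →+* PadicAlgCl 2) := inferInstance
    obtain ⟨u, -, hu⟩ := hy 2 φ N hN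
    rw [h0, map_zero, zero_mul] at hu
    exact hy0 2 φ hu
  let Nk : ℕ → ℕ := fun k => n.factorial * k.factorial
  have hNk : ∀ k, 0 < Nk k := fun k => Nat.mul_pos (Nat.factorial_pos _) (Nat.factorial_pos _)
  let q : ℕ → ℚ := fun k => Algebra.norm ℚ (a (Nk k))
  have hq0 : ∀ k, q k ≠ 0 := fun k => Algebra.norm_ne_zero_iff.2 (ha0 _ (hNk k))
  let Y : ∀ (p : ℕ) [Fact p.Prime], PadicAlgCl p := fun p _ => ∏ φ : K →+* PadicAlgCl p, y p φ
  have hY0 : ∀ (p : ℕ) [Fact p.Prime], Y p ≠ 0 := fun p _ =>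
    Finset.prod_ne_zero_iff.2 fun φ _ => hy0 p φ
  have key : ∀ (p : ℕ) [Fact p.Prime] (k : ℕ), ∃ w ∈ MM K p, (∃ z : ℤ,
      ‖w‖ = (p : ℝ) ^ z) ∧ Y p = (q k : PadicAlgCl p) * w ^ k.factorial := by
    intro p _ k
    choose u hu hu' using fun φ => hy p φ (Nk k) (hNk k)
    have hu0 : ∀ φ, u φ ≠ 0 := by
      intro φ h0
      have := hu' φ
      rw [h0, zero_pow (hNk k).ne', mul_zero] at this
      exact hy0 p φ this
    refine ⟨(∏ φ, u φ) ^ n.factorial, pow_mem (prod_mem fun φ _ => LL_le_MM φ (hu φ)) _, ?_, ?_⟩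
    · choose z hz using fun φ => norm_pow_mem (LL φ) (LL_finite φ) (hu φ) (hu0 φ) (LL_finrank φ)
      have hp0 : (p : ℝ) ≠ 0 := by exact_mod_cast (Fact.out : p.Prime).ne_zero
      refine ⟨∑ φ, z φ, ?_⟩
      rw [norm_pow, norm_prod, ← Finset.prod_pow]
      have h1 : ∀ s : Finset (K →+* PadicAlgCl p), ∏ φ ∈ s, ‖u φ‖ ^ n.factorial =
          (p : ℝ) ^ (∑ φ ∈ s, z φ) := by
        intro s
        induction s using Finset.induction_on with
        | empty => simp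
        | insert φ s hφ ih =>
          rw [Finset.prod_insert hφ, Finset.sum_insert hφ, ih, hz, zpow_add₀ hp0]
      exact h1 _
    · rw [← pow_mul, ← norm_prod_emb, ← Finset.prod_pow, ← Finset.prod_mul_distrib]
      exact Finset.prod_congr rfl fun φ _ => hu' φ
  -- the valuations of `Y p`
  have hr : ∀ (p : ℕ) [Fact p.Prime], ∃ r : ℤ, ‖Y p‖ = (p : ℝ) ^ r := by
    intro p _
    obtain ⟨w, -, ⟨z, hz⟩, hw⟩ := key p 0
    obtain ⟨z', hz'⟩ := norm_rat_zpow (p := p) (hq0 0)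
    have hp0 : (p : ℝ) ≠ 0 := by exact_mod_cast (Fact.out : p.Prime).ne_zero
    refine ⟨z' + z, ?_⟩
    rw [hw, norm_mul, norm_pow, hz, hz', Nat.factorial_zero, pow_one, zpow_add₀ hp0]
  choose r hr using hr
  obtain ⟨m, hm0, hm⟩ := exists_rat (fun p _ => r p) D hD (by
    intro p _ hpD
    have h1 := hr p
    have h2 : ‖Y p‖ = 1 := by
      simp only [Y]
      rw [norm_prod]
      exact Finset.prod_eq_one fun φ _ => hunit p φ hpD
    rw [h2] at h1
    have hp1 : (1 : ℝ) < p := by exact_mod_cast (Fact.out : p.Prime).one_lt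
    exact (zpow_right_injective₀ (by linarith) hp1.ne' (h1.symm.trans (zpow_zero _).symm)))
  have hqk : ∀ k, ∃ t : ℚ, q k / m = t ^ k.factorial ∨ q k / m = -t ^ k.factorial := by
    intro k
    refine rat_pow (div_ne_zero (hq0 k) hm0) fun p _ => ?_
    obtain ⟨w, -, ⟨z, hz⟩, hw⟩ := key p k
    have hp0 : (p : ℝ) ≠ 0 := by exact_mod_cast (Fact.out : p.Prime).ne_zero
    refine ⟨-z, ?_⟩
    have h1 : ‖Y p‖ = ‖(q k : ℚ_[p])‖ * ((p : ℝ) ^ z) ^ k.factorial := by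
      rw [hw, norm_mul, norm_pow, hz, norm_rat_prime]
    rw [hr] at h1
    push_cast
    rw [norm_div, hm, h1, neg_mul, zpow_neg, zpow_mul, zpow_natCast]
    have h2 : ‖(q k : ℚ_[p])‖ ≠ 0 := by
      rw [norm_ne_zero_iff]
      exact_mod_cast hq0 k
    have h3 : ((p : ℝ) ^ z) ^ k.factorial ≠ 0 := pow_ne_zero _ (zpow_ne_zero _ hp0)
    field_simp
  -- pigeonhole on the sign
  have hsign : ∃ M : ℚ, M ≠ 0 ∧ ∀ B : ℕ, ∃ k, B ≤ k ∧ ∃ t : ℚ, q k = M * t ^ k.factorial := by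
    by_contra hc
    push Not at hc
    obtain ⟨B1, h1⟩ := hc m hm0
    obtain ⟨B2, h2⟩ := hc (-m) (neg_ne_zero.2 hm0)
    obtain ⟨t, ht⟩ := hqk (max B1 B2)
    rcases ht with ht | ht
    · exact h1 (max B1 B2) (le_max_left _ _) t (by rw [← ht]; field_simp)
    · refine h2 (max B1 B2) (le_max_right _ _) t ?_
      rw [div_eq_iff hm0] at ht
      rw [ht]
      ring
  obtain ⟨M, hM0, hM⟩ := hsign
  refine ⟨M, fun p _ => ?_⟩
  have hMp : (M : PadicAlgCl p) ≠ 0 := by exact_mod_cast hM0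
  have h1 : Y p / M = 1 := by
    refine eq_one_of_powers (MM K p) MM_finite (div_ne_zero (hY0 p) hMp) fun B => ?_
    obtain ⟨k, hk, t, ht⟩ := hM B
    obtain ⟨w, hw, -, hw'⟩ := key p k
    refine ⟨k, hk, (t : PadicAlgCl p) * w, mul_mem ?_ hw, ?_⟩
    · have : (t : PadicAlgCl p) = algebraMap ℚ_[p] (PadicAlgCl p) (t : ℚ_[p]) := by
        rw [map_ratCast]
      rw [this]
      exact (MM K p).algebraMap_mem _
    · rw [hw', ht, mul_pow]
      push_cast
      field_simp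
  exact (div_eq_one_iff_eq hMp).1 h1

end Pool.Agent.Q33.SecL
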