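import Pool.Agent.Q33.SecL.Defs
import Pool.Agent.Q33.SecL.Step1

/-!
# Kummer classes of sections, and their values at points over local fields
-/

set_option autoImplicit false
set_option linter.unusedSectionVars false

namespace Pool.Agent.Q33.SecL

open Polynomial

section val

variable {K M : Type} [Field K] [Field M] [Algebra K M] {p : ℕ} [Fact p.Prime]
    {φ : K →+* PadicAlgCl p} {P : Pt K M φ}

namespace Pt.Val

variable {x y : M} {c d : PadicAlgCl p}

lemma unique (h : P.Val x c) (h' : P.Val x d) : c = d := by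
  obtain ⟨h1, rfl⟩ := h
  obtain ⟨h2, rfl⟩ := h'
  rfl

lemma mul (h : P.Val x c) (h' : P.Val y d) : P.Val (x * y) (c * d) := by
  obtain ⟨h1, rfl⟩ := h
  obtain ⟨h2, rfl⟩ := h'
  exact ⟨mul_mem h1 h2, by rw [← map_mul]; rfl⟩

lemma sub (h : P.Val x c) (h' : P.Val y d) : P.Val (x - y) (c - d) := by
  obtain ⟨h1, rfl⟩ := h
  obtain ⟨h2, rfl⟩ := h'
  exact ⟨sub_mem h1 h2, by rw [← map_sub]; rfl⟩

lemma pow (h : P.Val x c) (n : ℕ) : P.Val (x ^ n) (c ^ n) := by
  obtain ⟨h1, rfl⟩ := h
  exact ⟨pow_mem h1 n, by rw [← map_pow]; rfl⟩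

end Pt.Val

lemma Pt.val_of_mem (P : Pt K M φ) {x : M} (h : x ∈ P.W) : ∃ c, P.Val x c := ⟨_, h, rfl⟩

lemma mem_of_pow_mem' (W : ValuationSubring M) {x : M} {n : ℕ} (hn : 0 < n) (h : x ^ n ∈ W) :
    x ∈ W := by
  have h1 : IsIntegral W x := by
    refine IsIntegral.of_pow hn ?_
    exact isIntegral_algebraMap (x := (⟨x ^ n, h⟩ : W))
  obtain ⟨y, hy⟩ := IsIntegrallyClosed.isIntegral_iff.1 h1
  rw [← hy]
  exact y.2

/-- algebraic elements are in the valuation ring -/
lemma alg_mem {B : Type} [Field B] [Algebra K B] [Algebra.IsAlgebraic K B] (j : B →ₐ[K] M)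
    (W : ValuationSubring M) (hW : ∀ c : K, algebraMap K M c ∈ W) (z : B) : j z ∈ W := by
  have h1 : IsIntegral K z := Algebra.IsIntegral.isIntegral z
  have h2 : IsIntegral K (j z) := h1.map j
  have h3 : IsIntegral W (j z) := by
    obtain ⟨q, hq, hqx⟩ := h2
    refine ⟨q.map ((algebraMap K M).codRestrict W.toSubring hW), hq.map _, ?_⟩
    rw [Polynomial.eval₂_map]
    exact hqx
  obtain ⟨y, hy⟩ := IsIntegrallyClosed.isIntegral_iff.1 h3
  rw [← hy]
  exact y.2

/-- the embedding of `B` in `Ω_p` given by the point -/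
noncomputable def Pt.emb (P : Pt K M φ) {B : Type} [Field B] [Algebra K B]
    [Algebra.IsAlgebraic K B] (j : B →ₐ[K] M) : B →+* PadicAlgCl p :=
  P.ρ.comp ((j : B →+* M).codRestrict P.W.toSubring
    (fun z => alg_mem j P.W (fun c => (P.comm c).1) z))

lemma Pt.val_emb (P : Pt K M φ) {B : Type} [Field B] [Algebra K B]
    [Algebra.IsAlgebraic K B] (j : B →ₐ[K] M) (z : B) : P.Val (j z) (P.emb j z) :=
  ⟨alg_mem j P.W (fun c => (P.comm c).1) z, rfl⟩

lemma Pt.emb_alg (P : Pt K M φ) {B : Type} [Field B] [Algebra K B]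
    [Algebra.IsAlgebraic K B] (j : B →ₐ[K] M) (c : K) : P.emb j (algebraMap K B c) = φ c := by
  have h1 := P.val_emb j (algebraMap K B c)
  have h2 : P.Val (algebraMap K M c) (φ c) := P.comm c
  rw [j.commutes] at h1
  exact h1.unique h2

end val

section compat

variable {K B : Type} [Field K] [Field B] [Algebra K B] [IsAlgClosed B] [Algebra.IsAlgebraic K B]
  {p : ℕ} [Fact p.Prime]

/-- two embeddings which agree on `K` differ by an automorphism -/
lemma exists_compat (κ κ' : B →+* PadicAlgCl p)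
    (h : κ.comp (algebraMap K B) = κ'.comp (algebraMap K B)) :
    ∃ g : B ≃ₐ[K] B, ∀ z, κ (g z) = κ' z := by
  have h1 : ∀ z : B, ∃ y, κ y = κ' z := by
    intro z
    have hs : ((minpoly K z).map (algebraMap K B)).Splits := IsAlgClosed.splits _
    have h0 : (minpoly K z).map (algebraMap K B) ≠ 0 :=
      (Polynomial.map_ne_zero_iff (algebraMap K B).injective).2
        (minpoly.ne_zero (Algebra.IsIntegral.isIntegral z))
    refine hs.mem_range_of_isRoot (i := κ) (x := κ' z) h0 ?_
    rw [Polynomial.IsRoot.def, Polynomial.eval_map, Polynomial.eval₂_map, h,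
      ← Polynomial.hom_eval₂]
    have h2 := minpoly.aeval K z
    rw [Polynomial.aeval_def] at h2
    rw [h2, map_zero]
  choose f hf using h1
  let g : B →ₐ[K] B :=
    { toFun := f
      map_one' := κ.injective (by rw [hf, map_one, map_one])
      map_mul' := fun a b => κ.injective (by rw [hf, map_mul, map_mul, hf, hf])
      map_zero' := κ.injective (by rw [hf, map_zero, map_zero])
      map_add' := fun a b => κ.injective (by rw [hf, map_add, map_add, hf, hf])
      commutes' := fun c => κ.injective (by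
        rw [hf]
        exact (DFunLike.congr_fun h c).symm) }
  have hb : Function.Bijective g := Algebra.IsAlgebraic.algHom_bijective g
  exact ⟨AlgEquiv.ofBijective g hb, fun z => hf z⟩

end compat

/-- the field generated by the image of an embedding is the fixed field -/
lemma mem_LL_of_fixed {F : Type} [Field F] [NumberField F] {p : ℕ} [Fact p.Prime]
    (Φ : F →+* PadicAlgCl p) {u : PadicAlgCl p}
    (h : ∀ σ : PadicAlgCl p ≃ₐ[ℚ_[p]] PadicAlgCl p, (∀ z, σ (Φ z) = Φ z) → σ u = u) :
    u ∈ LL Φ := by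
  have : IsGalois ℚ_[p] (PadicAlgCl p) := ⟨⟩
  rw [← InfiniteGalois.fixedField_fixingSubgroup (LL Φ), IntermediateField.mem_fixedField_iff]
  intro σ hσ
  apply h
  intro z
  exact (IntermediateField.mem_fixingSubgroup_iff _ _).1 hσ _ (mem_LL Φ z)

end Pool.Agent.Q33.SecL
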