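import Pool.Agent.Q33.SecL.SecA
import Pool.Agent.Q33.SecL.Gen3
import Pool.Agent.Q33.SecL.Powers

/-!
# Kummer classes of sections
-/

set_option autoImplicit false
set_option linter.unusedSectionVars false

namespace Pool.Agent.Q33.SecL

open Polynomial IntermediateField
open Pool.Agent.W620.SC (exists_fixed_multiple root_mem mem_of_fixed)

section kummer

variable {K F M B : Type} [Field K] [CharZero K] [Field F] [Field M] [Field B] [Algebra F M]
  [Algebra K M] [Algebra K B] [IsAlgClosed B] [Algebra.IsAlgebraic K B]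
  [Algebra.IsAlgebraic F M]

lemma fix_nhds (x : M) : {g : M ≃ₐ[F] M | g x = x} ∈ nhds (1 : M ≃ₐ[F] M) := by
  rw [krullTopology_mem_nhds_one_iff]
  refine ⟨IntermediateField.adjoin F {x}, IntermediateField.adjoin.finiteDimensional
    (Algebra.IsIntegral.isIntegral x), ?_⟩
  intro g hg
  exact (IntermediateField.mem_fixingSubgroup_iff _ _).1 hg x
    (IntermediateField.mem_adjoin_simple_self F x)

/-- the stabilisers are open -/
lemma GalSec.fixes (s : GalSec K F M B) (w : M) : ∃ E : IntermediateField K B,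
    FiniteDimensional K E ∧ ∀ σ ∈ E.fixingSubgroup, s.s σ w = w := by
  have h1 : {g | s.s g w = w} ∈ nhds (1 : B ≃ₐ[K] B) := by
    have h2 := s.cont.continuousAt (x := 1)
    have h3 : {g : M ≃ₐ[F] M | g w = w} ∈ nhds (s.s 1) := by
      rw [map_one]
      exact fix_nhds w
    exact h2 h3
  rw [krullTopology_mem_nhds_one_iff] at h1
  obtain ⟨E, hE, h⟩ := h1
  exact ⟨E, hE, fun σ hσ => h hσ⟩

/-- **Kummer classes.** -/
lemma GalSec.kummer (s : GalSec K F M B) (x : F) (θ : B) {N : ℕ} (hN : 0 < N) (w : M)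
    (hw : w ^ N = algebraMap F M x - s.j θ) (hw0 : w ≠ 0) :
    ∃ a : K⟮θ⟯, a ≠ 0 ∧ ∃ g : M, g ≠ 0 ∧ algebraMap F M x - s.j θ = s.j a * g ^ N ∧
      ∀ σ : B ≃ₐ[K] B, σ θ = θ → s.s σ g = g := by
  have hA : IsAlgClosure K B := ⟨inferInstance, inferInstance⟩
  have hNo : Normal K B := IsAlgClosure.normal K B
  have hG : IsGalois K B := ⟨⟩
  let sr : (B ≃ₐ[K] B) →* RingAut M := (MulSemiringAction.toRingAut (M ≃ₐ[F] M) M).comp s.s
  have hsr : ∀ σ y, sr σ y = s.s σ y := fun σ y => rfl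
  have hT : ∀ σ : B ≃ₐ[K] B, σ ∈ (K⟮θ⟯).fixingSubgroup ↔ σ θ = θ := by
    intro σ
    rw [IntermediateField.mem_fixingSubgroup_iff]
    constructor
    · intro h
      exact h θ (mem_adjoin_simple_self K θ)
    · intro h y hy
      have h1 : K⟮θ⟯ ≤ IntermediateField.fixedField (Subgroup.zpowers σ) := by
        rw [adjoin_simple_le_iff, IntermediateField.mem_fixedField_iff]
        intro τ hτ
        obtain ⟨n, rfl⟩ := hτ
        have h2 : σ ∈ MulAction.stabilizer (B ≃ₐ[K] B) θ := h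
        exact (Subgroup.zpow_mem _ h2 n : _)
      exact (IntermediateField.mem_fixedField_iff _ _).1 (h1 hy) σ (Subgroup.mem_zpowers σ)
  have hfx : ∀ σ : B ≃ₐ[K] B, σ θ = θ → s.s σ (w ^ N) = w ^ N := by
    intro σ hσ
    rw [hw, map_sub, AlgEquiv.commutes, s.sec, hσ]
  obtain ⟨E, hE, hEw⟩ := s.fixes w
  obtain ⟨β, hβ0, hβ⟩ := exists_fixed_multiple sr (s.j : B →+* M) (fun σ a => s.sec σ a)
    (K⟮θ⟯).fixingSubgroup w hw0 (by
      intro σ hσ
      have h1 : (s.s σ w / w) ^ N = (s.j : B →+* M) 1 := by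
        rw [div_pow, ← map_pow, hfx σ ((hT σ).1 hσ), map_one, div_self (pow_ne_zero _ hw0)]
      obtain ⟨ζ, hζ⟩ := root_mem (s.j : B →+* M) hN h1
      refine ⟨ζ, ?_⟩
      rw [hζ, div_mul_cancel₀ _ hw0]
      rfl) E (fun σ hσ => hEw σ hσ)
  have hβ' : ∀ σ : B ≃ₐ[K] B, σ θ = θ → s.s σ (s.j β * w) = s.j β * w := fun σ hσ =>
    hβ σ ((hT σ).2 hσ)
  have hβK : β ^ N ∈ K⟮θ⟯ := by
    apply mem_of_fixed
    intro σ hσ
    have h1 := hβ' σ ((hT σ).1 hσ)
    have h2 : s.s σ ((s.j β * w) ^ N) = (s.j β * w) ^ N := by rw [map_pow, h1]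
    rw [mul_pow, map_mul, hfx σ ((hT σ).1 hσ)] at h2
    have h3 := mul_right_cancel₀ (pow_ne_zero N hw0) h2
    rw [← map_pow, s.sec] at h3
    exact s.j.toRingHom.injective h3
  have hj0 : s.j β ≠ 0 := (map_ne_zero s.j).2 hβ0
  refine ⟨(⟨β ^ N, hβK⟩ : K⟮θ⟯)⁻¹, ?_, s.j β * w, mul_ne_zero hj0 hw0, ?_, hβ'⟩
  · rw [Ne, inv_eq_zero]
    intro h
    exact pow_ne_zero N hβ0 (congrArg Subtype.val h)
  · rw [← hw]
    change w ^ N = s.j ((β ^ N)⁻¹) * (s.j β * w) ^ N
    rw [map_inv₀, map_pow, mul_pow, ← mul_assoc, inv_mul_cancel₀ (pow_ne_zero N hj0), one_mul]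

/-- **Values of Kummer classes.** -/
lemma GalSec.values (s : GalSec K F M B) (x : F) (θ : B) {N : ℕ} (hN : 0 < N)
    [NumberField K⟮θ⟯] (a : K⟮θ⟯) (ha : a ≠ 0) (g : M)
    (hg : algebraMap F M x - s.j θ = s.j a * g ^ N)
    (hfix : ∀ σ : B ≃ₐ[K] B, σ θ = θ → s.s σ g = g) {p : ℕ} [Fact p.Prime]
    (Φ : K⟮θ⟯ →+* PadicAlgCl p) (P : Pt K M (Φ.comp (algebraMap K K⟮θ⟯))) (hP : s.GivenBy P)
    (X : PadicAlgCl p) (hX : P.Val (algebraMap F M x) X) :
    ∃ u ∈ LL Φ, X - Φ (AdjoinSimple.gen K θ) = Φ a * u ^ N := by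
  -- extension of the embedding
  obtain ⟨κ', hκ'⟩ : ∃ κ' : B →+* PadicAlgCl p, ∀ z : K⟮θ⟯, κ' z = Φ z := by
    let alg1 : Algebra K⟮θ⟯ (PadicAlgCl p) := Φ.toAlgebra
    have : Algebra.IsAlgebraic K⟮θ⟯ B := Algebra.IsAlgebraic.tower_top (K := K) K⟮θ⟯
    let Ψ : B →ₐ[K⟮θ⟯] PadicAlgCl p := IsAlgClosed.lift
    exact ⟨Ψ, fun z => Ψ.commutes z⟩
  set κ := P.emb s.j with hκ
  have hκK : ∀ c : K, κ (algebraMap K B c) = Φ (algebraMap K K⟮θ⟯ c) := fun c => P.emb_alg s.j c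
  obtain ⟨g0, hg0⟩ := exists_compat κ κ' (by
    ext c
    change κ (algebraMap K B c) = κ' (algebraMap K B c)
    rw [hκK, ← hκ' (algebraMap K K⟮θ⟯ c)]
    rfl)
  have hval : ∀ z : B, P.Val (s.j z) (κ z) := fun z => P.val_emb s.j z
  -- apply `g0`
  have h1 : algebraMap F M x - s.j (g0 θ) = s.j (g0 a) * (s.s g0 g) ^ N := by
    have h2 := congrArg (s.s g0) hg
    rw [map_sub, AlgEquiv.commutes, s.sec, map_mul, map_pow, s.sec] at h2
    exact h2
  set g' := s.s g0 g with hg'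
  have ha0 : s.j (g0 a) ≠ 0 := by
    rw [Ne, map_eq_zero, map_eq_zero]
    exact fun h => ha (Subtype.ext h)
  have hmem : g' ∈ P.W := by
    apply mem_of_pow_mem' P.W hN
    have h2 : g' ^ N = (algebraMap F M x - s.j (g0 θ)) * s.j ((g0 a)⁻¹) := by
      rw [h1, map_inv₀]
      field_simp
    rw [h2]
    exact mul_mem (sub_mem hX.1 (hval _).1) (hval _).1
  obtain ⟨u, hu⟩ := P.val_of_mem hmem
  refine ⟨u, ?_, ?_⟩
  · apply mem_LL_of_fixed
    intro σ hσ
    obtain ⟨h, hh⟩ := exists_compat κ ((σ : PadicAlgCl p →+* PadicAlgCl p).comp κ) (by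
      ext c
      change κ (algebraMap K B c) = σ (κ (algebraMap K B c))
      rw [hκK, hσ])
    have h3 := hP σ h (fun c => hσ _) (by
      intro z c hz
      rw [← (hval z).unique hz]
      have := hval (h z)
      rw [hh] at this
      exact this) g' u hu
    have h4 : s.s h g' = g' := by
      have h5 : (g0⁻¹ * h * g0) θ = θ := by
        change g0.symm (h (g0 θ)) = θ
        rw [AlgEquiv.symm_apply_eq]
        apply κ.injective
        rw [hh]
        change σ (κ (g0 θ)) = κ (g0 θ)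
        rw [hg0]
        have := hκ' (AdjoinSimple.gen K θ)
        rw [AdjoinSimple.coe_gen] at this
        rw [this, hσ]
      have h6 := hfix _ h5
      have h7 : h * g0 = g0 * (g0⁻¹ * h * g0) := by group
      rw [hg']
      change (s.s h * s.s g0) g = s.s g0 g
      rw [← map_mul, h7, map_mul]
      change s.s g0 (s.s (g0⁻¹ * h * g0) g) = s.s g0 g
      rw [h6]
    rw [h4] at h3
    exact h3.unique hu
  · have h2 : P.Val (algebraMap F M x - s.j (g0 θ)) (X - κ (g0 θ)) := hX.sub (hval _)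
    have h3 : P.Val (s.j (g0 a) * g' ^ N) (κ (g0 a) * u ^ N) := (hval _).mul (hu.pow N)
    rw [← h1] at h3
    have h4 := h2.unique h3
    rw [hg0, hg0, hκ'] at h4
    have := hκ' (AdjoinSimple.gen K θ)
    rw [AdjoinSimple.coe_gen] at this
    rw [this] at h4
    exact h4

end kummer

end Pool.Agent.Q33.SecL
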