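import Pool.Agent.Q33.SecL.Loc

/-!
# Algebraic numbers are `p`-adic units for almost all `p`; elements fixed by Frobenius
-/

set_option autoImplicit false

namespace Pool.Agent.Q33.SecL

open Polynomial

section one

variable {p : ℕ} [Fact p.Prime]

lemma norm_int_le (z : ℤ) : ‖(z : PadicAlgCl p)‖ ≤ 1 := by
  have h := norm_base (p := p) (z : ℚ_[p])
  rw [map_intCast] at h
  rw [h]
  exact Padic.norm_int_le_one z

lemma norm_int_eq {z : ℤ} (h : ¬ (p : ℤ) ∣ z) : ‖(z : PadicAlgCl p)‖ = 1 := by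
  have h1 := norm_base (p := p) (z : ℚ_[p])
  rw [map_intCast] at h1
  rw [h1]
  refine le_antisymm (Padic.norm_int_le_one z) ?_
  by_contra h2
  exact h ((Padic.norm_intCast_lt_one_iff (p := p)).1 (not_le.1 h2))

lemma norm_int_lt {z : ℤ} (h : (p : ℤ) ∣ z) : ‖(z : PadicAlgCl p)‖ < 1 := by
  have h1 := norm_base (p := p) (z : ℚ_[p])
  rw [map_intCast] at h1
  rw [h1]
  exact (Padic.norm_intCast_lt_one_iff (p := p)).2 h

/-- algebraic integers have norm at most one -/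
lemma norm_le_one_of_isIntegral {x : PadicAlgCl p} (hx : IsIntegral ℤ x) : ‖x‖ ≤ 1 := by
  by_contra hlt
  push Not at hlt
  obtain ⟨f, hf, hfx⟩ := hx
  have hx0 : 0 < ‖x‖ := by linarith
  have h1 : x ^ f.natDegree = -∑ i ∈ Finset.range f.natDegree, (f.coeff i : PadicAlgCl p) * x ^ i := by
    have h2 := hfx
    rw [hf.as_sum] at h2
    simp only [eval₂_add, eval₂_pow, eval₂_X, eval₂_finsetSum, eval₂_mul, eval₂_C] at h2
    have h3 : ∀ z : ℤ, algebraMap ℤ (PadicAlgCl p) z = (z : PadicAlgCl p) := fun z => rfl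
    simp only [h3] at h2
    exact eq_neg_of_add_eq_zero_left h2
  by_cases hd : f.natDegree = 0
  · rw [hd, pow_zero, Finset.range_zero, Finset.sum_empty, neg_zero] at h1
    exact one_ne_zero h1
  have h2 : ‖x ^ f.natDegree‖ ≤ ‖x‖ ^ (f.natDegree - 1) := by
    rw [h1, norm_neg]
    refine IsUltrametricDist.norm_sum_le_of_forall_le_of_nonneg (by positivity) ?_
    intro i hi
    rw [Finset.mem_range] at hi
    rw [norm_mul, norm_pow]
    calc ‖(f.coeff i : PadicAlgCl p)‖ * ‖x‖ ^ i ≤ 1 * ‖x‖ ^ i := by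
          gcongr
          exact norm_int_le _
      _ ≤ ‖x‖ ^ (f.natDegree - 1) := by
          rw [one_mul]
          exact pow_le_pow_right₀ hlt.le (by omega)
  rw [norm_pow] at h2
  have h3 : ‖x‖ ^ (f.natDegree - 1) < ‖x‖ ^ f.natDegree :=
    pow_lt_pow_right₀ hlt (by omega)
  linarith

/-- Fermat -/
lemma fermat {x : ℚ_[p]} (hx : ‖x‖ ≤ 1) : ‖x ^ p - x‖ < 1 := by
  let X : ℤ_[p] := ⟨x, hx⟩
  have h1 : PadicInt.toZMod (X ^ p - X) = 0 := by
    rw [map_sub, map_pow, ZMod.pow_card, sub_self]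
  have h2 : (X ^ p - X) ∈ RingHom.ker (PadicInt.toZMod (p := p)) :=
    RingHom.mem_ker.2 h1
  rw [PadicInt.ker_toZMod, IsLocalRing.mem_maximalIdeal, PadicInt.mem_nonunits] at h2
  exact h2

/-- elements fixed by Frobenius modulo the maximal ideal are near to integers -/
lemma near_int {y : PadicAlgCl p} (hy : ‖y‖ ≤ 1) (h : ‖y ^ p - y‖ < 1) :
    ∃ m : ℤ, ‖y - m‖ < 1 := by
  classical
  set F : ℤ[X] := (X ^ p - X) - ∏ m ∈ Finset.range p, (X - C (m : ℤ)) with hF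
  have hFz : F.map (Int.castRingHom (ZMod p)) = 0 := by
    have e : F.map (Int.castRingHom (ZMod p)) =
        (X ^ p - X : (ZMod p)[X]) - ∏ m ∈ Finset.range p, (X - C ((m : ℕ) : ZMod p)) := by
      rw [hF]
      simp [Polynomial.map_prod]
    rw [e]
    have hp1 : 1 < p := (Fact.out : p.Prime).one_lt
    have hm : (∏ m ∈ Finset.range p, (X - C ((m : ℕ) : ZMod p))).Monic :=
      monic_prod_of_monic _ _ fun i _ => monic_X_sub_C _
    have hd : (∏ m ∈ Finset.range p, (X - C ((m : ℕ) : ZMod p))).natDegree = p := by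
      rw [natDegree_prod_of_monic _ _ (fun i _ => monic_X_sub_C _)]
      simp only [natDegree_X_sub_C, Finset.sum_const, Finset.card_range, smul_eq_mul, mul_one]
    have hd2 : (X ^ p - X : (ZMod p)[X]).natDegree = p :=
      FiniteField.X_pow_card_sub_X_natDegree_eq (ZMod p) hp1
    have hm2 : (X ^ p - X : (ZMod p)[X]).Monic := by
      apply monic_X_pow_sub
      rw [degree_X]
      exact_mod_cast hp1
    refine Polynomial.eq_zero_of_degree_lt_of_eval_finset_eq_zero (Finset.univ : Finset (ZMod p))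
      ?_ ?_
    · rw [Finset.card_univ, ZMod.card]
      have h3 := degree_sub_lt_left (p := (X ^ p - X : (ZMod p)[X]))
        (q := ∏ m ∈ Finset.range p, (X - C ((m : ℕ) : ZMod p))) (by
          rw [degree_eq_natDegree hm2.ne_zero, degree_eq_natDegree hm.ne_zero, hd, hd2])
          hm2.ne_zero (by rw [hm.leadingCoeff, hm2.leadingCoeff])
      rw [degree_eq_natDegree hm2.ne_zero, hd2] at h3
      exact h3
    · intro a _
      rw [eval_sub, eval_sub, eval_pow, eval_X, ZMod.pow_card, sub_self, zero_sub, neg_eq_zero,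
        eval_prod, Finset.prod_eq_zero_iff]
      refine ⟨a.val, Finset.mem_range.2 (ZMod.val_lt a), ?_⟩
      rw [eval_sub, eval_X, eval_C, ZMod.natCast_zmod_val, sub_self]
  have hFy : ‖aeval y F‖ < 1 := by
    rw [aeval_eq_sum_range]
    obtain ⟨i, -, hi⟩ := IsUltrametricDist.exists_norm_finsetSum_le_of_nonempty
      (t := Finset.range (F.natDegree + 1)) ⟨0, by simp⟩ (fun i => F.coeff i • y ^ i)
    refine lt_of_le_of_lt hi ?_
    have h1 : (p : ℤ) ∣ F.coeff i := by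
      have h2 : (F.map (Int.castRingHom (ZMod p))).coeff i = 0 := by rw [hFz, coeff_zero]
      rw [coeff_map] at h2
      exact (ZMod.intCast_zmod_eq_zero_iff_dvd _ _).1 h2
    have h2 : F.coeff i • y ^ i = (F.coeff i : PadicAlgCl p) * y ^ i := by
      rw [zsmul_eq_mul]
    rw [h2, norm_mul, norm_pow]
    calc ‖(F.coeff i : PadicAlgCl p)‖ * ‖y‖ ^ i ≤ ‖(F.coeff i : PadicAlgCl p)‖ * 1 := by
          gcongr
          exact pow_le_one₀ (norm_nonneg _) hy
      _ < 1 := by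
          rw [mul_one]
          exact norm_int_lt h1
  by_contra hcon
  push Not at hcon
  have hprod : ‖∏ m ∈ Finset.range p, (y - ((m : ℤ) : PadicAlgCl p))‖ < 1 := by
    have e : ∏ m ∈ Finset.range p, (y - ((m : ℤ) : PadicAlgCl p)) = (y ^ p - y) - aeval y F := by
      rw [hF]
      simp [map_prod]
    rw [e]
    rw [sub_eq_add_neg]
    refine lt_of_le_of_lt (IsUltrametricDist.norm_add_le_max _ _) (max_lt h ?_)
    rw [norm_neg]
    exact hFy
  rw [norm_prod] at hprod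
  have h1 : (1 : ℝ) ≤ ∏ m ∈ Finset.range p, ‖y - ((m : ℤ) : PadicAlgCl p)‖ :=
    Finset.one_le_prod fun m _ => hcon m
  linarith

lemma exists_base_of_fixed {x : PadicAlgCl p}
    (h : ∀ σ : PadicAlgCl p ≃ₐ[ℚ_[p]] PadicAlgCl p, σ x = x) :
    ∃ y : ℚ_[p], algebraMap ℚ_[p] (PadicAlgCl p) y = x := by
  have : IsGalois ℚ_[p] (PadicAlgCl p) := ⟨⟩
  exact (InfiniteGalois.mem_range_algebraMap_iff_fixed x).2 h

end one

/-- **Lemma U.** -/
lemma units_ae {A : Type} [Field A] [CharZero A] [Algebra.IsAlgebraic ℚ A] (S : Finset A)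
    (h0 : ∀ e ∈ S, e ≠ 0) :
    ∃ D : ℕ, 0 < D ∧ ∀ (p : ℕ) [Fact p.Prime], ¬ p ∣ D → ∀ ψ : A →+* PadicAlgCl p,
      ∀ e ∈ S, ‖ψ e‖ = 1 := by
  classical
  have halg : ∀ e : A, IsAlgebraic ℤ e := fun e =>
    (IsFractionRing.isAlgebraic_iff ℤ ℚ A).2 (Algebra.IsAlgebraic.isAlgebraic e)
  have key : ∀ e : A, ∃ d : ℤ, d ≠ 0 ∧ ∀ (p : ℕ) [Fact p.Prime], ¬ (p : ℤ) ∣ d →
      ∀ ψ : A →+* PadicAlgCl p, ‖ψ e‖ ≤ 1 := by
    intro e
    obtain ⟨d, hd, hint⟩ := (halg e).exists_integral_multiple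
    refine ⟨d, hd, fun p _ hp ψ => ?_⟩
    have h1 : IsIntegral ℤ (ψ (d • e)) := hint.map ψ.toIntAlgHom
    have h2 := norm_le_one_of_isIntegral h1
    rw [zsmul_eq_mul, map_mul, map_intCast, norm_mul, norm_int_eq hp, one_mul] at h2
    exact h2
  choose f hf0 hf using key
  refine ⟨(∏ e ∈ S, f e * f e⁻¹).natAbs, Int.natAbs_pos.2
    (Finset.prod_ne_zero_iff.2 fun e _ => mul_ne_zero (hf0 _) (hf0 _)), ?_⟩
  intro p _ hp ψ e he
  have h1 : ∀ z : ℤ, z ∣ ∏ e ∈ S, f e * f e⁻¹ → ¬ (p : ℤ) ∣ z := by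
    intro z hz hpz
    exact hp (Int.natCast_dvd.1 (hpz.trans hz))
  have h2 : f e * f e⁻¹ ∣ ∏ e ∈ S, f e * f e⁻¹ := Finset.dvd_prod_of_mem _ he
  refine le_antisymm (hf e p (h1 _ ((Dvd.intro _ rfl).trans h2)) ψ) ?_
  have h3 := hf e⁻¹ p (h1 _ ((Dvd.intro_left _ rfl).trans h2)) ψ
  rw [map_inv₀, norm_inv] at h3
  have h4 : 0 < ‖ψ e‖ := norm_pos_iff.2 ((map_ne_zero ψ).2 (h0 e he))
  exact (inv_le_one₀ h4).1 h3

end Pool.Agent.Q33.SecL
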