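import Pool.Agent.Q33.SecL.SecB
import Pool.Agent.Q33.SecL.UnitsAE
import Pool.Agent.W620.SC.Def

/-!
# Sections and adelic points
-/

set_option autoImplicit false
set_option linter.unusedSectionVars false

namespace Pool.Agent.Q33.SecL

open Polynomial IntermediateField
open Pool.Agent.W620.SC (mem_unramified inertia_const inertia_root const_mem unramified)

section roots

variable {K F Ω B : Type} [Field K] [CharZero K] [Field F] [Field Ω] [Field B] [Algebra K F]
  [Algebra F Ω] [Algebra K Ω] [IsScalarTower K F Ω] [Algebra K B] [IsAlgClosed Ω]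

/-- the `N`-th roots of `x - θ` are unramified where `x - θ` and its conjugates are units -/
lemma exists_root_unramified (C : Set (ValuationSubring F))
    (hC : ∀ O ∈ C, ∀ c : K, algebraMap K F c ∈ O) (j : B →ₐ[K] unramified F Ω C) (θ : B)
    (hθ : IsIntegral K θ) (x : F)
    (hxC : ∀ O ∈ C, x ∈ O ∧ (aeval x (minpoly K θ))⁻¹ ∈ O) (h0 : aeval x (minpoly K θ) ≠ 0)
    {N : ℕ} (hN : 0 < N) :
    ∃ w : unramified F Ω C, w ≠ 0 ∧ w ^ N = algebraMap F (unramified F Ω C) x - j θ := by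
  set t : Ω := ((j θ : unramified F Ω C) : Ω) with ht
  set f := minpoly K θ with hf
  have hta : t ∈ algebraicClosure K Ω := by
    have h1 : IsIntegral K (j θ) := hθ.map j
    have h2 : IsIntegral K t := h1.map ((unramified F Ω C).val.restrictScalars K)
    exact h2
  have htf : aeval t f = 0 := by
    have h1 : aeval ((((unramified F Ω C).val.restrictScalars K).comp j) θ) f = 0 := by
      rw [aeval_algHom_apply, hf, minpoly.aeval, map_zero]
    exact h1
  have hKC : ∀ W : ValuationSubring Ω, W.comap (algebraMap F Ω) ∈ C →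
      ∀ c : K, algebraMap K Ω c ∈ W := by
    intro W hW c
    rw [IsScalarTower.algebraMap_apply K F Ω]
    exact hC _ hW c
  -- factorization
  have hfac : ∀ W : ValuationSubring Ω, (∀ c : K, algebraMap K Ω c ∈ W) →
      algebraMap F Ω x ∈ W → ∃ q : W, aeval (algebraMap F Ω x) f = (algebraMap F Ω x - t) * q := by
    intro W hW hx
    let kW : K →+* W := (algebraMap K Ω).codRestrict W.toSubring hW
    have hkW : W.subtype.comp kW = algebraMap K Ω := rfl
    have htW : t ∈ W := const_mem hW hta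
    have h1 : ((f.map kW).IsRoot ⟨t, htW⟩) := by
      rw [IsRoot.def, eval_map]
      apply W.subtype_injective
      rw [hom_eval₂, hkW, map_zero]
      rw [aeval_def] at htf
      exact htf
    obtain ⟨q, hq⟩ := dvd_iff_isRoot.2 h1
    refine ⟨q.eval ⟨algebraMap F Ω x, hx⟩, ?_⟩
    have h2 := congrArg (fun g => W.subtype (g.eval ⟨algebraMap F Ω x, hx⟩)) hq
    simp only [eval_mul, eval_sub, eval_X, eval_C, map_mul, map_sub, eval_map, hom_eval₂, hkW]
      at h2
    rw [aeval_def]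
    exact h2
  have hx0 : algebraMap F Ω x - t ≠ 0 := by
    obtain ⟨q, hq⟩ := hfac ⊤ (fun c => ValuationSubring.mem_top _) (ValuationSubring.mem_top _)
    intro h
    rw [h, zero_mul, aeval_algebraMap_apply, map_eq_zero] at hq
    exact h0 hq
  obtain ⟨w, hw⟩ := IsAlgClosed.exists_pow_nat_eq (algebraMap F Ω x - t) hN
  have hw0 : w ≠ 0 := by
    rintro rfl
    rw [zero_pow hN.ne'] at hw
    exact hx0 hw.symm
  have hwM : w ∈ unramified F Ω C := by
    rw [mem_unramified]
    intro W hW σ hσ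
    have hWK := hKC W hW
    have hxW : algebraMap F Ω x ∈ W := (hxC _ hW).1
    have hfW : (aeval (algebraMap F Ω x) f)⁻¹ ∈ W := by
      rw [aeval_algebraMap_apply, ← map_inv₀]
      exact (hxC _ hW).2
    obtain ⟨q, hq⟩ := hfac W hWK hxW
    refine inertia_root hWK hσ hN (t := 1) ?_ (map_one _) one_ne_zero hw0 ?_ ?_
    · rw [hw, map_sub, AlgEquiv.commutes, inertia_const hWK hσ hta]
    · rw [one_pow, div_one, hw]
      exact sub_mem hxW (const_mem hWK hta)
    · rw [one_pow, one_div, hw]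
      have hf0 : aeval (algebraMap F Ω x) f ≠ 0 := by
        rw [aeval_algebraMap_apply, Ne, map_eq_zero]
        exact h0
      have h3 : (algebraMap F Ω x - t)⁻¹ = q * (aeval (algebraMap F Ω x) f)⁻¹ := by
        have hq0 : (q : Ω) ≠ 0 := by
          intro h
          rw [h, mul_zero] at hq
          exact hf0 hq
        rw [hq]
        field_simp
      rw [h3]
      exact mul_mem q.2 hfW
  refine ⟨⟨w, hwM⟩, fun h => hw0 (congrArg Subtype.val h), Subtype.ext hw⟩

end roots

section unit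

/-- roots of an integral polynomial with a value of norm one -/
lemma norm_sub_root {p : ℕ} [Fact p.Prime] {f : (PadicAlgCl p)[X]} (hf : f.Monic)
    (hroots : ∀ a, f.IsRoot a → ‖a‖ ≤ 1) {x : PadicAlgCl p} (hx : ‖f.eval x‖ = 1)
    {a : PadicAlgCl p} (ha : f.IsRoot a) : ‖x - a‖ = 1 := by
  classical
  have hs : f.Splits := IsAlgClosed.splits f
  have h1 : f = (f.roots.map (X - C ·)).prod := by
    have := hs.eq_prod_roots
    rw [hf.leadingCoeff, C_1, one_mul] at this
    exact this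
  have h2 : f.eval x = (f.roots.map (fun b => x - b)).prod := by
    conv_lhs => rw [h1]
    rw [eval_multiset_prod, Multiset.map_map]
    congr 1
    apply Multiset.map_congr rfl
    intro b _
    simp
  have h3 : (f.roots.map (fun b => ‖x - b‖)).prod = 1 := by
    rw [← hx, h2]
    have h4 := map_multiset_prod (normHom : PadicAlgCl p →*₀ ℝ) (f.roots.map (fun b => x - b))
    rw [Multiset.map_map] at h4
    exact h4.symm
  have hmem : a ∈ f.roots := (mem_roots hf.ne_zero).2 ha
  have hR : ∀ b ∈ f.roots, ‖b‖ ≤ 1 := fun b hb => hroots b ((mem_roots hf.ne_zero).1 hb)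
  obtain ⟨m, hm⟩ := Multiset.exists_cons_of_mem hmem
  rw [hm, Multiset.map_cons, Multiset.prod_cons] at h3
  have hmle : ∀ b ∈ a ::ₘ m, ‖b‖ ≤ 1 := by rw [← hm]; exact hR
  have hprod : ∀ (m : Multiset (PadicAlgCl p)) (c : ℝ), 0 ≤ c → c ≤ 1 →
      (∀ b ∈ m, ‖x - b‖ ≤ 1) → (m.map (fun b => ‖x - b‖)).prod ≤ 1 := by
    intro m c _ _
    induction m using Multiset.induction_on with
    | empty => intro _; simp
    | cons b m ih =>
      intro h
      rw [Multiset.map_cons, Multiset.prod_cons]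
      have h5 := ih (fun b hb => h b (Multiset.mem_cons_of_mem hb))
      have h6 := h b (Multiset.mem_cons_self b m)
      have h7 : 0 ≤ (m.map (fun b => ‖x - b‖)).prod :=
        Multiset.prod_nonneg (fun y hy => by
          obtain ⟨b, -, rfl⟩ := Multiset.mem_map.1 hy
          exact norm_nonneg _)
      calc ‖x - b‖ * _ ≤ 1 * _ := mul_le_mul_of_nonneg_right h6 h7
        _ ≤ 1 := by rw [one_mul]; exact h5
  have hprod' : ∀ (m : Multiset (PadicAlgCl p)),
      (∀ b ∈ m, 1 < ‖x - b‖) → 1 ≤ (m.map (fun b => ‖x - b‖)).prod := by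
    intro m
    induction m using Multiset.induction_on with
    | empty => intro _; simp
    | cons b m ih =>
      intro h
      rw [Multiset.map_cons, Multiset.prod_cons]
      have h5 := ih (fun b hb => h b (Multiset.mem_cons_of_mem hb))
      have h6 := h b (Multiset.mem_cons_self b m)
      calc (1 : ℝ) = 1 * 1 := (one_mul 1).symm
        _ ≤ ‖x - b‖ * _ := mul_le_mul h6.le h5 zero_le_one (norm_nonneg _)
  have hx1 : ‖x‖ ≤ 1 := by
    by_contra hlt
    push Not at hlt
    have hgt : ∀ b, ‖b‖ ≤ 1 → 1 < ‖x - b‖ := by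
      intro b hb
      by_contra h
      push Not at h
      have h5 : ‖x‖ ≤ 1 := by
        have h6 : x = (x - b) + b := by ring
        rw [h6]
        exact le_trans (IsUltrametricDist.norm_add_le_max _ _) (max_le h hb)
      linarith
    have h5 := hgt a (hmle a (Multiset.mem_cons_self a m))
    have h6 := hprod' m (fun b hb => hgt b (hmle b (Multiset.mem_cons_of_mem hb)))
    have h7 : (1 : ℝ) < ‖x - a‖ * (m.map (fun b => ‖x - b‖)).prod := by
      calc (1 : ℝ) < ‖x - a‖ := h5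
        _ = ‖x - a‖ * 1 := (mul_one _).symm
        _ ≤ _ := mul_le_mul_of_nonneg_left h6 (norm_nonneg _)
    linarith
  have hle : ∀ b, ‖b‖ ≤ 1 → ‖x - b‖ ≤ 1 := by
    intro b hb
    rw [sub_eq_add_neg]
    refine le_trans (IsUltrametricDist.norm_add_le_max _ _) (max_le hx1 ?_)
    rw [norm_neg]
    exact hb
  refine le_antisymm (hle a (hmle a (Multiset.mem_cons_self a m))) ?_
  have h5 := hprod m 1 zero_le_one le_rfl
    (fun b hb => hle b (hmle b (Multiset.mem_cons_of_mem hb)))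
  calc (1 : ℝ) = ‖x - a‖ * (m.map (fun b => ‖x - b‖)).prod := h3.symm
    _ ≤ ‖x - a‖ * 1 := mul_le_mul_of_nonneg_left h5 (norm_nonneg _)
    _ = ‖x - a‖ := mul_one _

variable {K B : Type} [Field K] [NumberField K] [Field B] [Algebra K B]

/-- algebraic extensions generated by one element are number fields -/
lemma numberField_adjoin {θ : B} (hθ : IsIntegral K θ) : NumberField K⟮θ⟯ := by
  have := adjoin.finiteDimensional hθ
  exact NumberField.of_module_finite K K⟮θ⟯

lemma exists_hom_of_root {θ : B} (hθ : IsIntegral K θ) {Ω : Type} [Field Ω] (φ : K →+* Ω) {a : Ω}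
    (ha : eval₂ φ a (minpoly K θ) = 0) :
    ∃ Φ : K⟮θ⟯ →+* Ω, Φ (AdjoinSimple.gen K θ) = a ∧ Φ.comp (algebraMap K K⟮θ⟯) = φ := by
  let alg : Algebra K Ω := φ.toAlgebra
  have h1 : a ∈ (minpoly K θ).aroots Ω := by
    rw [mem_aroots]
    exact ⟨minpoly.ne_zero hθ, ha⟩
  let Ψ : K⟮θ⟯ →ₐ[K] Ω := (algHomAdjoinIntegralEquiv K hθ).symm ⟨a, h1⟩
  refine ⟨Ψ, ?_, ?_⟩
  · exact algHomAdjoinIntegralEquiv_symm_apply_gen K hθ ⟨a, h1⟩
  · ext c
    exact Ψ.commutes c

/-- the conjugates of an algebraic number are integral at almost all places -/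
lemma roots_ae {θ : B} (hθ : IsIntegral K θ) : ∃ D : ℕ, 0 < D ∧ ∀ (p : ℕ) [Fact p.Prime]
    (φ : K →+* PadicAlgCl p) (a : PadicAlgCl p), ¬ p ∣ D → eval₂ φ a (minpoly K θ) = 0 →
    ‖a‖ ≤ 1 := by
  have := numberField_adjoin hθ
  have : Algebra.IsAlgebraic ℚ K⟮θ⟯ := inferInstance
  by_cases h0 : AdjoinSimple.gen K θ = 0
  · refine ⟨1, one_pos, fun p _ φ a _ ha => ?_⟩
    obtain ⟨Φ, h1, -⟩ := exists_hom_of_root hθ φ ha
    rw [← h1, h0, map_zero, norm_zero]
    exact zero_le_one
  · obtain ⟨D, hD, h⟩ := units_ae ({AdjoinSimple.gen K θ} : Finset K⟮θ⟯) (by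
      intro e he
      rw [Finset.mem_singleton] at he
      rw [he]
      exact h0)
    refine ⟨D, hD, fun p _ φ a hp ha => ?_⟩
    obtain ⟨Φ, h1, -⟩ := exists_hom_of_root hθ φ ha
    rw [← h1, h p hp Φ _ (Finset.mem_singleton_self _)]

end unit

section dat

variable {K F M B : Type} [Field K] [NumberField K] [Field F] [Field M] [Field B] [Algebra F M]
  [Algebra K M] [Algebra K B] [IsAlgClosed B] [Algebra.IsAlgebraic K B]
  [Algebra.IsAlgebraic F M]

/-- **The adelic point of a section.** -/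
theorem GalSec.dat (s : GalSec K F M B) (x : F) (θ : B) [NumberField K⟮θ⟯]
    (hroot : ∀ N : ℕ, 0 < N → ∃ w : M, w ≠ 0 ∧ w ^ N = algebraMap F M x - s.j θ)
    (P : ∀ (p : ℕ) [Fact p.Prime] (φ : K →+* PadicAlgCl p), Pt K M φ)
    (hP : ∀ (p : ℕ) [Fact p.Prime] (φ : K →+* PadicAlgCl p), s.GivenBy (P p φ))
    (X : ∀ (p : ℕ) [Fact p.Prime], (K →+* PadicAlgCl p) → PadicAlgCl p)
    (hX : ∀ (p : ℕ) [Fact p.Prime] (φ : K →+* PadicAlgCl p),
      (P p φ).Val (algebraMap F M x) (X p φ))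
    (hne : ∀ (p : ℕ) [Fact p.Prime] (φ : K →+* PadicAlgCl p),
      eval₂ φ (X p φ) (minpoly K θ) ≠ 0)
    (hunit : ∃ D : ℕ, 0 < D ∧ ∀ (p : ℕ) [Fact p.Prime] (φ : K →+* PadicAlgCl p), ¬ p ∣ D →
      ‖eval₂ φ (X p φ) (minpoly K θ)‖ = 1) :
    Dat X K⟮θ⟯ (algebraMap K K⟮θ⟯) (AdjoinSimple.gen K θ) := by
  have hθ : IsIntegral K θ := Algebra.IsIntegral.isIntegral θ
  have hgen : ∀ {p : ℕ} [Fact p.Prime] (Φ : K⟮θ⟯ →+* PadicAlgCl p),
      eval₂ (Φ.comp (algebraMap K K⟮θ⟯)) (Φ (AdjoinSimple.gen K θ)) (minpoly K θ) = 0 := by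
    intro p _ Φ
    rw [← hom_eval₂]
    have h1 : aeval (AdjoinSimple.gen K θ) (minpoly K θ) = 0 := by
      have h2 := minpoly.aeval K (AdjoinSimple.gen K θ)
      rwa [minpoly_gen] at h2
    rw [aeval_def] at h1
    rw [h1, map_zero]
  refine ⟨?_, ?_, ?_⟩
  · intro p _ Φ h
    rw [sub_eq_zero] at h
    apply hne p (Φ.comp (algebraMap K K⟮θ⟯))
    rw [h]
    exact hgen Φ
  · intro N hN
    obtain ⟨w, hw0, hw⟩ := hroot N hN
    obtain ⟨a, ha, g, -, hg, hfix⟩ := s.kummer x θ hN w hw hw0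
    exact ⟨a, fun p _ Φ => s.values x θ hN a ha g hg hfix Φ (P p _) (hP p _) _ (hX p _)⟩
  · obtain ⟨D1, hD1, h1⟩ := roots_ae hθ
    obtain ⟨D2, hD2, h2⟩ := hunit
    refine ⟨D1 * D2, Nat.mul_pos hD1 hD2, fun p _ Φ hp => ?_⟩
    have hp1 : ¬ p ∣ D1 := fun h => hp (h.mul_right _)
    have hp2 : ¬ p ∣ D2 := fun h => hp (h.mul_left _)
    refine norm_sub_root (f := (minpoly K θ).map (Φ.comp (algebraMap K K⟮θ⟯)))
      ((minpoly.monic hθ).map _) ?_ ?_ ?_
    · intro a ha
      rw [IsRoot.def, eval_map] at ha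
      exact h1 p _ a hp1 ha
    · rw [eval_map]
      exact h2 p _ hp2
    · rw [IsRoot.def, eval_map]
      exact hgen Φ

end dat

end Pool.Agent.Q33.SecL
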