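import Pool.Agent.Q33.SecL.Step1
import Pool.Agent.Q33.SecL.Sah

/-!
# Adelic points of the line with rational Kummer classes
-/

set_option autoImplicit false
set_option linter.unusedSectionVars false

namespace Pool.Agent.Q33.SecL

open Polynomial NumberField

/-- pigeonhole -/
lemma pigeon {σ : Type} [Finite σ] {P : ℕ → σ → Prop} (h : ∀ k, ∃ s, P k s) :
    ∃ s, ∀ B : ℕ, ∃ k, B ≤ k ∧ P k s := by
  classical
  have := Fintype.ofFinite σ
  by_contra hc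
  push Not at hc
  choose B hB using hc
  obtain ⟨s, hs⟩ := h (Finset.univ.sup B)
  exact hB s _ (Finset.le_sup (Finset.mem_univ s)) hs

section base

variable {p : ℕ} [Fact p.Prime]

lemma inBase_of_mem_LL {K : Type} [Field K] [NumberField K] {φ : K →+* PadicAlgCl p}
    (h : ∀ x, InBase (φ x)) {u : PadicAlgCl p} (hu : u ∈ LL φ) : InBase u := by
  have h1 : LL φ ≤ ⊥ := by
    unfold LL
    rw [IntermediateField.adjoin_le_iff]
    rintro _ ⟨x, rfl⟩
    exact IntermediateField.mem_bot.2 (h x)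
  exact IntermediateField.mem_bot.1 (h1 hu)

lemma LL_mono {K E : Type} [Field K] [NumberField K] [Field E] [NumberField E]
    {φ : K →+* PadicAlgCl p} {ψ : E →+* PadicAlgCl p} (h : ∀ x, ∃ y, ψ y = φ x) :
    LL φ ≤ LL ψ := by
  unfold LL
  rw [IntermediateField.adjoin_le_iff]
  rintro _ ⟨x, rfl⟩
  obtain ⟨y, hy⟩ := h x
  rw [← hy]
  exact mem_LL ψ y

end base

variable {A : Type} [Field A] [CharZero A] [IsAlgClosed A] [Algebra.IsAlgebraic ℚ A]

/-- powers of automorphisms are trivial on a finite Galois extension -/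
lemma exists_exponent (S : Finset A) : ∃ (E : IntermediateField ℚ A) (d : ℕ),
    FiniteDimensional ℚ E ∧ (∀ x ∈ S, x ∈ E) ∧ 0 < d ∧
    ∀ τ : A ≃ₐ[ℚ] A, ∀ x ∈ E, (τ ^ d) x = x := by
  classical
  have hG := isGaloisA (A := A)
  let Lf := FiniteGaloisIntermediateField.adjoin ℚ (S : Set A)
  let L : IntermediateField ℚ A := Lf.toIntermediateField
  let alg : Algebra ℚ L := L.algebra'
  have hfd : FiniteDimensional ℚ L := Lf.finiteDimensional
  have hgal : IsGalois ℚ L := Lf.isGalois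
  refine ⟨L, Nat.card (L ≃ₐ[ℚ] L), hfd, fun x hx =>
    FiniteGaloisIntermediateField.subset_adjoin ℚ _ hx, Nat.card_pos, fun τ x hx => ?_⟩
  have h1 : (AlgEquiv.restrictNormalHom L (τ ^ Nat.card (L ≃ₐ[ℚ] L))) = 1 := by
    rw [map_pow, pow_card_eq_one']
  have h2 := AlgEquiv.restrictNormal_commutes (τ ^ Nat.card (L ≃ₐ[ℚ] L)) L ⟨x, hx⟩
  have h3 : (τ ^ Nat.card (L ≃ₐ[ℚ] L)).restrictNormal L ⟨x, hx⟩ = ⟨x, hx⟩ := by
    have := DFunLike.congr_fun h1 (⟨x, hx⟩ : L)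
    exact this
  rw [h3] at h2
  exact h2.symm

section K

variable {K : Type} [Field K] [NumberField K]

/-- the image of `K` -/
def img (j : K →+* A) : IntermediateField ℚ A := (RingHom.toRatAlgHom j).fieldRange

lemma mem_img {j : K →+* A} {x : A} : x ∈ img j ↔ ∃ y, j y = x := by
  unfold img
  rw [AlgHom.mem_fieldRange]
  rfl

lemma img_finite (j : K →+* A) : FiniteDimensional ℚ (img j) := by
  have := (AlgEquiv.ofInjectiveField (RingHom.toRatAlgHom j)).toLinearEquiv.finiteDimensional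
  exact this

lemma img_le {j : K →+* A} : ∃ θ : A, ∀ E : IntermediateField ℚ A, θ ∈ E → img j ≤ E := by
  let pb := Field.powerBasisOfFiniteOfSeparable ℚ K
  refine ⟨j pb.gen, fun E hE x hx => ?_⟩
  obtain ⟨y, rfl⟩ := mem_img.1 hx
  obtain ⟨f, rfl⟩ := pb.exists_eq_aeval' y
  have h1 : j (aeval pb.gen f) = aeval (j pb.gen) f := by
    have e1 : j.comp (algebraMap ℚ K) = algebraMap ℚ A := Subsingleton.elim _ _
    rw [aeval_def, hom_eval₂, e1, ← aeval_def]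
  rw [h1]
  have h2 : aeval (j pb.gen) f = ((aeval (⟨j pb.gen, hE⟩ : E) f : E) : A) :=
    (IntermediateField.aeval_coe E (⟨j pb.gen, hE⟩ : E) f)
  rw [h2]
  exact Subtype.mem _

lemma exists_lift (j : K →+* A) {p : ℕ} [Fact p.Prime] (φ : K →+* PadicAlgCl p) :
    ∃ ψ : A →+* PadicAlgCl p, ψ.comp j = φ := by
  let alg1 : Algebra K A := j.toAlgebra
  let alg2 : Algebra K (PadicAlgCl p) := φ.toAlgebra
  have : IsScalarTower ℚ K A := IsScalarTower.of_algebraMap_eq' (Subsingleton.elim _ _)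
  have : Algebra.IsAlgebraic K A := Algebra.IsAlgebraic.tower_top (K := ℚ) K
  let Ψ : A →ₐ[K] PadicAlgCl p := IsAlgClosed.lift
  exact ⟨Ψ, RingHom.ext fun x => Ψ.commutes x⟩

/-- **The adelic theorem.** -/
theorem adelic_main (j : K →+* A)
    (x : ∀ (p : ℕ) [Fact p.Prime], (K →+* PadicAlgCl p) → PadicAlgCl p) (c : K)
    (hxc : ∀ (p : ℕ) [Fact p.Prime] (φ : K →+* PadicAlgCl p), x p φ ≠ φ c)
    (a : ℕ → K)
    (ha : ∀ (p : ℕ) [Fact p.Prime] (φ : K →+* PadicAlgCl p) (N : ℕ), 0 < N →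
      ∃ u ∈ LL φ, x p φ - φ c = φ (a N) * u ^ N)
    (P : ℚ[X]) (hP : P ≠ 0)
    (hPx : ∀ (p : ℕ) [Fact p.Prime] (φ : K →+* PadicAlgCl p), aeval (x p φ) P = 0) :
    ∃ x0 : A, ∀ (p : ℕ) [Fact p.Prime] (ψ : A →+* PadicAlgCl p), x p (ψ.comp j) = ψ x0 := by
  classical
  have ha0 : ∀ N, 0 < N → a N ≠ 0 := by
    intro N hN h0
    obtain ⟨φ⟩ : Nonempty (K →+* PadicAlgCl 2) := inferInstance
    obtain ⟨u, -, hu⟩ := ha 2 φ N hN
    rw [h0, map_zero, zero_mul] at hu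
    exact hxc 2 φ (sub_eq_zero.1 hu)
  obtain ⟨θ, hθ⟩ := img_le (j := j)
  let R : Finset A := (P.aroots A).toFinset
  have hR : ∀ z, z ∈ R ↔ aeval z P = 0 := by
    intro z
    simp only [R]
    rw [Multiset.mem_toFinset, mem_aroots]
    exact ⟨fun h => h.2, fun h => ⟨hP, h⟩⟩
  obtain ⟨E, d, hE, hSE, hd0, hd⟩ := exists_exponent (insert θ R)
  have hjE : ∀ y, j y ∈ E := fun y =>
    hθ E (hSE θ (Finset.mem_insert_self _ _)) (mem_img.2 ⟨y, rfl⟩)
  have hRE : ∀ z ∈ R, z ∈ E := fun z hz => hSE z (Finset.mem_insert_of_mem hz)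
  have hcE : j c ∈ E := hjE c
  let ι := {z : A // z ∈ R.filter (fun z => z ≠ j c)}
  have hιE : ∀ z : ι, (z : A) ∈ E := fun z => hRE _ (Finset.mem_filter.1 z.2).1
  have hιc : ∀ z : ι, (z : A) ≠ j c := fun z => (Finset.mem_filter.1 z.2).2
  set Q0 : ℕ := (Fintype.card ι).factorial * ((d + 1).factorial) ^ (2 * d) with hQ0
  have hQ0pos : 0 < Q0 := Nat.mul_pos (Nat.factorial_pos _) (pow_pos (Nat.factorial_pos _) _)
  have hgen : ∀ N, 0 < N → ∃ z : ι, ∃ δ ∈ E, (((z : A) - j c) / j (a N)) ^ Q0 = δ ^ N := by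
    intro N hN
    refine general E hE hd0 hd hN (fun z : ι => ((z : A) - j c) / j (a N)) ?_ ?_ ?_
    · exact fun z => div_mem (sub_mem (hιE z) hcE) (hjE _)
    · exact fun z => div_ne_zero (sub_ne_zero.2 (hιc z)) ((map_ne_zero j).2 (ha0 N hN))
    · intro p _ ψ hψ
      obtain ⟨u, hu, hu'⟩ := ha p (ψ.comp j) N hN
      obtain ⟨z, hz, hzx⟩ := exists_root ψ hP (hPx p (ψ.comp j))
      have hzc : z ≠ j c := by
        intro h0
        apply hxc p (ψ.comp j)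
        rw [← hzx, h0]
        rfl
      refine ⟨⟨z, Finset.mem_filter.2 ⟨(hR z).2 hz, hzc⟩⟩, u,
        inBase_of_mem_LL (φ := ψ.comp j) (fun y => hψ _ (hjE y)) hu, ?_⟩
      have h1 : ψ (j c) = (ψ.comp j) c := rfl
      rw [map_div₀, map_sub, h1, hzx, hu']
      change (ψ (j (a N))) * u ^ N / ψ (j (a N)) = u ^ N
      rw [mul_div_cancel_left₀ _ ((map_ne_zero ψ).2 ((map_ne_zero j).2 (ha0 N hN)))]
  -- pigeonhole
  let μ := {ζ : A // ζ ∈ nthRootsFinset Q0 (1 : A)}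
  have hk : ∀ k : ℕ, ∃ s : ι × μ, ∃ δ ∈ E, δ ≠ 0 ∧ (s.2 : A) ∈ E ∧
      ((s.1 : A) - j c) / j (a (Q0 * k.factorial)) = s.2 * δ ^ k.factorial := by
    intro k
    have hN : 0 < Q0 * k.factorial := Nat.mul_pos hQ0pos (Nat.factorial_pos _)
    obtain ⟨z, δ, hδ, h⟩ := hgen _ hN
    have hα0 : ((z : A) - j c) / j (a (Q0 * k.factorial)) ≠ 0 :=
      div_ne_zero (sub_ne_zero.2 (hιc z)) ((map_ne_zero j).2 (ha0 _ hN))
    have hδ0 : δ ≠ 0 := by
      rintro rfl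
      rw [zero_pow hN.ne'] at h
      exact pow_ne_zero _ hα0 h
    refine ⟨(z, ⟨((z : A) - j c) / j (a (Q0 * k.factorial)) / δ ^ k.factorial, ?_⟩), δ, hδ, hδ0,
      ?_, ?_⟩
    · rw [mem_nthRootsFinset hQ0pos, div_pow, h, ← pow_mul, mul_comm k.factorial,
        div_self (pow_ne_zero _ hδ0)]
    · exact div_mem (div_mem (sub_mem (hιE z) hcE) (hjE _)) (pow_mem hδ _)
    · exact (div_mul_cancel₀ _ (pow_ne_zero _ hδ0)).symm
  obtain ⟨⟨z, ζ⟩, hzζ⟩ := pigeon hk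
  have hζ0 : (ζ : A) ≠ 0 := by
    intro h0
    have h1 := (mem_nthRootsFinset hQ0pos _).1 ζ.2
    rw [h0, zero_pow hQ0pos.ne'] at h1
    exact zero_ne_one h1
  have hζE : (ζ : A) ∈ E := by
    obtain ⟨k, -, δ, -, -, h, -⟩ := hzζ 0
    exact h
  let x0 : A := j c + (z - j c) / ζ
  have hx0E : x0 ∈ E := add_mem hcE (div_mem (sub_mem (hιE z) hcE) hζE)
  have hx0c : x0 - j c ≠ 0 := by
    simp only [x0]
    rw [add_sub_cancel_left]
    exact div_ne_zero (sub_ne_zero.2 (hιc z)) hζ0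
  have hEN : NumberField E := ⟨⟩
  refine ⟨x0, fun p _ ψ => ?_⟩
  let ψE : E →+* PadicAlgCl p := ψ.comp E.val.toRingHom
  have hLL : LL (ψ.comp j) ≤ LL ψE := LL_mono fun y => ⟨⟨j y, hjE y⟩, rfl⟩
  have h0 : ψ x0 - ψ (j c) ≠ 0 := by
    rw [← map_sub]
    exact (map_ne_zero ψ).2 hx0c
  have h1 : (x p (ψ.comp j) - (ψ.comp j) c) / (ψ x0 - ψ (j c)) = 1 := by
    refine eq_one_of_powers (LL ψE) (LL_finite ψE)
      (div_ne_zero (sub_ne_zero.2 (hxc p _)) h0) fun B => ?_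
    obtain ⟨k, hk, δ, hδ, hδ0, -, h⟩ := hzζ B
    have hN : 0 < Q0 * k.factorial := Nat.mul_pos hQ0pos (Nat.factorial_pos _)
    obtain ⟨u, hu, hu'⟩ := ha p (ψ.comp j) _ hN
    refine ⟨k, hk, u ^ Q0 / ψ δ, div_mem (pow_mem (hLL hu) _) (mem_LL ψE ⟨δ, hδ⟩), ?_⟩
    have hja : j (a (Q0 * k.factorial)) ≠ 0 := (map_ne_zero j).2 (ha0 _ hN)
    have h2 : x0 - j c = j (a (Q0 * k.factorial)) * δ ^ k.factorial := by
      simp only [x0]
      rw [add_sub_cancel_left]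
      simp only at h
      rw [div_eq_iff hja] at h
      rw [h]
      field_simp
    have h3 : ψ x0 - ψ (j c) = ψ (j (a (Q0 * k.factorial))) * ψ δ ^ k.factorial := by
      rw [← map_sub, h2, map_mul, map_pow]
    rw [hu', h3]
    change _ = ψ (j (a (Q0 * k.factorial))) * u ^ (Q0 * k.factorial) /
      (ψ (j (a (Q0 * k.factorial))) * ψ δ ^ k.factorial)
    rw [mul_div_mul_left _ _ ((map_ne_zero ψ).2 hja), div_pow, ← pow_mul]
  rw [div_eq_one_iff_eq h0] at h1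
  exact sub_left_injective h1

/-- descent from the algebraic closure -/
lemma descend (j : K →+* A)
    (x : ∀ (p : ℕ) [Fact p.Prime], (K →+* PadicAlgCl p) → PadicAlgCl p) {x0 : A}
    (hmain : ∀ (p : ℕ) [Fact p.Prime] (ψ : A →+* PadicAlgCl p), x p (ψ.comp j) = ψ x0) :
    ∃ ξ : K, ∀ (p : ℕ) [Fact p.Prime] (φ : K →+* PadicAlgCl p), x p φ = φ ξ := by
  have hfix : x0 ∈ img j := by
    apply mem_of_fixed'
    intro τ hτ
    obtain ⟨ψ⟩ : Nonempty (A →+* PadicAlgCl 2) := by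
      obtain ⟨φ⟩ : Nonempty (K →+* PadicAlgCl 2) := inferInstance
      obtain ⟨ψ, -⟩ := exists_lift j φ
      exact ⟨ψ⟩
    have h1 := hmain 2 (ψ.comp (τ : A →+* A))
    have h2 : (ψ.comp (τ : A →+* A)).comp j = ψ.comp j := by
      ext y
      change ψ (τ (j y)) = ψ (j y)
      rw [hτ _ (mem_img.2 ⟨y, rfl⟩)]
    rw [h2, hmain 2 ψ] at h1
    exact (ψ.injective h1).symm
  obtain ⟨ξ, hξ⟩ := mem_img.1 hfix
  refine ⟨ξ, fun p _ φ => ?_⟩
  obtain ⟨ψ, hψ⟩ := exists_lift j φ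
  rw [← hψ, hmain p ψ, ← hξ]
  rfl

end K

/-- an algebraic closure of `ℚ` -/
lemma exists_closure : ∃ (A : Type) (_ : Field A) (_ : CharZero A) (_ : IsAlgClosed A),
    Algebra.IsAlgebraic ℚ A := by
  refine ⟨AlgebraicClosure ℚ, inferInstance, inferInstance, inferInstance, ?_⟩
  have key : ∀ alg : Algebra ℚ (AlgebraicClosure ℚ),
      @Algebra.IsAlgebraic ℚ (AlgebraicClosure ℚ) _ _ alg := by
    intro alg
    obtain rfl : alg = AlgebraicClosure.instAlgebra ℚ := Subsingleton.elim _ _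
    exact AlgebraicClosure.isAlgebraic ℚ
  exact key _

lemma exists_emb (K A : Type) [Field K] [NumberField K] [Field A] [CharZero A] [IsAlgClosed A] :
    Nonempty (K →+* A) := by
  have : Algebra.IsAlgebraic ℚ K := inferInstance
  exact ⟨((IsAlgClosed.lift : K →ₐ[ℚ] A) : K →+* A)⟩

end Pool.Agent.Q33.SecL
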